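import Pool.Agent.D0H53.PL.Cnt
import Pool.Agent.N965.LN.Stm

set_option autoImplicit false

/-!
# Sums over the reduced fractions near a reduced fraction
-/

open Finset Filter Topology

namespace Pool.Agent.D0H53.PL

open Pool.Agent.N965.LN (dn)

/-! ## the totient function -/

theorem totient_eq (n : ℕ) (hn : 1 ≤ n) :
    (Nat.totient n : ℝ) = ∑ d ∈ n.divisors, mu d * ((n / d : ℕ) : ℝ) := by
  have h := (ArithmeticFunction.sum_eq_iff_sum_mul_moebius_eq (R := ℝ)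
    (f := fun n => (Nat.totient n : ℝ)) (g := fun n => (n : ℝ))).1 (by
      intro m hm
      have := Nat.sum_totient m
      exact_mod_cast this) n hn
  rw [← h, Nat.sum_divisorsAntidiagonal (fun a b => ((ArithmeticFunction.moebius a : ℤ) : ℝ) * (b : ℝ))]
  rfl

theorem totient_sum (X : ℕ) :
    |∑ n ∈ Icc 1 X, (Nat.totient n : ℝ) - 3 / Real.pi ^ 2 * (X : ℝ) ^ 2| ≤ 10 * (X * Real.sqrt X) := by
  rcases Nat.eq_zero_or_pos X with rfl | hX
  · simp
  have h1 : ∑ n ∈ Icc 1 X, (Nat.totient n : ℝ) = ∑ d ∈ Icc 1 X, mu d * ∑ m ∈ Icc 1 (X / d), (m : ℝ) := by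
    rw [Finset.sum_congr rfl fun n hn => totient_eq n (mem_Icc.1 hn).1,
      sum_divisors X fun d m => mu d * (m : ℝ)]
    refine Finset.sum_congr rfl fun d _ => ?_
    rw [Finset.mul_sum]
  rw [h1]
  have h2 : ∀ T : ℕ, ∑ m ∈ Icc 1 T, (m : ℝ) = (T : ℝ) * (T + 1) / 2 := by
    intro T
    induction T with
    | zero => simp
    | succ n ih =>
      rw [Finset.sum_Icc_succ_top (by omega), ih]
      push_cast
      ring
  have h3 := mobius_sum (fun d => ∑ m ∈ Icc 1 (X / d), (m : ℝ)) X hX X (1 / 2) 4 le_rfl (by linarith)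
    (by norm_num) (by norm_num) (by norm_num) (by
      intro d hd
      rw [mem_Icc] at hd
      have hd0 : (0 : ℝ) < d := by exact_mod_cast hd.1
      rw [h2]
      have h5 : ((X / d : ℕ) : ℝ) ≤ (X : ℝ) / d := Nat.cast_div_le
      have h6 : (X : ℝ) / d < ((X / d : ℕ) : ℝ) + 1 := by
        rw [div_lt_iff₀ hd0]
        have : X < (X / d + 1) * d := by
          have := Nat.lt_mul_div_succ X (by omega : 0 < d)
          linarith
        have h2 : (X : ℝ) < (((X / d + 1) * d : ℕ) : ℝ) := by exact_mod_cast this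
        push_cast at h2
        exact h2
      have h7 : 1 ≤ X / d := Nat.div_pos hd.2 (by omega)
      have h8 : (1 : ℝ) ≤ ((X / d : ℕ) : ℝ) := by exact_mod_cast h7
      set a : ℝ := ((X / d : ℕ) : ℝ)
      rw [abs_le]
      constructor <;> nlinarith)
  have h4 : 6 / Real.pi ^ 2 * (1 / 2) * (X : ℝ) ^ 2 = 3 / Real.pi ^ 2 * (X : ℝ) ^ 2 := by ring
  rw [h4] at h3
  have h5 : (2 * 4 + 2 : ℝ) = 10 := by norm_num
  rwa [h5] at h3

/-! ## fractions -/

/-- the reduced fractions `p / q` in `[0, 1)` with `Q1 < q ≤ Q2`, as pairs `⟨q, p⟩` -/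
def fr (Q1 Q2 : ℕ) : Finset (Σ _ : ℕ, ℕ) :=
  (Ioc Q1 Q2).sigma fun q => (range q).filter fun p => Nat.Coprime p q

/-- the value of a fraction -/
noncomputable def val (r : Σ _ : ℕ, ℕ) : ℝ := (r.2 : ℝ) / r.1

theorem mem_fr {Q1 Q2 : ℕ} {r : Σ _ : ℕ, ℕ} :
    r ∈ fr Q1 Q2 ↔ (Q1 < r.1 ∧ r.1 ≤ Q2) ∧ r.2 < r.1 ∧ Nat.Coprime r.2 r.1 := by
  unfold fr
  rw [mem_sigma, mem_Ioc, mem_filter, mem_range]

theorem dn_nonneg (x : ℝ) : 0 ≤ dn x := abs_nonneg _

theorem dn_le_half (x : ℝ) : dn x ≤ 1 / 2 := abs_sub_round x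

theorem dn_le (x : ℝ) (z : ℤ) : dn x ≤ |x - z| := round_le x z

theorem dn_le_abs (x : ℝ) : dn x ≤ |x| := by simpa using dn_le x 0

theorem dn_add_le (x y : ℝ) : dn (x + y) ≤ dn x + dn y := by
  have h1 := dn_le (x + y) (round x + round y)
  refine h1.trans ?_
  unfold dn
  have : x + y - ((round x + round y : ℤ) : ℝ) = (x - round x) + (y - round y) := by push_cast; ring
  rw [this]
  exact abs_add_le _ _

theorem dn_neg (x : ℝ) : dn (-x) = dn x := by
  apply le_antisymm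
  · refine (dn_le (-x) (-round x)).trans (le_of_eq ?_)
    unfold dn
    push_cast
    rw [← abs_neg]
    congr 1
    ring
  · refine (dn_le x (-round (-x))).trans (le_of_eq ?_)
    unfold dn
    push_cast
    rw [← abs_neg]
    congr 1
    ring

theorem dn_sub_le (x y : ℝ) : dn (x - y) ≤ dn x + dn y := by
  rw [sub_eq_add_neg, ← dn_neg y]
  exact dn_add_le x (-y)

theorem dn_int_add (x : ℝ) (k : ℤ) : dn (x + k) = dn x := by
  unfold dn
  rw [round_add_intCast]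
  push_cast
  congr 1
  ring

theorem dn_eq_abs {x : ℝ} (h : |x| < 1 / 2) : dn x = |x| := by
  have : round x = 0 := by
    rw [round_eq_zero_iff]
    rw [abs_lt] at h
    constructor <;> linarith [h.1, h.2]
  unfold dn
  rw [this]
  simp

/-- different reduced fractions are apart -/
theorem apart {q q' p p' : ℕ} (hq : 1 ≤ q) (hq' : 1 ≤ q') (hp' : Nat.Coprime p' q') (hlt : q < q') :
    1 / ((q : ℝ) * q') ≤ dn ((p' : ℝ) / q' - (p : ℝ) / q) := by
  have h0 : (0 : ℝ) < q := by exact_mod_cast hq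
  have h0' : (0 : ℝ) < q' := by exact_mod_cast hq'
  unfold dn
  set k : ℤ := round ((p' : ℝ) / q' - (p : ℝ) / q) with hk
  have h1 : (p' : ℝ) / q' - (p : ℝ) / q - k = (((p' : ℤ) * q - p * q' - k * (q * q') : ℤ) : ℝ) / (q * q') := by
    push_cast
    field_simp
  rw [h1, abs_div, abs_of_pos (by positivity : (0 : ℝ) < q * q')]
  apply div_le_div_of_nonneg_right _ (by positivity)
  have h2 : ((p' : ℤ) * q - p * q' - k * (q * q') : ℤ) ≠ 0 := by
    intro h
    have h3 : (q' : ℤ) ∣ (p' : ℤ) * q := ⟨p + k * q, by linarith⟩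
    have h4 : q' ∣ p' * q := by exact_mod_cast h3
    have h5 : q' ∣ q := hp'.symm.dvd_of_dvd_mul_left h4
    have := Nat.le_of_dvd (by omega) h5
    omega
  have h3 := Int.one_le_abs h2
  rw [← Int.cast_abs]
  exact_mod_cast h3

/-- the count modulo one equals the count on the line -/
theorem card_near {q p n : ℕ} {ρ : ℝ} (hq : 1 ≤ q) (hn : q < n) (hρ1 : ρ < 1 / 2)
    (hpq : Nat.Coprime p q) :
    ((range n).filter fun p' => Nat.Coprime p' n ∧ dn ((p' : ℝ) / n - (p : ℝ) / q) ≤ ρ / (q : ℝ) ^ 2).card =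
      fz (p : ℤ) q ρ n := by
  have h0 : (0 : ℝ) < q := by exact_mod_cast hq
  have h1q : (1 : ℝ) ≤ q := by exact_mod_cast hq
  have hn0 : (0 : ℝ) < n := by exact_mod_cast (by omega : 0 < n)
  have hnz : (0 : ℤ) < n := by exact_mod_cast (by omega : 0 < n)
  unfold fz
  have hdist : ∀ z : ℤ, |(z : ℝ) / n - (p : ℝ) / q| ≤ ρ / (q : ℝ) ^ 2 ↔
      |((z * q - (p : ℤ) * n : ℤ) : ℝ)| * q ≤ ρ * n := by
    intro z
    have h1 : (z : ℝ) / n - (p : ℝ) / q = ((z * q - (p : ℤ) * n : ℤ) : ℝ) / (n * q) := by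
      push_cast
      field_simp
    rw [h1, abs_div, abs_of_pos (by positivity : (0 : ℝ) < n * q), div_le_div_iff₀ (by positivity) (by positivity)]
    constructor
    · intro h
      have h2 : (|((z * q - (p : ℤ) * n : ℤ) : ℝ)| * q) * q ≤ (ρ * n) * q := by nlinarith
      exact le_of_mul_le_mul_right h2 h0
    · intro h
      nlinarith
  have hne : ∀ z : ℤ, Int.gcd z n = 1 → z * q - (p : ℤ) * n ≠ 0 := by
    intro z hz h
    have h1 : (n : ℤ) ∣ z * q := ⟨p, by linarith⟩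
    have h2 : IsCoprime (n : ℤ) z := by
      rw [Int.isCoprime_iff_gcd_eq_one, Int.gcd_comm]
      exact hz
    have h3 : (n : ℤ) ∣ q := h2.dvd_of_dvd_mul_left h1
    have h4 : n ∣ q := by exact_mod_cast h3
    have := Nat.le_of_dvd (by omega) h4
    omega
  refine Finset.card_bij (fun p' _ => (p' : ℤ) - n * round ((p' : ℝ) / n - (p : ℝ) / q)) ?_ ?_ ?_
  · intro p' hp'
    rw [mem_filter, mem_range] at hp'
    obtain ⟨h1, h2, h3⟩ := hp'
    have h4 : Int.gcd ((p' : ℤ) - n * round ((p' : ℝ) / n - (p : ℝ) / q)) n = 1 := by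
      rw [← Int.isCoprime_iff_gcd_eq_one]
      have h5 : IsCoprime (p' : ℤ) n := Nat.isCoprime_iff_coprime.2 h2
      have h6 : (p' : ℤ) - n * round ((p' : ℝ) / n - (p : ℝ) / q) =
          p' + n * (-round ((p' : ℝ) / n - (p : ℝ) / q)) := by ring
      rw [h6]
      exact IsCoprime.add_mul_left_left h5 _
    rw [mem_filter, mem_Zs hq (by linarith)]
    refine ⟨⟨hne _ h4, ?_⟩, h4⟩
    rw [← hdist]
    refine le_trans (le_of_eq ?_) h3
    unfold dn
    congr 1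
    push_cast
    field_simp
    ring
  · intro p1 hp1 p2 hp2 h
    rw [mem_filter, mem_range] at hp1 hp2
    have h1 : (p1 : ℤ) ≡ p2 [ZMOD n] := by
      rw [Int.modEq_iff_dvd]
      refine ⟨round ((p2 : ℝ) / n - (p : ℝ) / q) - round ((p1 : ℝ) / n - (p : ℝ) / q), ?_⟩
      linarith
    have h2 : p1 ≡ p2 [MOD n] := by exact_mod_cast h1
    exact Nat.ModEq.eq_of_lt_of_lt h2 hp1.1 hp2.1
  · intro z hz
    rw [mem_filter, mem_Zs hq (by linarith)] at hz
    obtain ⟨⟨h1, h2⟩, h3⟩ := hz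
    rw [← hdist] at h2
    have hk : ((z % n).toNat : ℤ) = z % n := Int.toNat_of_nonneg (Int.emod_nonneg _ hnz.ne')
    have hlt : (z % n).toNat < n := by
      have := Int.emod_lt_of_pos z hnz
      omega
    have hdec : ((z % n).toNat : ℤ) = z - n * (z / n) := by
      rw [hk]
      have := Int.emod_add_mul_ediv z n
      linarith
    have hdecr : (((z % n).toNat : ℕ) : ℝ) = z - n * ((z / n : ℤ) : ℝ) := by
      have : (((z % n).toNat : ℤ) : ℝ) = ((z - n * (z / n) : ℤ) : ℝ) := by rw [hdec]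
      push_cast at this
      exact this
    have hsmall : |(z : ℝ) / n - (p : ℝ) / q| < 1 / 2 := by
      refine lt_of_le_of_lt h2 ?_
      rw [div_lt_iff₀ (by positivity)]
      nlinarith
    have hround : round ((((z % n).toNat : ℕ) : ℝ) / n - (p : ℝ) / q) = -(z / n) := by
      have h4 : (((z % n).toNat : ℕ) : ℝ) / n - (p : ℝ) / q = ((z : ℝ) / n - (p : ℝ) / q) + ((-(z / n) : ℤ) : ℝ) := by
        rw [hdecr]
        push_cast
        field_simp
        ring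
      rw [h4, round_add_intCast]
      have : round ((z : ℝ) / n - (p : ℝ) / q) = 0 := by
        rw [round_eq_zero_iff]
        rw [abs_lt] at hsmall
        constructor <;> linarith [hsmall.1, hsmall.2]
      rw [this, zero_add]
    refine ⟨(z % n).toNat, ?_, ?_⟩
    · rw [mem_filter, mem_range]
      refine ⟨hlt, ?_, ?_⟩
      · have h5 : IsCoprime z (n : ℤ) := Int.isCoprime_iff_gcd_eq_one.2 h3
        have h6 : IsCoprime (((z % n).toNat : ℕ) : ℤ) (n : ℤ) := by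
          rw [hdec]
          have h7 : z - (n : ℤ) * (z / n) = z + n * (-(z / n)) := by ring
          rw [h7]
          exact IsCoprime.add_mul_left_left h5 _
        exact Nat.isCoprime_iff_coprime.1 h6
      · unfold dn
        rw [hround, hdecr]
        refine le_trans (le_of_eq ?_) h2
        congr 1
        push_cast
        field_simp
        ring
    · rw [hround, hdec]
      ring

/-- the fractions with larger denominators near `r` -/
noncomputable def nearS (Q1 Q2 : ℕ) (ρ : ℕ → ℝ) (r : Σ _ : ℕ, ℕ) : Finset (Σ _ : ℕ, ℕ) :=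
  (fr Q1 Q2).filter fun r' => r.1 < r'.1 ∧ dn (val r' - val r) ≤ ρ r.1 / (r.1 : ℝ) ^ 2

theorem sum_nearS {Q1 Q2 : ℕ} (ρ : ℕ → ℝ) (r : Σ _ : ℕ, ℕ) (hr : r ∈ fr Q1 Q2) (hρ1 : ρ r.1 < 1 / 2)
    (w : ℕ → ℝ) :
    ∑ r' ∈ nearS Q1 Q2 ρ r, w r'.1 = ∑ n ∈ Ioc r.1 Q2, (fz (r.2 : ℤ) r.1 (ρ r.1) n : ℝ) * w n := by
  rw [mem_fr] at hr
  obtain ⟨⟨h1, h2⟩, h3, h4⟩ := hr
  unfold nearS fr
  rw [Finset.sum_filter, Finset.sum_sigma]
  have h5 : Ioc r.1 Q2 ⊆ Ioc Q1 Q2 := Finset.Ioc_subset_Ioc_left h1.le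
  rw [← Finset.sum_subset h5]
  · refine Finset.sum_congr rfl fun n hn => ?_
    rw [mem_Ioc] at hn
    rw [← card_near (by omega) hn.1 hρ1 h4, Finset.card_filter, Finset.sum_filter]
    push_cast
    rw [Finset.sum_mul]
    refine Finset.sum_congr rfl fun p' _ => ?_
    simp only [hn.1, true_and, val]
    by_cases hc : Nat.Coprime p' n
    · by_cases hd : dn ((p' : ℝ) / n - (r.2 : ℝ) / r.1) ≤ ρ r.1 / (r.1 : ℝ) ^ 2
      · simp [hc, hd]
      · simp [hc, hd]
    · simp [hc]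
  · intro n hn hn'
    rw [mem_Ioc] at hn hn'
    apply Finset.sum_eq_zero
    intro p' _
    rw [if_neg]
    rintro ⟨h6, -⟩
    simp only at h6
    exact hn' ⟨h6, hn.2⟩

theorem sum_inv_window (q n : ℕ) (hq : 1 ≤ q) : ∑ i ∈ Ioc q n, 1 / (i : ℝ) ≤ 2 * Real.sqrt n / Real.sqrt q := by
  have h0 : (0 : ℝ) < q := by exact_mod_cast hq
  have hs : 0 < Real.sqrt q := Real.sqrt_pos.2 h0
  rcases lt_or_ge n q with h | h
  · rw [Finset.Ioc_eq_empty (by omega)]
    simp only [Finset.sum_empty]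
    positivity
  have key : ∀ n, q ≤ n → ∑ i ∈ Ioc q n, 1 / (i : ℝ) ≤ 2 * (Real.sqrt n - Real.sqrt q) / Real.sqrt q := by
    intro n hn
    induction n, hn using Nat.le_induction with
    | base => simp
    | succ n hn ih =>
      rw [Finset.sum_Ioc_succ_top (by omega)]
      have hn0 : (0 : ℝ) < n := by exact_mod_cast (by omega : 0 < n)
      have h1 : 1 / (((n + 1 : ℕ)) : ℝ) ≤ 2 * (Real.sqrt ((n + 1 : ℕ) : ℝ) - Real.sqrt n) / Real.sqrt q := by
        rw [div_le_div_iff₀ (by positivity) hs]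
        push_cast
        have ha := Real.sq_sqrt hn0.le
        have hb := Real.sq_sqrt (by positivity : (0 : ℝ) ≤ (n : ℝ) + 1)
        have hab : Real.sqrt n ≤ Real.sqrt ((n : ℝ) + 1) := Real.sqrt_le_sqrt (by linarith)
        have hqa : Real.sqrt q ≤ Real.sqrt n := Real.sqrt_le_sqrt (by exact_mod_cast hn)
        have ha0 : 0 < Real.sqrt n := Real.sqrt_pos.2 hn0
        set a := Real.sqrt n
        set b := Real.sqrt ((n : ℝ) + 1)
        set c := Real.sqrt q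
        rw [← hb]
        have h2 : (b - a) * (b + a) = 1 := by nlinarith
        -- c ≤ 2 (b-a) b^2
        have h3 : 1 ≤ (b - a) * (2 * b) := by nlinarith
        have h4 : c ≤ b := hqa.trans hab
        calc 1 * c ≤ 1 * b := by linarith
          _ ≤ ((b - a) * (2 * b)) * b := mul_le_mul_of_nonneg_right h3 (by linarith)
          _ = 2 * (b - a) * b ^ 2 := by ring
      have h2 : 2 * (Real.sqrt ((n + 1 : ℕ) : ℝ) - Real.sqrt q) / Real.sqrt q =
          2 * (Real.sqrt n - Real.sqrt q) / Real.sqrt q +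
            2 * (Real.sqrt ((n + 1 : ℕ) : ℝ) - Real.sqrt n) / Real.sqrt q := by ring
      rw [h2]
      linarith
  refine (key n h).trans ?_
  apply div_le_div_of_nonneg_right _ hs.le
  linarith

/-- the main local lemma -/
theorem local_sum {Q1 Q2 : ℕ} (ρ : ℕ → ℝ) (r : Σ _ : ℕ, ℕ) (hr : r ∈ fr Q1 Q2) (hρ0 : 0 ≤ ρ r.1)
    (hρ1 : ρ r.1 < 1 / 2) (g : ℕ → ℝ) (G : ℝ) (hG : 0 ≤ G)
    (hg : ∀ m n, r.1 < m → m ≤ n → n ≤ Q2 → g n ≤ g m) (hg0 : ∀ n, r.1 < n → n ≤ Q2 → 0 ≤ g n)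
    (hgG : ∀ n, r.1 < n → n ≤ Q2 → g n ≤ G) :
    |∑ r' ∈ nearS Q1 Q2 ρ r, g r'.1 / (r'.1 : ℝ) ^ 2 -
      12 / Real.pi ^ 2 * (ρ r.1 / (r.1 : ℝ) ^ 2) * ∑ n ∈ Ioc r.1 Q2, g n / n| ≤
      138 * G * Real.sqrt (ρ r.1) / (r.1 : ℝ) ^ 2 := by
  rw [sum_nearS ρ r hr hρ1 (fun n => g n / (n : ℝ) ^ 2)]
  rw [mem_fr] at hr
  obtain ⟨⟨h1, h2⟩, h3, h4⟩ := hr
  set q := r.1 with hq
  set p := r.2
  have hq1 : 1 ≤ q := by omega
  have h0 : (0 : ℝ) < q := by exact_mod_cast hq1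
  have hsq : 0 < Real.sqrt q := Real.sqrt_pos.2 h0
  have hsq2 := Real.sq_sqrt h0.le
  have hpi : 6 / Real.pi ^ 2 ≤ 1 := by
    rw [div_le_one (by positivity)]
    nlinarith [Real.pi_gt_three]
  rcases eq_or_lt_of_le hρ0 with h | hρ
  · -- ρ = 0
    rw [← h]
    have h5 : ∀ n ∈ Ioc q Q2, (fz (p : ℤ) q 0 n : ℝ) * (g n / (n : ℝ) ^ 2) = 0 := by
      intro n hn
      have : fz (p : ℤ) q 0 n = 0 := by
        unfold fz
        rw [B_zero hq1 (by norm_num) n (by simpa using h0)]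
        simp
      rw [this]
      simp
    rw [Finset.sum_eq_zero h5]
    simp
  set R : ℝ := ρ q with hR
  have hR1 : R < 1 / 2 := hρ1
  set n0 : ℕ := ⌈(q : ℝ) / R⌉₊ with hn0
  have hn0a : (q : ℝ) / R ≤ n0 := Nat.le_ceil _
  have hn0b : (n0 : ℝ) < (q : ℝ) / R + 1 := Nat.ceil_lt_add_one (by positivity)
  have hqn0 : q < n0 := by
    have h5 : (q : ℝ) < (q : ℝ) / R := by
      rw [lt_div_iff₀ hρ]
      nlinarith
    have : (q : ℝ) < n0 := h5.trans_le hn0a
    exact_mod_cast this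
  have hzero : ∀ n, n < n0 → fz (p : ℤ) q R n = 0 := by
    intro n hn
    unfold fz
    rw [B_zero hq1 (by linarith) n]
    · simp
    · have h5 : (n : ℝ) < (q : ℝ) / R := Nat.lt_ceil.1 hn
      rw [lt_div_iff₀ hρ] at h5
      linarith
  have hsum : ∑ n ∈ Ioc q Q2, (fz (p : ℤ) q R n : ℝ) * (g n / (n : ℝ) ^ 2) =
      ∑ n ∈ Icc n0 Q2, (fz (p : ℤ) q R n : ℝ) * (g n / (n : ℝ) ^ 2) := by
    symm
    apply Finset.sum_subset
    · intro n hn
      rw [mem_Icc] at hn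
      rw [mem_Ioc]
      omega
    · intro n hn hn'
      rw [mem_Ioc] at hn
      rw [mem_Icc] at hn'
      rw [hzero n (by omega)]
      simp
  rw [hsum]
  set β : ℝ := 6 / Real.pi ^ 2 * (R / (q : ℝ) ^ 2) with hβ
  have hβ0 : 0 ≤ β := by positivity
  have hβ1 : β ≤ R / (q : ℝ) ^ 2 := by
    rw [hβ]
    exact mul_le_of_le_one_left (by positivity) hpi
  have h5 := psum (fun n => (fz (p : ℤ) q R n : ℝ)) g β (22 / ((q : ℝ) * Real.sqrt q)) G n0 Q2 (by omega)
    (by positivity) hβ0 hG (fun n => count_A hq1 hρ (by linarith) (Nat.isCoprime_iff_coprime.2 h4) n)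
    (fun m n hm hmn hn => hg m n (by omega) hmn hn) (fun n hn hn' => hg0 n (by omega) hn')
    (fun n hn hn' => hgG n (by omega) hn')
  -- the terms between q and n0
  have h6 : ∑ n ∈ Ioc q Q2, g n / n - ∑ n ∈ Icc n0 Q2, g n / n ≤ G * (2 / Real.sqrt R) := by
    have h7 : ∑ n ∈ Ioc q Q2, g n / (n : ℝ) ≤ ∑ n ∈ Icc n0 Q2, g n / (n : ℝ) +
        ∑ n ∈ Ioc q (n0 - 1), G * (1 / (n : ℝ)) := by
      have h8 : Ioc q Q2 ⊆ Icc n0 Q2 ∪ (Ioc q (n0 - 1) ∩ Ioc q Q2) := by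
        intro n hn
        rw [mem_Ioc] at hn
        rw [mem_union, mem_Icc, mem_inter, mem_Ioc, mem_Ioc]
        omega
      have hnn : ∀ n ∈ Icc n0 Q2 ∪ (Ioc q (n0 - 1) ∩ Ioc q Q2), 0 ≤ g n / (n : ℝ) := by
        intro n hn
        rw [mem_union, mem_Icc, mem_inter, mem_Ioc, mem_Ioc] at hn
        exact div_nonneg (hg0 n (by omega) (by omega)) (Nat.cast_nonneg _)
      refine (Finset.sum_le_sum_of_subset_of_nonneg h8 fun n hn _ => hnn n hn).trans ?_
      have h9 : Disjoint (Icc n0 Q2) (Ioc q (n0 - 1) ∩ Ioc q Q2) := by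
        rw [Finset.disjoint_left]
        intro n hn hn'
        rw [mem_Icc] at hn
        rw [mem_inter, mem_Ioc, mem_Ioc] at hn'
        omega
      rw [Finset.sum_union h9]
      have h10 : ∑ n ∈ Ioc q (n0 - 1) ∩ Ioc q Q2, g n / (n : ℝ) ≤ ∑ n ∈ Ioc q (n0 - 1) ∩ Ioc q Q2, G * (1 / (n : ℝ)) := by
        refine Finset.sum_le_sum fun n hn => ?_
        rw [mem_inter, mem_Ioc, mem_Ioc] at hn
        rw [mul_one_div]
        exact div_le_div_of_nonneg_right (hgG n (by omega) (by omega)) (Nat.cast_nonneg _)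
      have h11 : ∑ n ∈ Ioc q (n0 - 1) ∩ Ioc q Q2, G * (1 / (n : ℝ)) ≤ ∑ n ∈ Ioc q (n0 - 1), G * (1 / (n : ℝ)) :=
        Finset.sum_le_sum_of_subset_of_nonneg Finset.inter_subset_left fun n _ _ => by positivity
      linarith
    rw [← Finset.mul_sum] at h7
    have h8 := sum_inv_window q (n0 - 1) hq1
    have h9 : ((n0 - 1 : ℕ) : ℝ) ≤ (q : ℝ) / R := by
      rw [Nat.cast_sub (by omega)]
      push_cast
      linarith
    have h10 : 2 * Real.sqrt ((n0 - 1 : ℕ) : ℝ) / Real.sqrt q ≤ 2 / Real.sqrt R := by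
      have h11 : Real.sqrt ((n0 - 1 : ℕ) : ℝ) ≤ Real.sqrt q / Real.sqrt R := by
        rw [← Real.sqrt_div h0.le]
        exact Real.sqrt_le_sqrt h9
      have hsR : 0 < Real.sqrt R := Real.sqrt_pos.2 hρ
      rw [div_le_div_iff₀ hsq hsR]
      rw [le_div_iff₀ hsR] at h11
      linarith
    have h11 := mul_le_mul_of_nonneg_left (h8.trans h10) hG
    linarith
  have h7 : 0 ≤ ∑ n ∈ Ioc q Q2, g n / (n : ℝ) - ∑ n ∈ Icc n0 Q2, g n / (n : ℝ) := by
    rw [sub_nonneg]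
    apply Finset.sum_le_sum_of_subset_of_nonneg
    · intro n hn
      rw [mem_Icc] at hn
      rw [mem_Ioc]
      omega
    · intro n hn _
      rw [mem_Ioc] at hn
      exact div_nonneg (hg0 n hn.1 hn.2) (Nat.cast_nonneg _)
  have hsR : 0 < Real.sqrt R := Real.sqrt_pos.2 hρ
  have hsR2 := Real.sq_sqrt hρ.le
  -- the three error terms
  have e1 : 6 * (22 / ((q : ℝ) * Real.sqrt q)) * G / Real.sqrt n0 ≤ 132 * G * Real.sqrt R / (q : ℝ) ^ 2 := by
    have h8 : Real.sqrt q / Real.sqrt R ≤ Real.sqrt n0 := by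
      rw [← Real.sqrt_div h0.le]
      exact Real.sqrt_le_sqrt hn0a
    have h9 : 6 * (22 / ((q : ℝ) * Real.sqrt q)) * G / Real.sqrt n0 ≤
        6 * (22 / ((q : ℝ) * Real.sqrt q)) * G / (Real.sqrt q / Real.sqrt R) :=
      div_le_div_of_nonneg_left (by positivity) (by positivity) h8
    refine h9.trans (le_of_eq ?_)
    have h10 : (q : ℝ) ^ 2 = q * (Real.sqrt q * Real.sqrt q) := by
      rw [← sq (Real.sqrt q), hsq2]
      ring
    rw [h10]
    field_simp
    ring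
  have hR2 : R ≤ Real.sqrt R := by
    have : Real.sqrt R ≤ 1 := by
      rw [Real.sqrt_le_iff]
      constructor
      · norm_num
      · linarith
    nlinarith
  have e2 : 2 * β * G ≤ 2 * G * Real.sqrt R / (q : ℝ) ^ 2 := by
    have h8 : β * G ≤ R / (q : ℝ) ^ 2 * G := mul_le_mul_of_nonneg_right hβ1 hG
    have h9 : R / (q : ℝ) ^ 2 * G ≤ Real.sqrt R / (q : ℝ) ^ 2 * G :=
      mul_le_mul_of_nonneg_right (div_le_div_of_nonneg_right hR2 (by positivity)) hG
    have h10 : 2 * G * Real.sqrt R / (q : ℝ) ^ 2 = 2 * (Real.sqrt R / (q : ℝ) ^ 2 * G) := by ring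
    rw [h10]
    linarith
  have e3 : 2 * β * (∑ n ∈ Ioc q Q2, g n / (n : ℝ) - ∑ n ∈ Icc n0 Q2, g n / (n : ℝ)) ≤
      4 * G * Real.sqrt R / (q : ℝ) ^ 2 := by
    have h8 : 2 * β * (∑ n ∈ Ioc q Q2, g n / (n : ℝ) - ∑ n ∈ Icc n0 Q2, g n / (n : ℝ)) ≤
        2 * (R / (q : ℝ) ^ 2) * (G * (2 / Real.sqrt R)) :=
      mul_le_mul (by linarith) h6 h7 (by positivity)
    refine h8.trans (le_of_eq ?_)
    have h9 : R = Real.sqrt R * Real.sqrt R := by rw [← sq, hsR2]
    rw [show 2 * (R / (q : ℝ) ^ 2) * (G * (2 / Real.sqrt R)) = 4 * G * (R / Real.sqrt R) / (q : ℝ) ^ 2 by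
      field_simp
      ring]
    have h10 : R / Real.sqrt R = Real.sqrt R := by
      rw [div_eq_iff hsR.ne']
      exact h9
    rw [h10]
  have e4 : 12 / Real.pi ^ 2 * (R / (q : ℝ) ^ 2) = 2 * β := by
    rw [hβ]
    ring
  rw [e4]
  have h8 := abs_le.1 h5
  have h9 : 0 ≤ 2 * β * (∑ n ∈ Ioc q Q2, g n / (n : ℝ) - ∑ n ∈ Icc n0 Q2, g n / (n : ℝ)) := by positivity
  have h10 : 138 * G * Real.sqrt R / (q : ℝ) ^ 2 = 132 * G * Real.sqrt R / (q : ℝ) ^ 2 +
      2 * G * Real.sqrt R / (q : ℝ) ^ 2 + 4 * G * Real.sqrt R / (q : ℝ) ^ 2 := by ring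
  rw [h10, abs_le]
  have h11 : 0 ≤ 4 * G * Real.sqrt R / (q : ℝ) ^ 2 := by positivity
  constructor
  · have := h8.1
    rw [mul_sub] at e3
    linarith
  · have := h8.2
    rw [mul_sub] at h9
    linarith

end Pool.Agent.D0H53.PL
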