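import Mathlib

set_option autoImplicit false

/-!
# Poisson approximation from factorial moments
-/

open Finset Filter Topology

namespace Pool.Agent.D0H53.PL

/-- the partial alternating sums of binomial coefficients -/
theorem alt_abs (n s : ℕ) : |(∑ i ∈ range (s + 1), (-1 : ℝ) ^ i * ((n + 1).choose i : ℝ))| ≤ ((n + 1).choose (s + 1) : ℝ) := by
  have h := Int.alternating_sum_range_choose_eq_choose (n := n) (m := s)
  have h1 : (∑ i ∈ range (s + 1), (-1 : ℝ) ^ i * ((n + 1).choose i : ℝ)) = (-1) ^ s * (n.choose s : ℝ) := by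
    have h2 := congrArg (fun z : ℤ => (z : ℝ)) h
    push_cast at h2
    exact h2
  rw [h1, abs_mul, abs_pow, abs_neg, abs_one, one_pow, one_mul, Nat.abs_cast, Nat.choose_succ_succ]
  push_cast
  have : (0 : ℝ) ≤ (n.choose (s + 1) : ℝ) := Nat.cast_nonneg _
  linarith

theorem bonferroni (n j s : ℕ) : |(if n = j then (1 : ℝ) else 0) -
    ∑ i ∈ range (s + 1), (-1 : ℝ) ^ i * ((j + i).choose j : ℝ) * (n.choose (j + i) : ℝ)| ≤
    ((j + s + 1).choose j : ℝ) * (n.choose (j + s + 1) : ℝ) := by
  rcases lt_trichotomy n j with h | h | h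
  · rw [if_neg h.ne]
    have h1 : ∑ i ∈ range (s + 1), (-1 : ℝ) ^ i * ((j + i).choose j : ℝ) * (n.choose (j + i) : ℝ) = 0 := by
      apply Finset.sum_eq_zero
      intro i _
      rw [Nat.choose_eq_zero_of_lt (by omega : n < j + i)]
      simp
    rw [h1]
    simp only [sub_zero, abs_zero]
    positivity
  · subst h
    rw [if_pos rfl]
    have h1 : ∑ i ∈ range (s + 1), (-1 : ℝ) ^ i * ((n + i).choose n : ℝ) * (n.choose (n + i) : ℝ) = 1 := by
      rw [Finset.sum_range_succ']
      have h2 : ∑ k ∈ range s, (-1 : ℝ) ^ (k + 1) * ((n + (k + 1)).choose n : ℝ) * (n.choose (n + (k + 1)) : ℝ) = 0 := by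
        apply Finset.sum_eq_zero
        intro i _
        rw [Nat.choose_eq_zero_of_lt (by omega : n < n + (i + 1))]
        simp
      rw [h2]
      simp
    rw [h1]
    simp only [sub_self, abs_zero]
    positivity
  · rw [if_neg h.ne']
    obtain ⟨m, rfl⟩ : ∃ m, n = j + (m + 1) := ⟨n - j - 1, by omega⟩
    have key : ∀ i, ((j + i).choose j : ℝ) * ((j + (m + 1)).choose (j + i) : ℝ) =
        ((j + (m + 1)).choose j : ℝ) * ((m + 1).choose i : ℝ) := by
      intro i
      rcases Nat.lt_or_ge (m + 1) i with hi | hi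
      · rw [Nat.choose_eq_zero_of_lt (by omega : j + (m + 1) < j + i), Nat.choose_eq_zero_of_lt hi]
        simp
      · have h2 := Nat.choose_mul (n := j + (m + 1)) (k := j + i) (s := j) (by omega)
        rw [show j + (m + 1) - j = m + 1 by omega, show j + i - j = i by omega] at h2
        rw [mul_comm ((j + i).choose j : ℝ)]
        exact_mod_cast h2
    have h1 : ∑ i ∈ range (s + 1), (-1 : ℝ) ^ i * ((j + i).choose j : ℝ) * ((j + (m + 1)).choose (j + i) : ℝ) =
        ((j + (m + 1)).choose j : ℝ) * ∑ i ∈ range (s + 1), (-1 : ℝ) ^ i * ((m + 1).choose i : ℝ) := by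
      rw [Finset.mul_sum]
      refine Finset.sum_congr rfl fun i _ => ?_
      rw [mul_assoc, key i]
      ring
    rw [h1, zero_sub, abs_neg, abs_mul, Nat.abs_cast, show j + s + 1 = j + (s + 1) by omega, key (s + 1)]
    exact mul_le_mul_of_nonneg_left (alt_abs m s) (Nat.cast_nonneg _)

/-- the Taylor remainder of the exponential function -/
theorem exp_rem (s : ℕ) (x L : ℝ) (h0 : 0 ≤ x) (hL : x ≤ L) :
    |Real.exp (-x) - ∑ i ∈ range s, (-x) ^ i / i.factorial| ≤ Real.exp L - ∑ i ∈ range s, L ^ i / i.factorial := by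
  have h1 := Complex.norm_exp_sub_sum_le_exp_norm_sub_sum (-(x : ℂ)) s
  have h2 : ‖(-(x : ℂ))‖ = x := by rw [norm_neg, Complex.norm_real, Real.norm_eq_abs, abs_of_nonneg h0]
  rw [h2] at h1
  have h3 : Complex.exp (-(x : ℂ)) - ∑ m ∈ range s, (-(x : ℂ)) ^ m / m.factorial =
      ((Real.exp (-x) - ∑ i ∈ range s, (-x) ^ i / i.factorial : ℝ) : ℂ) := by
    push_cast
    rfl
  rw [h3, Complex.norm_real, Real.norm_eq_abs] at h1
  refine h1.trans ?_
  -- the remainder is increasing
  have hs : ∀ y : ℝ, HasSum (fun i : ℕ => y ^ (i + s) / (i + s).factorial) (Real.exp y - ∑ i ∈ range s, y ^ i / i.factorial) := by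
    intro y
    have h4 : HasSum (fun i : ℕ => y ^ i / i.factorial) (Real.exp y) := by
      have := NormedSpace.expSeries_div_hasSum_exp (𝔸 := ℝ) y
      rwa [← Real.exp_eq_exp_ℝ] at this
    exact (hasSum_nat_add_iff' (f := fun i : ℕ => y ^ i / (i.factorial : ℝ)) s).2 h4
  refine hasSum_le (fun i => ?_) (hs x) (hs L)
  gcongr

theorem exp_rem_tendsto (L : ℝ) : Tendsto (fun s : ℕ => Real.exp L - ∑ i ∈ range s, L ^ i / i.factorial) atTop (𝓝 0) := by
  have h4 : HasSum (fun i : ℕ => L ^ i / i.factorial) (Real.exp L) := by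
    have := NormedSpace.expSeries_div_hasSum_exp (𝔸 := ℝ) L
    rwa [← Real.exp_eq_exp_ℝ] at this
  have h5 := h4.tendsto_sum_nat.const_sub (Real.exp L)
  simpa using h5

/-- the coefficients of the Poisson distribution -/
noncomputable def po (x : ℝ) (j : ℕ) : ℝ := Real.exp (-x) * x ^ j / j.factorial

theorem po_nonneg (x : ℝ) (hx : 0 ≤ x) (j : ℕ) : 0 ≤ po x j := by unfold po; positivity

/-- the probability of one value -/
theorem poisson_point (j : ℕ) (L : ℝ) (hL : 0 ≤ L) (ε : ℝ) (hε : 0 < ε) : ∃ η : ℝ, 0 < η ∧ ∃ K : ℕ,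
    ∀ (ι : Type) (S : Finset ι) (n : ι → ℕ) (x : ℝ), 0 < S.card → 0 ≤ x → x ≤ L →
    (∀ k ≤ K, |(∑ i ∈ S, ((n i).choose k : ℝ)) / S.card - x ^ k / k.factorial| ≤ η) →
    |((S.filter fun i => n i = j).card : ℝ) / S.card - po x j| ≤ ε := by
  -- the choice of the number of terms
  have h1 := (exp_rem_tendsto L)
  have h2 : Tendsto (fun s : ℕ => L ^ j / j.factorial * (L ^ (s + 1) / (s + 1).factorial) +
      L ^ j / j.factorial * (Real.exp L - ∑ i ∈ range (s + 1), L ^ i / i.factorial)) atTop (𝓝 0) := by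
    have h3 := ((FloorSemiring.tendsto_pow_div_factorial_atTop L).comp (tendsto_add_atTop_nat 1)).const_mul (L ^ j / j.factorial)
    have h4 := (h1.comp (tendsto_add_atTop_nat 1)).const_mul (L ^ j / j.factorial)
    have h5 := h3.add h4
    simpa using h5
  obtain ⟨s, hs⟩ := (h2.eventually (gt_mem_nhds (by positivity : (0 : ℝ) < ε / 2))).exists
  set C : ℝ := ((j + s + 1).choose j : ℝ) + ∑ i ∈ range (s + 1), ((j + i).choose j : ℝ) with hC
  have hC0 : 0 ≤ C := by positivity
  refine ⟨ε / (2 * (C + 1)), by positivity, j + s + 1, ?_⟩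
  intro ι S n x hS hx0 hxL hM
  have hS0 : (0 : ℝ) < S.card := by exact_mod_cast hS
  set η : ℝ := ε / (2 * (C + 1)) with hη
  set M : ℕ → ℝ := fun k => (∑ i ∈ S, ((n i).choose k : ℝ)) / S.card with hMd
  have hA : |((S.filter fun i => n i = j).card : ℝ) / S.card -
      ∑ i ∈ range (s + 1), (-1 : ℝ) ^ i * ((j + i).choose j : ℝ) * M (j + i)| ≤
      ((j + s + 1).choose j : ℝ) * M (j + s + 1) := by
    have e1 : ((S.filter fun i => n i = j).card : ℝ) = ∑ i ∈ S, if n i = j then (1 : ℝ) else 0 := by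
      rw [Finset.sum_boole]
    have e2 : ∑ i ∈ range (s + 1), (-1 : ℝ) ^ i * ((j + i).choose j : ℝ) * M (j + i) =
        (∑ a ∈ S, ∑ i ∈ range (s + 1), (-1 : ℝ) ^ i * ((j + i).choose j : ℝ) * ((n a).choose (j + i) : ℝ)) / S.card := by
      rw [Finset.sum_comm, Finset.sum_div]
      refine Finset.sum_congr rfl fun i _ => ?_
      simp only [hMd]
      rw [← Finset.mul_sum, mul_div_assoc]
    rw [e1, e2, ← sub_div, ← Finset.sum_sub_distrib, abs_div, abs_of_pos hS0, div_le_iff₀ hS0]
    refine (Finset.abs_sum_le_sum_abs _ _).trans ?_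
    refine (Finset.sum_le_sum fun a _ => bonferroni (n a) j s).trans ?_
    rw [← Finset.mul_sum]
    simp only [hMd]
    rw [mul_assoc, div_mul_cancel₀ _ hS0.ne']
  have hB : |po x j - ∑ i ∈ range (s + 1), (-1 : ℝ) ^ i * ((j + i).choose j : ℝ) * (x ^ (j + i) / (j + i).factorial)| ≤
      L ^ j / j.factorial * (Real.exp L - ∑ i ∈ range (s + 1), L ^ i / i.factorial) := by
    have e1 : ∑ i ∈ range (s + 1), (-1 : ℝ) ^ i * ((j + i).choose j : ℝ) * (x ^ (j + i) / (j + i).factorial) =
        x ^ j / j.factorial * ∑ i ∈ range (s + 1), (-x) ^ i / i.factorial := by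
      rw [Finset.mul_sum]
      refine Finset.sum_congr rfl fun i _ => ?_
      have e2 : ((j + i).choose j : ℝ) = (j + i).factorial / (j.factorial * i.factorial) := by
        rw [Nat.cast_choose ℝ (by omega : j ≤ j + i), show j + i - j = i by omega]
      rw [e2, neg_pow x i, pow_add]
      have f1 : ((j + i).factorial : ℝ) ≠ 0 := by positivity
      have f2 : (j.factorial : ℝ) ≠ 0 := by positivity
      have f3 : (i.factorial : ℝ) ≠ 0 := by positivity
      field_simp
    have e2 : po x j = x ^ j / j.factorial * Real.exp (-x) := by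
      unfold po
      ring
    rw [e1, e2, ← mul_sub, abs_mul]
    have e3 : |x ^ j / j.factorial| ≤ L ^ j / j.factorial := by
      rw [abs_of_nonneg (by positivity)]
      gcongr
    exact mul_le_mul e3 (exp_rem (s + 1) x L hx0 hxL) (abs_nonneg _) (by positivity)
  have hD : |∑ i ∈ range (s + 1), (-1 : ℝ) ^ i * ((j + i).choose j : ℝ) * M (j + i) -
      ∑ i ∈ range (s + 1), (-1 : ℝ) ^ i * ((j + i).choose j : ℝ) * (x ^ (j + i) / (j + i).factorial)| ≤
      (∑ i ∈ range (s + 1), ((j + i).choose j : ℝ)) * η := by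
    rw [← Finset.sum_sub_distrib, Finset.sum_mul]
    refine (Finset.abs_sum_le_sum_abs _ _).trans ?_
    refine Finset.sum_le_sum fun i hi => ?_
    rw [mem_range] at hi
    rw [← mul_sub, abs_mul, abs_mul, abs_pow, abs_neg, abs_one, one_pow, one_mul, Nat.abs_cast]
    exact mul_le_mul_of_nonneg_left (hM (j + i) (by omega)) (Nat.cast_nonneg _)
  have hE : ((j + s + 1).choose j : ℝ) * M (j + s + 1) ≤
      L ^ j / j.factorial * (L ^ (s + 1) / (s + 1).factorial) + ((j + s + 1).choose j : ℝ) * η := by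
    have e1 := (abs_le.1 (hM (j + s + 1) le_rfl)).2
    have e2 : M (j + s + 1) ≤ x ^ (j + s + 1) / (j + s + 1).factorial + η := by
      simp only [hMd]
      linarith
    have e3 : ((j + s + 1).choose j : ℝ) * (x ^ (j + s + 1) / (j + s + 1).factorial) =
        x ^ j / j.factorial * (x ^ (s + 1) / (s + 1).factorial) := by
      have e2 : ((j + s + 1).choose j : ℝ) = (j + s + 1).factorial / (j.factorial * (s + 1).factorial) := by
        rw [Nat.cast_choose ℝ (by omega : j ≤ j + s + 1), show j + s + 1 - j = s + 1 by omega]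
      rw [e2, show j + s + 1 = j + (s + 1) by omega, pow_add]
      have f1 : ((j + (s + 1)).factorial : ℝ) ≠ 0 := by positivity
      have f2 : (j.factorial : ℝ) ≠ 0 := by positivity
      have f3 : ((s + 1).factorial : ℝ) ≠ 0 := by positivity
      field_simp
    calc ((j + s + 1).choose j : ℝ) * M (j + s + 1) ≤
        ((j + s + 1).choose j : ℝ) * (x ^ (j + s + 1) / (j + s + 1).factorial + η) :=
          mul_le_mul_of_nonneg_left e2 (Nat.cast_nonneg _)
      _ = x ^ j / j.factorial * (x ^ (s + 1) / (s + 1).factorial) + ((j + s + 1).choose j : ℝ) * η := by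
          rw [mul_add, e3]
      _ ≤ _ := by gcongr
  have hη1 : C * η ≤ ε / 2 := by
    rw [hη]
    rw [mul_div_assoc', div_le_div_iff₀ (by positivity) (by positivity)]
    nlinarith
  have a1 := abs_le.1 hA
  have a2 := abs_le.1 hB
  have a3 := abs_le.1 hD
  have a4 : C * η = ((j + s + 1).choose j : ℝ) * η + (∑ i ∈ range (s + 1), ((j + i).choose j : ℝ)) * η := by
    rw [hC, add_mul]
  rw [abs_le]
  constructor <;> linarith [a1.1, a1.2, a2.1, a2.2, a3.1, a3.2]

theorem hasSum_po (x : ℝ) : HasSum (fun j => po x j) 1 := by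
  have h4 : HasSum (fun i : ℕ => x ^ i / i.factorial) (Real.exp x) := by
    have := NormedSpace.expSeries_div_hasSum_exp (𝔸 := ℝ) x
    rwa [← Real.exp_eq_exp_ℝ] at this
  have h5 := h4.mul_left (Real.exp (-x))
  rw [← Real.exp_add, neg_add_cancel, Real.exp_zero] at h5
  have h6 : (fun j => po x j) = fun i : ℕ => Real.exp (-x) * (x ^ i / i.factorial) := by
    funext j
    unfold po
    ring
  rw [h6]
  exact h5

theorem rem_mono (s : ℕ) (x L : ℝ) (h0 : 0 ≤ x) (hL : x ≤ L) :
    Real.exp x - ∑ i ∈ range s, x ^ i / i.factorial ≤ Real.exp L - ∑ i ∈ range s, L ^ i / i.factorial := by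
  have hs : ∀ y : ℝ, HasSum (fun i : ℕ => y ^ (i + s) / (i + s).factorial) (Real.exp y - ∑ i ∈ range s, y ^ i / i.factorial) := by
    intro y
    have h4 : HasSum (fun i : ℕ => y ^ i / i.factorial) (Real.exp y) := by
      have := NormedSpace.expSeries_div_hasSum_exp (𝔸 := ℝ) y
      rwa [← Real.exp_eq_exp_ℝ] at this
    exact (hasSum_nat_add_iff' (f := fun i : ℕ => y ^ i / (i.factorial : ℝ)) s).2 h4
  refine hasSum_le (fun i => ?_) (hs x) (hs L)
  gcongr

theorem tail_le (J : ℕ) (x L : ℝ) (h0 : 0 ≤ x) (hL : x ≤ L) :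
    1 - ∑ j ∈ range J, po x j ≤ Real.exp L - ∑ i ∈ range J, L ^ i / i.factorial := by
  have h1 : 1 - ∑ j ∈ range J, po x j = Real.exp (-x) * (Real.exp x - ∑ i ∈ range J, x ^ i / i.factorial) := by
    rw [mul_sub, ← Real.exp_add, neg_add_cancel, Real.exp_zero, Finset.mul_sum]
    congr 1
    refine Finset.sum_congr rfl fun j _ => ?_
    unfold po
    ring
  have h2 : 0 ≤ Real.exp x - ∑ i ∈ range J, x ^ i / i.factorial :=
    sub_nonneg.2 (Real.sum_le_exp_of_nonneg h0 J)
  have h3 : Real.exp (-x) ≤ 1 := Real.exp_le_one_iff.2 (by linarith)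
  rw [h1]
  refine (mul_le_of_le_one_left h2 h3).trans ?_
  exact rem_mono J x L h0 hL

theorem po_real (x : ℝ) (h0 : 0 ≤ x) (T : Finset ℕ) :
    (ProbabilityTheory.poissonMeasure x.toNNReal).real (T : Set ℕ) = ∑ j ∈ T, po x j := by
  rw [← MeasureTheory.sum_measureReal_singleton]
  refine Finset.sum_congr rfl fun j _ => ?_
  rw [ProbabilityTheory.poissonMeasure_real_singleton, Real.coe_toNNReal x h0]
  rfl

/-- the distance in variation -/
theorem poisson_tv (L : ℝ) (hL : 0 ≤ L) (ε : ℝ) (hε : 0 < ε) : ∃ η : ℝ, 0 < η ∧ ∃ K : ℕ,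
    ∀ (ι : Type) (S : Finset ι) (n : ι → ℕ) (x : ℝ), 0 < S.card → 0 ≤ x → x ≤ L →
    (∀ k ≤ K, |(∑ i ∈ S, ((n i).choose k : ℝ)) / S.card - x ^ k / k.factorial| ≤ η) →
    ∀ A : Set ℕ, |({i ∈ (S : Set ι) | n i ∈ A}.ncard : ℝ) / S.card -
      (ProbabilityTheory.poissonMeasure x.toNNReal).real A| ≤ ε := by
  classical
  obtain ⟨J, hJ⟩ := ((exp_rem_tendsto L).eventually (gt_mem_nhds (by positivity : (0 : ℝ) < ε / 4))).exists
  have hJ0 : (0 : ℝ) ≤ J := Nat.cast_nonneg _
  set ε' : ℝ := ε / (4 * (J + 1)) with hε'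
  have hε'0 : 0 < ε' := by positivity
  have hJε : 2 * (J * ε') ≤ ε / 2 := by
    rw [hε', mul_div_assoc', mul_div_assoc', div_le_div_iff₀ (by positivity) (by positivity)]
    nlinarith
  choose η hη0 K hK using fun j : ℕ => poisson_point j L hL ε' hε'0
  obtain ⟨j0, -, hj0⟩ := Finset.exists_min_image (range (J + 1)) η ⟨0, by simp⟩
  refine ⟨η j0, hη0 j0, (range (J + 1)).sup K, ?_⟩
  intro ι S n x hS hx0 hxL hM A
  have hS0 : (0 : ℝ) < S.card := by exact_mod_cast hS
  set p : ℕ → ℝ := fun j => ((S.filter fun i => n i = j).card : ℝ) / S.card with hp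
  have hp0 : ∀ j, 0 ≤ p j := fun j => by simp only [hp]; positivity
  have hpj : ∀ j ∈ range J, |p j - po x j| ≤ ε' := by
    intro j hj
    have hj' : j ∈ range (J + 1) := by rw [mem_range] at hj ⊢; omega
    apply hK j ι S n x hS hx0 hxL
    intro k hk
    exact (hM k (hk.trans (Finset.le_sup hj'))).trans (hj0 j hj')
  have hsumdiff : ∀ T ⊆ range J, |∑ j ∈ T, p j - ∑ j ∈ T, po x j| ≤ J * ε' := by
    intro T hT
    rw [← Finset.sum_sub_distrib]
    refine (Finset.abs_sum_le_sum_abs _ _).trans ?_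
    refine (Finset.sum_le_sum fun j hj => hpj j (hT hj)).trans ?_
    rw [Finset.sum_const, nsmul_eq_mul]
    have : (T.card : ℝ) ≤ J := by
      have := Finset.card_le_card hT
      rw [Finset.card_range] at this
      exact_mod_cast this
    exact mul_le_mul_of_nonneg_right this hε'0.le
  -- the empirical distribution
  have hE : ∀ T : Finset ℕ, ((S.filter fun i => n i ∈ T).card : ℝ) / S.card = ∑ j ∈ T, p j := by
    intro T
    have h1 : (S.filter fun i => n i ∈ T).card = ∑ j ∈ T, (S.filter fun i => n i = j).card := by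
      rw [Finset.card_eq_sum_card_fiberwise (f := n) (t := T) (by
        intro i hi
        exact (Finset.mem_filter.1 hi).2)]
      refine Finset.sum_congr rfl fun j hj => ?_
      congr 1
      ext i
      simp only [mem_filter]
      constructor
      · rintro ⟨⟨h2, -⟩, h3⟩; exact ⟨h2, h3⟩
      · rintro ⟨h2, h3⟩; exact ⟨⟨h2, by rw [h3]; exact hj⟩, h3⟩
    rw [h1]
    push_cast
    rw [Finset.sum_div]
  set T : Finset ℕ := (range J).filter (fun j => j ∈ A) with hT
  have hTsub : T ⊆ range J := Finset.filter_subset _ _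
  set E : ℝ := ({i ∈ (S : Set ι) | n i ∈ A}.ncard : ℝ) / S.card with hEd
  have hE0 : {i ∈ (S : Set ι) | n i ∈ A}.ncard = (S.filter fun i => n i ∈ A).card := by
    rw [← Set.ncard_coe_finset]
    congr 1
    ext i
    simp
  have hE1 : ∑ j ∈ T, p j ≤ E := by
    rw [← hE T, hEd, hE0]
    apply div_le_div_of_nonneg_right _ hS0.le
    have : (S.filter fun i => n i ∈ T).card ≤ (S.filter fun i => n i ∈ A).card := by
      apply Finset.card_le_card
      intro i hi
      rw [mem_filter] at hi ⊢
      exact ⟨hi.1, (Finset.mem_filter.1 hi.2).2⟩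
    exact_mod_cast this
  have hE2 : E ≤ ∑ j ∈ T, p j + (1 - ∑ j ∈ range J, p j) := by
    rw [← hE T, ← hE (range J), hEd, hE0]
    have h1 : (S.filter fun i => n i ∈ A).card + (S.filter fun i => n i ∈ range J).card ≤
        (S.filter fun i => n i ∈ T).card + S.card := by
      have h2 : (S.filter fun i => n i ∈ A) ∪ (S.filter fun i => n i ∈ range J) ⊆ S := by
        intro i hi
        rw [mem_union, mem_filter, mem_filter] at hi
        rcases hi with h | h <;> exact h.1
      have h3 : (S.filter fun i => n i ∈ A) ∩ (S.filter fun i => n i ∈ range J) = S.filter fun i => n i ∈ T := by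
        ext i
        rw [mem_inter, mem_filter, mem_filter, mem_filter, hT, mem_filter]
        tauto
      have h4 := Finset.card_union_add_card_inter (S.filter fun i => n i ∈ A) (S.filter fun i => n i ∈ range J)
      rw [h3] at h4
      have h5 := Finset.card_le_card h2
      omega
    have h2 : ((S.filter fun i => n i ∈ A).card : ℝ) + ((S.filter fun i => n i ∈ range J).card : ℝ) ≤
        ((S.filter fun i => n i ∈ T).card : ℝ) + (S.card : ℝ) := by exact_mod_cast h1
    have h3 : (1 : ℝ) = (S.card : ℝ) / S.card := by field_simp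
    rw [h3, ← sub_div, ← add_div]
    apply div_le_div_of_nonneg_right _ hS0.le
    linarith
  -- the Poisson distribution
  set P : ℝ := (ProbabilityTheory.poissonMeasure x.toNNReal).real A with hP
  have hP1 : ∑ j ∈ T, po x j ≤ P := by
    rw [← po_real x hx0 T, hP]
    refine MeasureTheory.measureReal_mono ?_ (MeasureTheory.measure_ne_top _ _)
    intro j hj
    rw [Finset.mem_coe, hT, mem_filter] at hj
    exact hj.2
  have hP2 : P ≤ ∑ j ∈ T, po x j + (1 - ∑ j ∈ range J, po x j) := by
    have h1 : (ProbabilityTheory.poissonMeasure x.toNNReal).real ((range J : Finset ℕ) : Set ℕ)ᶜ =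
        1 - ∑ j ∈ range J, po x j := by
      rw [MeasureTheory.probReal_compl_eq_one_sub (Finset.measurableSet _), po_real x hx0]
    rw [← po_real x hx0 T, ← h1, hP]
    refine le_trans ?_ (MeasureTheory.measureReal_union_le _ _)
    refine MeasureTheory.measureReal_mono ?_ (MeasureTheory.measure_ne_top _ _)
    intro j hj
    by_cases h : j ∈ range J
    · left
      rw [Finset.mem_coe, hT, mem_filter]
      exact ⟨h, hj⟩
    · right
      exact h
  have hD := abs_le.1 (hsumdiff T hTsub)
  have hD' := abs_le.1 (hsumdiff (range J) subset_rfl)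
  have hta := tail_le J x L hx0 hxL
  rw [abs_le]
  constructor <;> linarith [hD.1, hD.2, hD'.1, hD'.2]

end Pool.Agent.D0H53.PL
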