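import Pool.Agent.D0H53.PL.Chain

set_option autoImplicit false

/-!
# Factorial moments of the number of close fractions
-/

open Finset Filter Topology

namespace Pool.Agent.D0H53.PL

open Pool.Agent.N965.LN (dn)

/-! ## the number of chains -/

theorem harm_log (Q : ℕ) : ∑ n ∈ Icc 1 Q, 1 / (n : ℝ) ≤ 1 + Real.log Q := by
  have h := harmonic_le_one_add_log Q
  have h1 : ((harmonic Q : ℚ) : ℝ) = ∑ n ∈ Icc 1 Q, 1 / (n : ℝ) := by
    rw [harmonic_eq_sum_Icc]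
    push_cast
    exact Finset.sum_congr rfl fun n _ => by rw [one_div]
  rw [← h1]
  exact h

theorem Hyp.rho {Q1 Q2 : ℕ} {δ : ℕ → ℝ} {t L lam : ℝ} (h : Hyp Q1 Q2 δ t L) (hlam : |lam - 1| ≤ t ^ 2)
    (n : ℕ) (hn : Q1 < n) (hn' : n ≤ Q2) : 0 ≤ lam * δ n ∧ lam * δ n < 1 / 2 := by
  have ht0 := h.t0
  have ht1 := h.t1
  have hδ0 := h.nonneg n hn hn'
  have hδ1 := h.small n hn hn'
  have hlam1 := abs_le.1 hlam
  have ht2 : t ^ 2 ≤ 1 / 4 := by nlinarith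
  have hlam0 : 0 ≤ lam := by linarith [hlam1.1]
  have hlam2 : lam ≤ 5 / 4 := by linarith [hlam1.2]
  refine ⟨mul_nonneg hlam0 hδ0, ?_⟩
  nlinarith

theorem near_inv {Q1 Q2 : ℕ} {δ : ℕ → ℝ} {t L lam : ℝ} (h : Hyp Q1 Q2 δ t L) (hlam : |lam - 1| ≤ t ^ 2)
    (r : Σ _ : ℕ, ℕ) (hr : r ∈ fr Q1 Q2) :
    ∑ r' ∈ nearS Q1 Q2 (fun n => lam * δ n) r, 1 / (r'.1 : ℝ) ^ 2 ≤ 1 / (r.1 : ℝ) ^ 2 * (139 * (1 + Real.log Q2)) := by
  have hr' := mem_fr.1 hr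
  obtain ⟨⟨h1, h2⟩, -, -⟩ := hr'
  obtain ⟨hρ0, hρ1⟩ := h.rho hlam r.1 h1 h2
  have hq0 : (0 : ℝ) < r.1 := by exact_mod_cast (by omega : 0 < r.1)
  have hQ0 : (1 : ℝ) ≤ Q2 := by exact_mod_cast (by omega : 1 ≤ Q2)
  have hlog : 0 ≤ Real.log Q2 := Real.log_nonneg hQ0
  have h3 := local_sum (Q1 := Q1) (Q2 := Q2) (fun n => lam * δ n) r hr hρ0 hρ1 (fun _ => (1 : ℝ)) 1 (by norm_num)
    (fun _ _ _ _ _ => le_rfl) (fun _ _ _ => zero_le_one) (fun _ _ _ => le_rfl)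
  have h4 := (abs_le.1 h3).2
  set ρ : ℝ := lam * δ r.1 with hρ
  have h5 : ∑ n ∈ Ioc r.1 Q2, (1 : ℝ) / n ≤ 1 + Real.log Q2 := by
    refine le_trans ?_ (harm_log Q2)
    apply Finset.sum_le_sum_of_subset_of_nonneg
    · intro n hn
      rw [mem_Ioc] at hn
      rw [mem_Icc]
      omega
    · intro n _ _
      positivity
  have h6 : Real.sqrt ρ ≤ 1 := by
    rw [Real.sqrt_le_iff]
    constructor
    · norm_num
    · linarith
  have hi : 0 ≤ 1 / (r.1 : ℝ) ^ 2 := by positivity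
  have h7 : 12 / Real.pi ^ 2 * (ρ / (r.1 : ℝ) ^ 2) * ∑ n ∈ Ioc r.1 Q2, (1 : ℝ) / n ≤
      1 / (r.1 : ℝ) ^ 2 * (1 + Real.log Q2) := by
    have h8 : 12 / Real.pi ^ 2 * (ρ / (r.1 : ℝ) ^ 2) ≤ 1 / (r.1 : ℝ) ^ 2 := by
      have h9 : 12 / Real.pi ^ 2 * ρ ≤ 1 := by
        have := mul_le_mul pi_le hρ1.le hρ0 (by norm_num)
        linarith
      calc 12 / Real.pi ^ 2 * (ρ / (r.1 : ℝ) ^ 2) = (12 / Real.pi ^ 2 * ρ) * (1 / (r.1 : ℝ) ^ 2) := by ring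
        _ ≤ 1 * (1 / (r.1 : ℝ) ^ 2) := mul_le_mul_of_nonneg_right h9 hi
        _ = _ := one_mul _
    exact mul_le_mul h8 h5 (Finset.sum_nonneg fun n _ => by positivity) hi
  have h8 : 138 * 1 * Real.sqrt ρ / (r.1 : ℝ) ^ 2 ≤ 1 / (r.1 : ℝ) ^ 2 * 138 := by
    have : 138 * 1 * Real.sqrt ρ / (r.1 : ℝ) ^ 2 = 1 / (r.1 : ℝ) ^ 2 * (138 * Real.sqrt ρ) := by ring
    rw [this]
    apply mul_le_mul_of_nonneg_left _ hi
    linarith
  have h9 : 1 / (r.1 : ℝ) ^ 2 * (139 * (1 + Real.log Q2)) = 1 / (r.1 : ℝ) ^ 2 * (1 + Real.log Q2) +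
      1 / (r.1 : ℝ) ^ 2 * 138 + 1 / (r.1 : ℝ) ^ 2 * (138 * Real.log Q2) := by ring
  rw [h9]
  have h10 : 0 ≤ 1 / (r.1 : ℝ) ^ 2 * (138 * Real.log Q2) := by positivity
  linarith

theorem U_inv {Q1 Q2 : ℕ} {δ : ℕ → ℝ} {t L lam : ℝ} (h : Hyp Q1 Q2 δ t L) (hlam : |lam - 1| ≤ t ^ 2) (j : ℕ) :
    ∀ r ∈ fr Q1 Q2, U Q1 Q2 (fun n => lam * δ n) (fun r => 1 / (r.1 : ℝ) ^ 2) j r ≤
      1 / (r.1 : ℝ) ^ 2 * (139 * (1 + Real.log Q2)) ^ j := by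
  induction j with
  | zero => intro r _; rw [U_zero]; simp
  | succ n ih =>
    intro r hr
    have hr' := mem_fr.1 hr
    have hQ0 : (1 : ℝ) ≤ Q2 := by exact_mod_cast (by omega : 1 ≤ Q2)
    have hlog : 0 ≤ Real.log Q2 := Real.log_nonneg hQ0
    rw [U_succ]
    refine (Finset.sum_le_sum fun r' hr' => ih r' (nearS_sub _ _ _ _ hr')).trans ?_
    rw [← Finset.sum_mul]
    have h1 := near_inv h hlam r hr
    calc (∑ r' ∈ nearS Q1 Q2 (fun n => lam * δ n) r, 1 / (r'.1 : ℝ) ^ 2) * (139 * (1 + Real.log Q2)) ^ n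
        ≤ (1 / (r.1 : ℝ) ^ 2 * (139 * (1 + Real.log Q2))) * (139 * (1 + Real.log Q2)) ^ n :=
          mul_le_mul_of_nonneg_right h1 (by positivity)
      _ = _ := by ring

theorem num_chains {Q1 Q2 : ℕ} {δ : ℕ → ℝ} {t L lam : ℝ} (h : Hyp Q1 Q2 δ t L) (hlam : |lam - 1| ≤ t ^ 2) (j : ℕ) :
    ∑ r ∈ fr Q1 Q2, U Q1 Q2 (fun n => lam * δ n) (fun _ => 1) j r ≤
      (Q2 : ℝ) ^ 2 * (139 * (1 + Real.log Q2)) ^ (j + 1) := by
  rcases Nat.eq_zero_or_pos Q2 with h0 | hQ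
  · subst h0
    have : fr Q1 0 = ∅ := by
      unfold fr
      rw [Finset.Ioc_eq_empty (by omega)]
      simp
    rw [this]
    simp
  have hQ0 : (1 : ℝ) ≤ Q2 := by exact_mod_cast hQ
  have hlog : 0 ≤ Real.log Q2 := Real.log_nonneg hQ0
  have h1 : ∀ r ∈ fr Q1 Q2, U Q1 Q2 (fun n => lam * δ n) (fun _ => 1) j r ≤
      (Q2 : ℝ) ^ 2 * (1 / (r.1 : ℝ) ^ 2 * (139 * (1 + Real.log Q2)) ^ j) := by
    intro r hr
    have h2 := U_mono Q1 Q2 (fun n => lam * δ n) (fun _ => 1)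
      (fun r => (Q2 : ℝ) ^ 2 * (1 / (r.1 : ℝ) ^ 2) + 0 * (1 / (r.1 : ℝ) ^ 2)) (by
        intro r hr
        have hr' := mem_fr.1 hr
        have hq0 : (0 : ℝ) < r.1 := by exact_mod_cast (by omega : 0 < r.1)
        have hq1 : (r.1 : ℝ) ≤ Q2 := by exact_mod_cast hr'.1.2
        rw [zero_mul, add_zero, mul_one_div, le_div_iff₀ (by positivity), one_mul]
        exact pow_le_pow_left₀ hq0.le hq1 2) j r hr
    rw [U_add] at h2
    rw [zero_mul, add_zero] at h2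
    refine h2.trans ?_
    exact mul_le_mul_of_nonneg_left (U_inv h hlam j r hr) (by positivity)
  refine (Finset.sum_le_sum h1).trans ?_
  rw [← Finset.mul_sum, ← Finset.sum_mul]
  apply mul_le_mul_of_nonneg_left _ (by positivity)
  rw [pow_succ, mul_comm]
  apply mul_le_mul_of_nonneg_left _ (by positivity)
  have h2 : ∑ r ∈ fr Q1 Q2, 1 / (r.1 : ℝ) ^ 2 ≤ ∑ n ∈ Icc 1 Q2, 1 / (n : ℝ) := by
    unfold fr
    rw [Finset.sum_sigma]
    have h3 : ∀ n ∈ Ioc Q1 Q2, ∑ _s ∈ (range n).filter (fun p => Nat.Coprime p n), 1 / (n : ℝ) ^ 2 ≤ 1 / (n : ℝ) := by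
      intro n hn
      rw [mem_Ioc] at hn
      have hn0 : (0 : ℝ) < n := by exact_mod_cast (by omega : 0 < n)
      rw [Finset.sum_const, nsmul_eq_mul]
      have h4 : ((((range n).filter (fun p => Nat.Coprime p n)).card : ℕ) : ℝ) ≤ n := by
        have := Finset.card_filter_le (range n) (fun p => Nat.Coprime p n)
        rw [Finset.card_range] at this
        exact_mod_cast this
      calc _ ≤ (n : ℝ) * (1 / (n : ℝ) ^ 2) := mul_le_mul_of_nonneg_right h4 (by positivity)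
        _ = 1 / (n : ℝ) := by field_simp
    refine (Finset.sum_le_sum h3).trans ?_
    apply Finset.sum_le_sum_of_subset_of_nonneg
    · intro n hn
      rw [mem_Ioc] at hn
      rw [mem_Icc]
      omega
    · intro n _ _
      positivity
  have h3 := harm_log Q2
  linarith

/-! ## binomial coefficients -/

theorem hockey {α : Type} [DecidableEq α] (f : α → ℕ) (j : ℕ) (A : Finset α) : (∀ a ∈ A, ∀ b ∈ A, f a = f b → a = b) →
    ∑ a ∈ A, ((A.filter fun b => f a < f b).card.choose j : ℝ) = (A.card.choose (j + 1) : ℝ) := by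
  classical
  refine Finset.induction_on_min_value f A ?_ ?_
  · intro _
    simp
  · intro a s ha hmin ih hinj
    have hinj' : ∀ b ∈ s, ∀ c ∈ s, f b = f c → b = c := fun b hb c hc =>
      hinj b (mem_insert_of_mem hb) c (mem_insert_of_mem hc)
    have hlt : ∀ b ∈ s, f a < f b := by
      intro b hb
      refine lt_of_le_of_ne (hmin b hb) ?_
      intro h
      have := hinj a (mem_insert_self _ _) b (mem_insert_of_mem hb) h
      rw [this] at ha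
      exact ha hb
    rw [Finset.sum_insert ha, Finset.card_insert_of_notMem ha]
    have h1 : ((insert a s).filter fun b => f a < f b) = s := by
      ext b
      rw [mem_filter, mem_insert]
      constructor
      · rintro ⟨h | h, h2⟩
        · rw [h] at h2; exact absurd h2 (lt_irrefl _)
        · exact h
      · intro h
        exact ⟨Or.inr h, hlt b h⟩
    rw [h1]
    have h2 : ∀ b ∈ s, ((insert a s).filter fun c => f b < f c) = s.filter fun c => f b < f c := by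
      intro b hb
      ext c
      rw [mem_filter, mem_filter, mem_insert]
      constructor
      · rintro ⟨h | h, h2⟩
        · rw [h] at h2
          exact absurd h2 (not_lt.2 (hlt b hb).le)
        · exact ⟨h, h2⟩
      · rintro ⟨h, h2⟩
        exact ⟨Or.inr h, h2⟩
    have h3 : ∑ b ∈ s, ((((insert a s).filter fun c => f b < f c).card.choose j : ℕ) : ℝ) =
        ∑ b ∈ s, (((s.filter fun c => f b < f c).card.choose j : ℕ) : ℝ) :=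
      Finset.sum_congr rfl fun b hb => by rw [h2 b hb]
    rw [h3, ih hinj', Nat.choose_succ_succ]
    push_cast
    rfl

/-! ## hits -/

/-- the fractions close to `y` -/
noncomputable def Hs (Q1 Q2 : ℕ) (δ : ℕ → ℝ) (y : ℝ) : Finset (Σ _ : ℕ, ℕ) :=
  (fr Q1 Q2).filter fun r => dn (y - val r) ≤ δ r.1 / (r.1 : ℝ) ^ 2

/-- the number of chains above `r` -/
noncomputable def V (Q1 Q2 : ℕ) (δ : ℕ → ℝ) (y : ℝ) : ℕ → (Σ _ : ℕ, ℕ) → ℝ
  | 0, _ => 1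
  | j + 1, r => ∑ r' ∈ (Hs Q1 Q2 δ y).filter (fun r' => r.1 < r'.1), V Q1 Q2 δ y j r'

theorem V_succ (Q1 Q2 : ℕ) (δ : ℕ → ℝ) (y : ℝ) (j : ℕ) (r : Σ _ : ℕ, ℕ) :
    V Q1 Q2 δ y (j + 1) r = ∑ r' ∈ (Hs Q1 Q2 δ y).filter (fun r' => r.1 < r'.1), V Q1 Q2 δ y j r' := rfl

theorem V_nonneg (Q1 Q2 : ℕ) (δ : ℕ → ℝ) (y : ℝ) (j : ℕ) : ∀ r, 0 ≤ V Q1 Q2 δ y j r := by
  induction j with
  | zero => intro r; exact zero_le_one
  | succ n ih => intro r; rw [V_succ]; exact Finset.sum_nonneg fun r' _ => ih r'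

theorem same_den {Q1 Q2 : ℕ} {δ : ℕ → ℝ} {t L : ℝ} (h : Hyp Q1 Q2 δ t L) (y : ℝ) :
    ∀ a ∈ Hs Q1 Q2 δ y, ∀ b ∈ Hs Q1 Q2 δ y, a.1 = b.1 → a = b := by
  rintro ⟨q, p⟩ ha ⟨q', p'⟩ hb hab
  simp only at hab
  subst hab
  unfold Hs at ha hb
  rw [mem_filter, mem_fr] at ha hb
  simp only [val] at ha hb
  obtain ⟨⟨⟨h1, h2⟩, h3, -⟩, h4⟩ := ha
  obtain ⟨⟨-, h5, -⟩, h6⟩ := hb
  have ht0 := h.t0
  have ht1 := h.t1
  have hδ0 := h.nonneg q h1 h2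
  have hδ1 := h.small q h1 h2
  have hq0 : (0 : ℝ) < q := by exact_mod_cast (by omega : 0 < q)
  have hq1 : (1 : ℝ) ≤ q := by exact_mod_cast (by omega : 1 ≤ q)
  by_contra hne
  have hpp : p ≠ p' := by
    intro h7
    apply hne
    rw [h7]
  have h7 : dn ((p : ℝ) / q - (p' : ℝ) / q) ≤ δ q / (q : ℝ) ^ 2 + δ q / (q : ℝ) ^ 2 := by
    have h8 : (p : ℝ) / q - (p' : ℝ) / q = (y - (p' : ℝ) / q) - (y - (p : ℝ) / q) := by ring
    rw [h8]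
    refine (dn_sub_le _ _).trans ?_
    linarith
  have h8 : 1 / (q : ℝ) ≤ dn ((p : ℝ) / q - (p' : ℝ) / q) := by
    unfold dn
    set k : ℤ := round ((p : ℝ) / q - (p' : ℝ) / q) with hk
    have h9 : (p : ℝ) / q - (p' : ℝ) / q - k = (((p : ℤ) - p' - k * q : ℤ) : ℝ) / q := by
      push_cast
      field_simp
    rw [h9, abs_div, abs_of_pos hq0]
    apply div_le_div_of_nonneg_right _ hq0.le
    have h10 : ((p : ℤ) - p' - k * q : ℤ) ≠ 0 := by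
      intro h11
      have h12 : (q : ℤ) ∣ (p : ℤ) - p' := ⟨k, by linarith⟩
      have h13 : (p : ℤ) - p' = 0 := by
        apply Int.eq_zero_of_abs_lt_dvd h12
        rw [abs_lt]
        constructor <;> omega
      omega
    have h11 := Int.one_le_abs h10
    rw [← Int.cast_abs]
    exact_mod_cast h11
  have h9 := h8.trans h7
  have h10 : δ q / (q : ℝ) ^ 2 + δ q / (q : ℝ) ^ 2 = 2 * δ q / q / q := by
    field_simp
    ring
  rw [h10, div_le_div_iff_of_pos_right hq0, le_div_iff₀ hq0] at h9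
  nlinarith

theorem V_eq {Q1 Q2 : ℕ} {δ : ℕ → ℝ} {t L : ℝ} (h : Hyp Q1 Q2 δ t L) (y : ℝ) (j : ℕ) : ∀ r,
    V Q1 Q2 δ y j r = ((((Hs Q1 Q2 δ y).filter fun r' => r.1 < r'.1).card.choose j : ℕ) : ℝ) := by
  classical
  induction j with
  | zero => intro r; simp [V]
  | succ n ih =>
    intro r
    rw [V_succ]
    have h1 := hockey (fun r : Σ _ : ℕ, ℕ => r.1) n ((Hs Q1 Q2 δ y).filter fun r' => r.1 < r'.1) (by
      intro a ha b hb hab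
      exact same_den h y a (Finset.mem_filter.1 ha).1 b (Finset.mem_filter.1 hb).1 hab)
    rw [← h1]
    refine Finset.sum_congr rfl fun r' hr' => ?_
    rw [mem_filter] at hr'
    rw [ih r']
    congr 3
    ext r''
    rw [mem_filter, mem_filter, mem_filter]
    constructor
    · rintro ⟨h2, h3⟩
      exact ⟨⟨h2, hr'.2.trans h3⟩, h3⟩
    · rintro ⟨⟨h2, -⟩, h3⟩
      exact ⟨h2, h3⟩

theorem sum_V_eq {Q1 Q2 : ℕ} {δ : ℕ → ℝ} {t L : ℝ} (h : Hyp Q1 Q2 δ t L) (y : ℝ) (j : ℕ) :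
    ∑ r ∈ Hs Q1 Q2 δ y, V Q1 Q2 δ y j r = (((Hs Q1 Q2 δ y).card.choose (j + 1) : ℕ) : ℝ) := by
  classical
  have h1 := hockey (fun r : Σ _ : ℕ, ℕ => r.1) j (Hs Q1 Q2 δ y) (same_den h y)
  rw [← h1]
  exact Finset.sum_congr rfl fun r _ => V_eq h y j r

theorem geo_up {Q1 Q2 : ℕ} {δ : ℕ → ℝ} {t L : ℝ} (h : Hyp Q1 Q2 δ t L) (y : ℝ) (r r' : Σ _ : ℕ, ℕ)
    (hr : r ∈ fr Q1 Q2) (hr' : r' ∈ fr Q1 Q2) (hlt : r.1 < r'.1) (h1 : dn (y - val r) ≤ δ r.1 / (r.1 : ℝ) ^ 2)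
    (h2 : dn (y - val r') ≤ δ r'.1 / (r'.1 : ℝ) ^ 2) :
    r' ∈ nearS Q1 Q2 (fun n => (1 + 4 * t ^ 4) * δ n) r := by
  unfold nearS
  rw [mem_filter]
  refine ⟨hr', hlt, ?_⟩
  have hrr := mem_fr.1 hr
  have hrr' := mem_fr.1 hr'
  have ht0 := h.t0
  have ht1 := h.t1
  have hδ0 := h.nonneg r.1 hrr.1.1 hrr.1.2
  have hδ1 := h.small r.1 hrr.1.1 hrr.1.2
  have hδ2 := h.anti r.1 r'.1 hrr.1.1 hlt.le hrr'.1.2
  have hδ3 := h.nonneg r'.1 hrr'.1.1 hrr'.1.2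
  have hq0 : (0 : ℝ) < r.1 := by exact_mod_cast (by omega : 0 < r.1)
  have hq0' : (0 : ℝ) < r'.1 := by exact_mod_cast (by omega : 0 < r'.1)
  have hqq : (r.1 : ℝ) ≤ r'.1 := by exact_mod_cast hlt.le
  have h3 : dn (val r' - val r) ≤ δ r.1 / (r.1 : ℝ) ^ 2 + δ r'.1 / (r'.1 : ℝ) ^ 2 := by
    have h8 : val r' - val r = (y - val r) - (y - val r') := by ring
    rw [h8]
    exact (dn_sub_le _ _).trans (add_le_add h1 h2)
  have h4 : 1 / ((r.1 : ℝ) * r'.1) ≤ dn (val r' - val r) :=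
    apart (by omega) (by omega) hrr'.2.2 hlt
  have h5 : δ r'.1 / (r'.1 : ℝ) ^ 2 ≤ δ r.1 * (1 / (r'.1 : ℝ)) ^ 2 := by
    rw [div_eq_mul_one_div, one_div_pow]
    exact mul_le_mul_of_nonneg_right hδ2 (by positivity)
  have h6 : 1 / (r'.1 : ℝ) ≤ 2 * t ^ 2 * (1 / (r.1 : ℝ)) := by
    have h7 : δ r'.1 / (r'.1 : ℝ) ^ 2 ≤ δ r.1 / (r.1 : ℝ) ^ 2 :=
      div_le_div₀ hδ0 hδ2 (by positivity) (pow_le_pow_left₀ hq0.le hqq 2)
    have h8 : 1 / ((r.1 : ℝ) * r'.1) ≤ 2 * (δ r.1 / (r.1 : ℝ) ^ 2) := by linarith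
    have h9 : 1 / (r'.1 : ℝ) = 1 / ((r.1 : ℝ) * r'.1) * r.1 := by field_simp
    rw [h9]
    calc 1 / ((r.1 : ℝ) * r'.1) * r.1 ≤ 2 * (δ r.1 / (r.1 : ℝ) ^ 2) * r.1 := mul_le_mul_of_nonneg_right h8 hq0.le
      _ = 2 * δ r.1 * (1 / (r.1 : ℝ)) := by field_simp
      _ ≤ 2 * t ^ 2 * (1 / (r.1 : ℝ)) := by
        apply mul_le_mul_of_nonneg_right _ (by positivity)
        linarith
  have h7 : (1 / (r'.1 : ℝ)) ^ 2 ≤ 4 * t ^ 4 * (1 / (r.1 : ℝ)) ^ 2 := by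
    calc (1 / (r'.1 : ℝ)) ^ 2 ≤ (2 * t ^ 2 * (1 / (r.1 : ℝ))) ^ 2 := pow_le_pow_left₀ (by positivity) h6 2
      _ = _ := by ring
  have h8 : δ r.1 * (1 / (r'.1 : ℝ)) ^ 2 ≤ δ r.1 * (4 * t ^ 4 * (1 / (r.1 : ℝ)) ^ 2) :=
    mul_le_mul_of_nonneg_left h7 hδ0
  refine h3.trans ?_
  have h9 : (1 + 4 * t ^ 4) * δ r.1 / (r.1 : ℝ) ^ 2 = δ r.1 / (r.1 : ℝ) ^ 2 + δ r.1 * (4 * t ^ 4 * (1 / (r.1 : ℝ)) ^ 2) := by
    field_simp
  rw [h9]
  linarith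

theorem geo_lo {Q1 Q2 : ℕ} {δ : ℕ → ℝ} {t L : ℝ} (h : Hyp Q1 Q2 δ t L) (y : ℝ) (r r' : Σ _ : ℕ, ℕ)
    (hr : r ∈ fr Q1 Q2) (hr' : r' ∈ nearS Q1 Q2 (fun n => (1 - t ^ 4) * δ n) r)
    (h2 : dn (y - val r') ≤ δ r'.1 / (r'.1 : ℝ) ^ 2) : dn (y - val r) ≤ δ r.1 / (r.1 : ℝ) ^ 2 := by
  unfold nearS at hr'
  rw [mem_filter] at hr'
  obtain ⟨hr', hlt, h1⟩ := hr'
  have hrr := mem_fr.1 hr
  have hrr' := mem_fr.1 hr'
  have ht0 := h.t0
  have ht1 := h.t1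
  have hδ0 := h.nonneg r.1 hrr.1.1 hrr.1.2
  have hδ1 := h.small r.1 hrr.1.1 hrr.1.2
  have hδ2 := h.anti r.1 r'.1 hrr.1.1 hlt.le hrr'.1.2
  have hq0 : (0 : ℝ) < r.1 := by exact_mod_cast (by omega : 0 < r.1)
  have hq0' : (0 : ℝ) < r'.1 := by exact_mod_cast (by omega : 0 < r'.1)
  have ht4 : 0 ≤ t ^ 4 := by positivity
  have h3 : dn (y - val r) ≤ δ r'.1 / (r'.1 : ℝ) ^ 2 + (1 - t ^ 4) * δ r.1 / (r.1 : ℝ) ^ 2 := by
    have h8 : y - val r = (y - val r') + (val r' - val r) := by ring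
    rw [h8]
    exact (dn_add_le _ _).trans (add_le_add h2 h1)
  have h4 : 1 / ((r.1 : ℝ) * r'.1) ≤ dn (val r' - val r) :=
    apart (by omega) (by omega) hrr'.2.2 hlt
  have h6 : 1 / (r'.1 : ℝ) ≤ t ^ 2 * (1 / (r.1 : ℝ)) := by
    have h7 : (1 - t ^ 4) * δ r.1 / (r.1 : ℝ) ^ 2 ≤ t ^ 2 / (r.1 : ℝ) ^ 2 := by
      apply div_le_div_of_nonneg_right _ (by positivity)
      nlinarith
    have h8 : 1 / ((r.1 : ℝ) * r'.1) ≤ t ^ 2 / (r.1 : ℝ) ^ 2 := h4.trans (h1.trans h7)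
    have h9 : 1 / (r'.1 : ℝ) = 1 / ((r.1 : ℝ) * r'.1) * r.1 := by field_simp
    rw [h9]
    calc 1 / ((r.1 : ℝ) * r'.1) * r.1 ≤ t ^ 2 / (r.1 : ℝ) ^ 2 * r.1 := mul_le_mul_of_nonneg_right h8 hq0.le
      _ = t ^ 2 * (1 / (r.1 : ℝ)) := by field_simp
  have h7 : (1 / (r'.1 : ℝ)) ^ 2 ≤ t ^ 4 * (1 / (r.1 : ℝ)) ^ 2 := by
    calc (1 / (r'.1 : ℝ)) ^ 2 ≤ (t ^ 2 * (1 / (r.1 : ℝ))) ^ 2 := pow_le_pow_left₀ (by positivity) h6 2
      _ = _ := by ring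
  have h5 : δ r'.1 / (r'.1 : ℝ) ^ 2 ≤ δ r.1 * (1 / (r'.1 : ℝ)) ^ 2 := by
    rw [div_eq_mul_one_div, one_div_pow]
    exact mul_le_mul_of_nonneg_right hδ2 (by positivity)
  have h8 : δ r.1 * (1 / (r'.1 : ℝ)) ^ 2 ≤ δ r.1 * (t ^ 4 * (1 / (r.1 : ℝ)) ^ 2) :=
    mul_le_mul_of_nonneg_left h7 hδ0
  refine h3.trans ?_
  have h9 : δ r.1 / (r.1 : ℝ) ^ 2 = δ r.1 * (t ^ 4 * (1 / (r.1 : ℝ)) ^ 2) + (1 - t ^ 4) * δ r.1 / (r.1 : ℝ) ^ 2 := by
    field_simp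
    ring
  linarith

/-! ## the moments of a family -/

section family

variable {ι : Type} (S : Finset ι) (x : ι → ℝ) (Q1 Q2 : ℕ) (δ : ℕ → ℝ)

/-- the number of members close to `r` -/
noncomputable def Cn (r : Σ _ : ℕ, ℕ) : ℝ := ((S.filter fun i => dn (x i - val r) ≤ δ r.1 / (r.1 : ℝ) ^ 2).card : ℝ)

/-- the sum of the numbers of chains -/
noncomputable def Wn (j : ℕ) (r : Σ _ : ℕ, ℕ) : ℝ :=
  ∑ i ∈ S.filter fun i => dn (x i - val r) ≤ δ r.1 / (r.1 : ℝ) ^ 2, V Q1 Q2 δ (x i) j r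

theorem Wn_zero (r : Σ _ : ℕ, ℕ) : Wn S x Q1 Q2 δ 0 r = Cn S x δ r := by
  unfold Wn Cn
  simp [V]

theorem Wn_succ (j : ℕ) (r : Σ _ : ℕ, ℕ) : Wn S x Q1 Q2 δ (j + 1) r =
    ∑ r' ∈ (fr Q1 Q2).filter (fun r' => r.1 < r'.1),
      ∑ i ∈ (S.filter fun i => dn (x i - val r') ≤ δ r'.1 / (r'.1 : ℝ) ^ 2).filter
        (fun i => dn (x i - val r) ≤ δ r.1 / (r.1 : ℝ) ^ 2), V Q1 Q2 δ (x i) j r' := by
  classical
  unfold Wn
  have h1 : ∀ i, V Q1 Q2 δ (x i) (j + 1) r = ∑ r' ∈ (fr Q1 Q2).filter (fun r' => r.1 < r'.1),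
      if dn (x i - val r') ≤ δ r'.1 / (r'.1 : ℝ) ^ 2 then V Q1 Q2 δ (x i) j r' else 0 := by
    intro i
    rw [V_succ, ← Finset.sum_filter]
    apply Finset.sum_congr _ fun _ _ => rfl
    unfold Hs
    ext r'
    simp only [mem_filter]
    tauto
  rw [Finset.sum_congr rfl fun i _ => h1 i, Finset.sum_comm]
  refine Finset.sum_congr rfl fun r' _ => ?_
  rw [← Finset.sum_filter]
  apply Finset.sum_congr _ fun _ _ => rfl
  ext i
  simp only [mem_filter]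
  tauto

theorem Wn_nonneg (j : ℕ) (r : Σ _ : ℕ, ℕ) : 0 ≤ Wn S x Q1 Q2 δ j r :=
  Finset.sum_nonneg fun _ _ => V_nonneg _ _ _ _ _ _

theorem Wn_up {t L : ℝ} (h : Hyp Q1 Q2 δ t L) (j : ℕ) : ∀ r ∈ fr Q1 Q2,
    Wn S x Q1 Q2 δ j r ≤ U Q1 Q2 (fun n => (1 + 4 * t ^ 4) * δ n) (Cn S x δ) j r := by
  classical
  induction j with
  | zero => intro r _; rw [Wn_zero, U_zero]
  | succ n ih =>
    intro r hr
    rw [Wn_succ, U_succ]
    have h1 : ∑ r' ∈ (fr Q1 Q2).filter (fun r' => r.1 < r'.1),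
      ∑ i ∈ (S.filter fun i => dn (x i - val r') ≤ δ r'.1 / (r'.1 : ℝ) ^ 2).filter
        (fun i => dn (x i - val r) ≤ δ r.1 / (r.1 : ℝ) ^ 2), V Q1 Q2 δ (x i) n r' =
      ∑ r' ∈ nearS Q1 Q2 (fun n => (1 + 4 * t ^ 4) * δ n) r,
      ∑ i ∈ (S.filter fun i => dn (x i - val r') ≤ δ r'.1 / (r'.1 : ℝ) ^ 2).filter
        (fun i => dn (x i - val r) ≤ δ r.1 / (r.1 : ℝ) ^ 2), V Q1 Q2 δ (x i) n r' := by
      symm
      apply Finset.sum_subset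
      · intro r' hr'
        unfold nearS at hr'
        rw [mem_filter] at hr' ⊢
        exact ⟨hr'.1, hr'.2.1⟩
      · intro r' hr' hn
        rw [mem_filter] at hr'
        apply Finset.sum_eq_zero
        intro i hi
        rw [mem_filter, mem_filter] at hi
        exact absurd (geo_up h (x i) r r' hr hr'.1 hr'.2 hi.2 hi.1.2) hn
    rw [h1]
    refine Finset.sum_le_sum fun r' hr' => ?_
    refine le_trans ?_ (ih r' (nearS_sub _ _ _ _ hr'))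
    unfold Wn
    exact Finset.sum_le_sum_of_subset_of_nonneg (Finset.filter_subset _ _) fun _ _ _ => V_nonneg _ _ _ _ _ _

theorem Wn_lo {t L : ℝ} (h : Hyp Q1 Q2 δ t L) (j : ℕ) : ∀ r ∈ fr Q1 Q2,
    U Q1 Q2 (fun n => (1 - t ^ 4) * δ n) (Cn S x δ) j r ≤ Wn S x Q1 Q2 δ j r := by
  classical
  induction j with
  | zero => intro r _; rw [Wn_zero, U_zero]
  | succ n ih =>
    intro r hr
    rw [Wn_succ, U_succ]
    have h1 : ∑ r' ∈ nearS Q1 Q2 (fun n => (1 - t ^ 4) * δ n) r,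
      ∑ i ∈ (S.filter fun i => dn (x i - val r') ≤ δ r'.1 / (r'.1 : ℝ) ^ 2).filter
        (fun i => dn (x i - val r) ≤ δ r.1 / (r.1 : ℝ) ^ 2), V Q1 Q2 δ (x i) n r' ≤
      ∑ r' ∈ (fr Q1 Q2).filter (fun r' => r.1 < r'.1),
      ∑ i ∈ (S.filter fun i => dn (x i - val r') ≤ δ r'.1 / (r'.1 : ℝ) ^ 2).filter
        (fun i => dn (x i - val r) ≤ δ r.1 / (r.1 : ℝ) ^ 2), V Q1 Q2 δ (x i) n r' := by
      apply Finset.sum_le_sum_of_subset_of_nonneg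
      · intro r' hr'
        unfold nearS at hr'
        rw [mem_filter] at hr' ⊢
        exact ⟨hr'.1, hr'.2.1⟩
      · intro r' _ _
        exact Finset.sum_nonneg fun _ _ => V_nonneg _ _ _ _ _ _
    refine le_trans ?_ h1
    refine Finset.sum_le_sum fun r' hr' => ?_
    refine (ih r' (nearS_sub _ _ _ _ hr')).trans ?_
    unfold Wn
    apply le_of_eq
    symm
    apply Finset.sum_congr _ fun _ _ => rfl
    rw [Finset.filter_eq_self]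
    intro i hi
    rw [mem_filter] at hi
    exact geo_lo h (x i) r r' hr hr' hi.2

theorem sum_choose {t L : ℝ} (h : Hyp Q1 Q2 δ t L) (j : ℕ) :
    ∑ i ∈ S, (((Hs Q1 Q2 δ (x i)).card.choose (j + 1) : ℕ) : ℝ) = ∑ r ∈ fr Q1 Q2, Wn S x Q1 Q2 δ j r := by
  classical
  rw [Finset.sum_congr rfl fun i _ => (sum_V_eq h (x i) j).symm]
  unfold Wn Hs
  simp only [Finset.sum_filter]
  rw [Finset.sum_comm]

end family

/-- the factorial moments of a family whose members are equidistributed at the scale in question -/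
theorem moments (j : ℕ) (L : ℝ) (hL : 0 ≤ L) : ∃ K : ℝ, 0 ≤ K ∧ ∀ (ι : Type) (S : Finset ι) (x : ι → ℝ) (Q1 Q2 : ℕ) (δ : ℕ → ℝ) (t : ℝ),
    Hyp Q1 Q2 δ t L → 0 < S.card → ∀ E : ℝ, 0 ≤ E →
    (∀ r ∈ fr Q1 Q2, |Cn S x δ r - S.card * (2 * δ r.1 / (r.1 : ℝ) ^ 2)| ≤ E) →
    |(∑ i ∈ S, (((Hs Q1 Q2 δ (x i)).card.choose (j + 1) : ℕ) : ℝ)) / S.card -
      Mn Q2 δ Q1 ^ (j + 1) / (j + 1).factorial| ≤
      K * t + E / S.card * ((Q2 : ℝ) ^ 2 * (139 * (1 + Real.log Q2)) ^ (j + 1)) := by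
  obtain ⟨K, hK0, hK⟩ := T_main j L hL
  refine ⟨K, hK0, ?_⟩
  intro ι S x Q1 Q2 δ t h hS E hE hC
  have hS0 : (0 : ℝ) < S.card := by exact_mod_cast hS
  have ht0 := h.t0
  have ht1 := h.t1
  have ht4 : t ^ 4 ≤ t ^ 2 * (1 / 4) := by
    have h1 : t ^ 4 = t ^ 2 * t ^ 2 := by ring
    rw [h1]
    apply mul_le_mul_of_nonneg_left _ (by positivity)
    nlinarith
  have ht40 : 0 ≤ t ^ 4 := by positivity
  have hup : |(1 + 4 * t ^ 4) - 1| ≤ t ^ 2 := by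
    rw [abs_le]; constructor <;> nlinarith [sq_nonneg t]
  have hlo : |(1 - t ^ 4) - 1| ≤ t ^ 2 := by
    rw [abs_le]; constructor <;> nlinarith [sq_nonneg t]
  have key : ∀ lam : ℝ, |lam - 1| ≤ t ^ 2 →
      |∑ r ∈ fr Q1 Q2, U Q1 Q2 (fun n => lam * δ n) (Cn S x δ) j r -
        S.card * (Mn Q2 δ Q1 ^ (j + 1) / (j + 1).factorial)| ≤
        S.card * (K * t) + E * ((Q2 : ℝ) ^ 2 * (139 * (1 + Real.log Q2)) ^ (j + 1)) := by
    intro lam hlam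
    have h1 := hK Q1 Q2 δ t lam h hlam
    have h2 := num_chains h hlam j
    set A := ∑ r ∈ fr Q1 Q2, U Q1 Q2 (fun n => lam * δ n) (Cn S x δ) j r with hA
    set B := ∑ r ∈ fr Q1 Q2, U Q1 Q2 (fun n => lam * δ n) (fun r => 2 * δ r.1 / (r.1 : ℝ) ^ 2) j r with hB
    set C := ∑ r ∈ fr Q1 Q2, U Q1 Q2 (fun n => lam * δ n) (fun _ => 1) j r with hC'
    have h3 : A ≤ S.card * B + E * C := by
      rw [hA, hB, hC', Finset.mul_sum, Finset.mul_sum, ← Finset.sum_add_distrib]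
      refine Finset.sum_le_sum fun r hr => ?_
      rw [← U_add]
      apply U_mono _ _ _ _ _ _ j r hr
      intro r hr
      have := (abs_le.1 (hC r hr)).2
      linarith
    have h4 : S.card * B + (-E) * C ≤ A := by
      rw [hA, hB, hC', Finset.mul_sum, Finset.mul_sum, ← Finset.sum_add_distrib]
      refine Finset.sum_le_sum fun r hr => ?_
      rw [← U_add]
      apply U_mono _ _ _ _ _ _ j r hr
      intro r hr
      have := (abs_le.1 (hC r hr)).1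
      linarith
    have h5 := abs_le.1 h1
    have h6 : E * C ≤ E * ((Q2 : ℝ) ^ 2 * (139 * (1 + Real.log Q2)) ^ (j + 1)) :=
      mul_le_mul_of_nonneg_left h2 hE
    have h7 : (S.card : ℝ) * (B - Mn Q2 δ Q1 ^ (j + 1) / (j + 1).factorial) ≤ S.card * (K * t) :=
      mul_le_mul_of_nonneg_left h5.2 hS0.le
    have h8 : (S.card : ℝ) * (-(K * t)) ≤ S.card * (B - Mn Q2 δ Q1 ^ (j + 1) / (j + 1).factorial) :=
      mul_le_mul_of_nonneg_left h5.1 hS0.le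
    rw [abs_le]
    constructor <;> nlinarith
  have h1 := key _ hup
  have h2 := key _ hlo
  rw [sum_choose S x Q1 Q2 δ h j]
  set W := ∑ r ∈ fr Q1 Q2, Wn S x Q1 Q2 δ j r with hW
  have h3 : W ≤ ∑ r ∈ fr Q1 Q2, U Q1 Q2 (fun n => (1 + 4 * t ^ 4) * δ n) (Cn S x δ) j r :=
    Finset.sum_le_sum fun r hr => Wn_up S x Q1 Q2 δ h j r hr
  have h4 : ∑ r ∈ fr Q1 Q2, U Q1 Q2 (fun n => (1 - t ^ 4) * δ n) (Cn S x δ) j r ≤ W :=
    Finset.sum_le_sum fun r hr => Wn_lo S x Q1 Q2 δ h j r hr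
  have h5 := (abs_le.1 h1).2
  have h6 := (abs_le.1 h2).1
  have h7 : |W - S.card * (Mn Q2 δ Q1 ^ (j + 1) / (j + 1).factorial)| ≤
      S.card * (K * t) + E * ((Q2 : ℝ) ^ 2 * (139 * (1 + Real.log Q2)) ^ (j + 1)) := by
    rw [abs_le]
    constructor <;> linarith
  have h8 : W / S.card - Mn Q2 δ Q1 ^ (j + 1) / (j + 1).factorial =
      (W - S.card * (Mn Q2 δ Q1 ^ (j + 1) / (j + 1).factorial)) / S.card := by
    field_simp
  rw [h8, abs_div, abs_of_pos hS0, div_le_iff₀ hS0]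
  refine h7.trans (le_of_eq ?_)
  field_simp

end Pool.Agent.D0H53.PL
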