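import Pool.Agent.D0H53.PL.Fam
import Pool.Agent.D0H53.PL.Mom
import Pool.Agent.D0H53.PL.Bon

set_option autoImplicit false

/-!
# The Poisson law for the family
-/

open Finset hiding box
open Filter Topology

namespace Pool.Agent.D0H53.PL

open Pool.Agent.N965.LN (dn box num Cnt)
open Pool.Agent.H469R2.NK (e norm_e e_add)

theorem log2_le (N : ℕ) (hN : 1 ≤ N) (θ : ℝ) (hθ : 0 < θ) :
    (Nat.log 2 N : ℝ) + 1 ≤ (1 + 2 / θ) * (N : ℝ) ^ θ := by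
  have hN0 : (1 : ℝ) ≤ N := by exact_mod_cast hN
  have h1 : (2 : ℝ) ^ (Nat.log 2 N) ≤ N := by exact_mod_cast Nat.pow_log_le_self 2 (by omega)
  have h2 : (Nat.log 2 N : ℝ) * Real.log 2 ≤ Real.log N := by
    rw [← Real.log_pow]
    exact Real.log_le_log (by positivity) h1
  have h3 : (1 : ℝ) / 2 ≤ Real.log 2 := by have := Real.log_two_gt_d9; linarith
  have h4 : Real.log N ≤ (N : ℝ) ^ θ / θ := Real.log_le_rpow_div (by linarith) hθ
  have h5 : (1 : ℝ) ≤ (N : ℝ) ^ θ := Real.one_le_rpow hN0 hθ.le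
  have h6 : (0 : ℝ) ≤ Nat.log 2 N := Nat.cast_nonneg _
  have h7 : (Nat.log 2 N : ℝ) ≤ 2 * Real.log N := by nlinarith
  calc (Nat.log 2 N : ℝ) + 1 ≤ 2 * ((N : ℝ) ^ θ / θ) + (N : ℝ) ^ θ := by linarith
    _ = _ := by ring

theorem log_le (N : ℕ) (hN : 1 ≤ N) (θ : ℝ) (hθ : 0 < θ) :
    1 + Real.log N ≤ (1 + 1 / θ) * (N : ℝ) ^ θ := by
  have hN0 : (1 : ℝ) ≤ N := by exact_mod_cast hN
  have h4 : Real.log N ≤ (N : ℝ) ^ θ / θ := Real.log_le_rpow_div (by linarith) hθ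
  have h5 : (1 : ℝ) ≤ (N : ℝ) ^ θ := Real.one_le_rpow hN0 hθ.le
  calc 1 + Real.log N ≤ (N : ℝ) ^ θ + (N : ℝ) ^ θ / θ := by linarith
    _ = _ := by ring

/-- the discrepancy of the family -/
theorem disc {m : ℕ} (hm : 1 ≤ m) (ξ : Fin m → ℝ) (hcnt : Cnt ξ) (τ : ℝ) (hτ : 0 < τ) : ∃ C : ℝ, 0 < C ∧
    ∀ b H : ℕ, 1 ≤ b → ∀ β ε : ℝ, 0 ≤ ε → ε < 1 / 2 →
      |(((co m b H).filter fun x => dn (β + num ξ b x.1 x.2) ≤ ε).card : ℝ) - (co m b H).card * (2 * ε)| ≤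
        C * ((b * (2 * H + 1) ^ m : ℕ) : ℝ) ^ τ := by
  obtain ⟨C1, hC1, hsum⟩ := sum_K1 ξ hcnt (τ / 2) (by positivity)
  set θ : ℝ := τ / (2 * (m + 1)) with hθ
  have hθ0 : 0 < θ := by positivity
  refine ⟨2 * (C1 * (1 + 2 / θ) ^ m * (2 * (1 + 1 / θ))) + 4, by positivity, ?_⟩
  intro b H hb β ε h0 h1
  obtain ⟨N, hN⟩ : ∃ N : ℕ, N = b * (2 * H + 1) ^ m := ⟨_, rfl⟩
  have hMpow : 1 ≤ (2 * H + 1) ^ m := Nat.one_le_pow _ _ (by omega)
  have hN1 : 1 ≤ N := by rw [hN]; exact Nat.mul_pos hb hMpow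
  have hN0 : (1 : ℝ) ≤ N := by exact_mod_cast hN1
  have hMN : 2 * H + 1 ≤ N := by
    calc 2 * H + 1 ≤ (2 * H + 1) ^ m := Nat.le_self_pow (by omega) _
      _ ≤ b * (2 * H + 1) ^ m := Nat.le_mul_of_pos_left _ hb
      _ = N := hN.symm
  have hMN' : ((2 * H + 1 : ℕ) : ℝ) ≤ N := by exact_mod_cast hMN
  have h2 := count_close (co m b H) (fun x => β + num ξ b x.1 x.2) ε h0 h1
  refine h2.trans ?_
  rw [card_co, ← hN]
  have h3 := freq_sum ξ b H hb β (N ^ 2)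
  set A : ℝ := C1 * ((2 * H + 1 : ℕ) : ℝ) ^ (τ / 2) * ((Nat.log 2 (2 * H + 1) : ℝ) + 1) ^ m with hA
  have hA0 : 0 ≤ A := by positivity
  have h4 := part_le (fun t => ∏ i, K1 (2 * H + 1) ((t : ℝ) * ξ i)) A hA0 (N ^ 2 / b) (by
    intro s _
    have := hsum (2 * H + 1) (by omega) s
    refine this.trans (le_of_eq ?_)
    rw [hA]
    ring)
  have h5 : A ≤ C1 * (1 + 2 / θ) ^ m * (N : ℝ) ^ (τ / 2 + θ * m) := by
    have e1 : ((2 * H + 1 : ℕ) : ℝ) ^ (τ / 2) ≤ (N : ℝ) ^ (τ / 2) :=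
      Real.rpow_le_rpow (by positivity) hMN' (by positivity)
    have e2 : ((Nat.log 2 (2 * H + 1) : ℝ) + 1) ≤ (1 + 2 / θ) * (N : ℝ) ^ θ := by
      refine (log2_le (2 * H + 1) (by omega) θ hθ0).trans ?_
      apply mul_le_mul_of_nonneg_left _ (by positivity)
      exact Real.rpow_le_rpow (by positivity) hMN' hθ0.le
    have e3 : ((Nat.log 2 (2 * H + 1) : ℝ) + 1) ^ m ≤ (1 + 2 / θ) ^ m * (N : ℝ) ^ (θ * m) := by
      refine (pow_le_pow_left₀ (by positivity) e2 m).trans (le_of_eq ?_)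
      rw [mul_pow, ← Real.rpow_natCast ((N : ℝ) ^ θ) m, ← Real.rpow_mul (by linarith)]
    rw [hA, Real.rpow_add (by linarith)]
    calc C1 * ((2 * H + 1 : ℕ) : ℝ) ^ (τ / 2) * ((Nat.log 2 (2 * H + 1) : ℝ) + 1) ^ m
        ≤ C1 * (N : ℝ) ^ (τ / 2) * ((1 + 2 / θ) ^ m * (N : ℝ) ^ (θ * m)) := by
          apply mul_le_mul _ e3 (by positivity) (by positivity)
          exact mul_le_mul_of_nonneg_left e1 hC1.le
      _ = _ := by ring
  have h6 : 2 + Real.log ((N ^ 2 / b : ℕ) : ℝ) ≤ 2 * (1 + 1 / θ) * (N : ℝ) ^ θ := by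
    have e1 : Real.log ((N ^ 2 / b : ℕ) : ℝ) ≤ 2 * Real.log N := by
      have e2 : ((N ^ 2 / b : ℕ) : ℝ) ≤ (N : ℝ) ^ 2 := by exact_mod_cast Nat.div_le_self _ _
      rcases Nat.eq_zero_or_pos (N ^ 2 / b) with h7 | h7
      · rw [h7, Nat.cast_zero, Real.log_zero]
        have := Real.log_nonneg hN0
        linarith
      · have e3 : Real.log ((N ^ 2 / b : ℕ) : ℝ) ≤ Real.log ((N : ℝ) ^ 2) :=
          Real.log_le_log (by exact_mod_cast h7) e2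
        rw [Real.log_pow] at e3
        exact_mod_cast e3
    have e2 := log_le N hN1 θ hθ0
    linarith
  have h7 : (0 : ℝ) ≤ 2 * (1 + 1 / θ) * (N : ℝ) ^ θ := by positivity
  have h8 : A * (2 + Real.log ((N ^ 2 / b : ℕ) : ℝ)) ≤ C1 * (1 + 2 / θ) ^ m * (2 * (1 + 1 / θ)) * (N : ℝ) ^ τ := by
    calc A * (2 + Real.log ((N ^ 2 / b : ℕ) : ℝ)) ≤ A * (2 * (1 + 1 / θ) * (N : ℝ) ^ θ) :=
          mul_le_mul_of_nonneg_left h6 hA0
      _ ≤ (C1 * (1 + 2 / θ) ^ m * (N : ℝ) ^ (τ / 2 + θ * m)) * (2 * (1 + 1 / θ) * (N : ℝ) ^ θ) :=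
          mul_le_mul_of_nonneg_right h5 h7
      _ = C1 * (1 + 2 / θ) ^ m * (2 * (1 + 1 / θ)) * ((N : ℝ) ^ (τ / 2 + θ * m) * (N : ℝ) ^ θ) := by ring
      _ = _ := by
          rw [← Real.rpow_add (by linarith)]
          congr 2
          rw [hθ]
          field_simp
          ring
  have h9 : (1 : ℝ) ≤ (N : ℝ) ^ τ := Real.one_le_rpow hN0 hτ.le
  linarith

theorem pow_close (k : ℕ) (L a y : ℝ) (hL : 0 ≤ L) (ha : 0 ≤ a) (haL : a ≤ L) (hy : 0 ≤ y) (hyL : y ≤ L) :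
    |a ^ k / k.factorial - y ^ k / k.factorial| ≤ k * (L + 1) ^ k * |a - y| := by
  have h1 : (1 : ℝ) ≤ k.factorial := by exact_mod_cast Nat.one_le_iff_ne_zero.2 (Nat.factorial_ne_zero k)
  rw [← sub_div, abs_div, abs_of_pos (by linarith : (0 : ℝ) < k.factorial), div_le_iff₀ (by linarith)]
  have h2 := abs_pow_sub_pow_le a y k
  have h3 : max |a| |y| ≤ L + 1 := by
    rw [abs_of_nonneg ha, abs_of_nonneg hy]
    exact max_le (by linarith) (by linarith)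
  have h4 : max |a| |y| ^ (k - 1) ≤ (L + 1) ^ k := by
    refine (pow_le_pow_left₀ (le_max_of_le_left (abs_nonneg _)) h3 _).trans ?_
    exact pow_le_pow_right₀ (by linarith) (Nat.sub_le _ _)
  have h5 : 0 ≤ k * (L + 1) ^ k * |a - y| := by positivity
  calc |a ^ k - y ^ k| ≤ |a - y| * k * max |a| |y| ^ (k - 1) := h2
    _ ≤ |a - y| * k * (L + 1) ^ k := mul_le_mul_of_nonneg_left h4 (by positivity)
    _ = k * (L + 1) ^ k * |a - y| := by ring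
    _ ≤ _ := le_mul_of_one_le_right h5 h1

/-- the error term tends to zero -/
theorem err_small (C τ κ η : ℝ) (hC : 0 < C) (hκ0 : 0 ≤ κ) (hκ1 : κ ≤ 1) (hτ : 0 < τ) (hτκ : τ - 1 + 2 * κ ≤ -τ)
    (hη : 0 < η) (K : ℕ) : ∃ N₀ : ℕ, ∀ N : ℕ, N₀ ≤ N → 1 ≤ N → ∀ Q : ℕ, (Q : ℝ) ≤ (N : ℝ) ^ κ → ∀ j ≤ K,
      C * (N : ℝ) ^ τ / N * ((Q : ℝ) ^ 2 * (139 * (1 + Real.log Q)) ^ (j + 1)) ≤ η := by
  set θ : ℝ := τ / (2 * (K + 1)) with hθ
  have hθ0 : 0 < θ := by positivity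
  set B : ℝ := C * (139 * (1 + 1 / θ)) ^ (K + 1) with hB
  have hB0 : 0 ≤ B := by positivity
  have h1 : Tendsto (fun N : ℕ => B * (N : ℝ) ^ (-(τ / 2))) atTop (𝓝 0) := by
    have h2 := ((tendsto_rpow_neg_atTop (by positivity : 0 < τ / 2)).comp tendsto_natCast_atTop_atTop).const_mul B
    simpa using h2
  obtain ⟨N₀, hN₀⟩ := Filter.eventually_atTop.1 (h1.eventually (gt_mem_nhds hη))
  refine ⟨N₀, fun N hN hN1 Q hQ j hj => ?_⟩
  have hN0 : (1 : ℝ) ≤ N := by exact_mod_cast hN1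
  have hNp : (0 : ℝ) < N := by linarith
  have hQN : (Q : ℝ) ≤ N := by
    refine hQ.trans ?_
    calc (N : ℝ) ^ κ ≤ (N : ℝ) ^ (1 : ℝ) := Real.rpow_le_rpow_of_exponent_le hN0 hκ1
      _ = N := Real.rpow_one _
  have hQ2 : (Q : ℝ) ^ 2 ≤ (N : ℝ) ^ (2 * κ) := by
    refine (pow_le_pow_left₀ (Nat.cast_nonneg _) hQ 2).trans (le_of_eq ?_)
    rw [← Real.rpow_natCast, ← Real.rpow_mul (by linarith)]
    congr 1
    push_cast
    ring
  have hlogQ : 0 ≤ Real.log Q := Real.log_natCast_nonneg Q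
  have hlog : 1 + Real.log Q ≤ (1 + 1 / θ) * (N : ℝ) ^ θ := by
    refine le_trans ?_ (log_le N hN1 θ hθ0)
    rcases Nat.eq_zero_or_pos Q with h | h
    · rw [h, Nat.cast_zero, Real.log_zero]
      have := Real.log_nonneg hN0
      linarith
    · have := Real.log_le_log (by exact_mod_cast h) hQN
      linarith
  have hpow : (139 * (1 + Real.log Q)) ^ (j + 1) ≤ (139 * (1 + 1 / θ)) ^ (K + 1) * (N : ℝ) ^ (τ / 2) := by
    have e1 : (1 : ℝ) ≤ 139 * (1 + Real.log Q) := by linarith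
    calc (139 * (1 + Real.log Q)) ^ (j + 1) ≤ (139 * (1 + Real.log Q)) ^ (K + 1) :=
          pow_le_pow_right₀ e1 (by omega)
      _ ≤ (139 * ((1 + 1 / θ) * (N : ℝ) ^ θ)) ^ (K + 1) := by
          apply pow_le_pow_left₀ (by linarith)
          linarith
      _ = (139 * (1 + 1 / θ)) ^ (K + 1) * ((N : ℝ) ^ θ) ^ (K + 1) := by rw [← mul_pow]; ring
      _ = _ := by
          rw [← Real.rpow_natCast ((N : ℝ) ^ θ) (K + 1), ← Real.rpow_mul (by linarith)]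
          congr 2
          rw [hθ]
          push_cast
          field_simp
  have h3 : C * (N : ℝ) ^ τ / N * ((Q : ℝ) ^ 2 * (139 * (1 + Real.log Q)) ^ (j + 1)) ≤
      B * (N : ℝ) ^ (-(τ / 2)) := by
    calc C * (N : ℝ) ^ τ / N * ((Q : ℝ) ^ 2 * (139 * (1 + Real.log Q)) ^ (j + 1))
        ≤ C * (N : ℝ) ^ τ / N * ((N : ℝ) ^ (2 * κ) * ((139 * (1 + 1 / θ)) ^ (K + 1) * (N : ℝ) ^ (τ / 2))) := by
          apply mul_le_mul_of_nonneg_left _ (by positivity)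
          exact mul_le_mul hQ2 hpow (by positivity) (by positivity)
      _ = B * ((N : ℝ) ^ τ * (N : ℝ) ^ (-1 : ℝ) * (N : ℝ) ^ (2 * κ) * (N : ℝ) ^ (τ / 2)) := by
          rw [Real.rpow_neg_one, hB]
          ring
      _ = B * (N : ℝ) ^ (τ + -1 + 2 * κ + τ / 2) := by
          rw [Real.rpow_add hNp, Real.rpow_add hNp, Real.rpow_add hNp]
      _ ≤ B * (N : ℝ) ^ (-(τ / 2)) := by
          apply mul_le_mul_of_nonneg_left _ hB0
          apply Real.rpow_le_rpow_of_exponent_le hN0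
          linarith
  exact h3.trans (hN₀ N hN).le

/-- **the Poisson law for the family** -/
theorem fam_main {m : ℕ} (hm : 1 ≤ m) (ξ : Fin m → ℝ) (hcnt : Cnt ξ) (κ : ℝ) (hκ : κ < 1 / 2) (L : ℝ) (hL : 0 ≤ L)
    (ε : ℝ) (hε : 0 < ε) : ∃ δ₀ : ℝ, 0 < δ₀ ∧ δ₀ ≤ 1 / 4 ∧ ∃ N₀ : ℕ, ∀ b H : ℕ, 1 ≤ b → N₀ ≤ b * (2 * H + 1) ^ m →
    ∀ (β : ℝ) (Q1 Q2 : ℕ), (Q2 : ℝ) ≤ ((b * (2 * H + 1) ^ m : ℕ) : ℝ) ^ κ → ∀ δ : ℕ → ℝ,
    (∀ p q, Q1 < p → p ≤ q → q ≤ Q2 → δ q ≤ δ p) → (∀ q, Q1 < q → q ≤ Q2 → 0 ≤ δ q) →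
    (∀ q, Q1 < q → q ≤ Q2 → δ q ≤ δ₀) → Mn Q2 δ Q1 ≤ L → ∀ y : ℝ, 0 ≤ y → y ≤ L → |Mn Q2 δ Q1 - y| ≤ δ₀ →
    ∀ A : Set ℕ, |({x ∈ (co m b H : Set (ℤ × (Fin m → ℤ))) |
      (Hs Q1 Q2 δ (β + num ξ b x.1 x.2)).card ∈ A}.ncard : ℝ) / ((b * (2 * H + 1) ^ m : ℕ) : ℝ) -
      (ProbabilityTheory.poissonMeasure y.toNNReal).real A| ≤ ε := by
  classical
  obtain ⟨η, hη, K, hK⟩ := poisson_tv L hL ε hε
  choose Kc hKc0 hKc using fun j : ℕ => moments j L hL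
  set Km : ℝ := ∑ j ∈ range K, Kc j with hKm
  have hKm0 : 0 ≤ Km := Finset.sum_nonneg fun j _ => hKc0 j
  set G : ℝ := K * (L + 1) ^ K with hG
  have hG0 : 0 ≤ G := by positivity
  set t : ℝ := min (1 / 2) (min (η / (4 * (Km + 1))) (η / (4 * (G + 1)))) with ht
  have ht0 : 0 < t := by positivity
  have ht1 : t ≤ 1 / 2 := min_le_left _ _
  have ht2 : Km * t ≤ η / 4 := by
    have e1 : t ≤ η / (4 * (Km + 1)) := (min_le_right _ _).trans (min_le_left _ _)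
    calc Km * t ≤ Km * (η / (4 * (Km + 1))) := mul_le_mul_of_nonneg_left e1 hKm0
      _ ≤ η / 4 := by
          rw [mul_div_assoc', div_le_div_iff₀ (by positivity) (by positivity)]
          nlinarith
  have ht3 : G * t ^ 2 ≤ η / 4 := by
    have e1 : t ≤ η / (4 * (G + 1)) := (min_le_right _ _).trans (min_le_right _ _)
    have e2 : t ^ 2 ≤ t := by nlinarith
    calc G * t ^ 2 ≤ G * (η / (4 * (G + 1))) := mul_le_mul_of_nonneg_left (e2.trans e1) hG0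
      _ ≤ η / 4 := by
          rw [mul_div_assoc', div_le_div_iff₀ (by positivity) (by positivity)]
          nlinarith
  set κ' : ℝ := max κ 0 with hκ'
  have hκ'0 : 0 ≤ κ' := le_max_right _ _
  have hκ'1 : κ' < 1 / 2 := max_lt hκ (by norm_num)
  set τ : ℝ := (1 - 2 * κ') / 2 with hτ
  have hτ0 : 0 < τ := by rw [hτ]; linarith
  obtain ⟨C, hC, hdisc⟩ := disc hm ξ hcnt τ hτ0
  obtain ⟨N₀, hN₀⟩ := err_small C τ κ' (η / 4) hC hκ'0 (by linarith) hτ0 (by rw [hτ]; linarith) (by positivity) K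
  refine ⟨t ^ 2, by positivity, by nlinarith, N₀, ?_⟩
  intro b H hb hN β Q1 Q2 hQ2 δ hanti hnn hsmall hmean y hy0 hyL hyM A
  obtain ⟨N, hNd⟩ : ∃ N : ℕ, N = b * (2 * H + 1) ^ m := ⟨_, rfl⟩
  rw [← hNd] at hN hQ2 ⊢
  have hN1 : 1 ≤ N := by rw [hNd]; exact Nat.mul_pos hb (Nat.one_le_pow _ _ (by omega))
  have hNR : (1 : ℝ) ≤ N := by exact_mod_cast hN1
  have hcard : (co m b H).card = N := by rw [card_co, hNd]
  have hS : 0 < (co m b H).card := by rw [hcard]; omega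
  have hyp : Hyp Q1 Q2 δ t L := ⟨hanti, hnn, hsmall, hmean, hL, ht0.le, ht1⟩
  have hQ2' : (Q2 : ℝ) ≤ (N : ℝ) ^ κ' :=
    hQ2.trans (Real.rpow_le_rpow_of_exponent_le hNR (le_max_left _ _))
  have hMn0 := Mn_nonneg hyp Q1 le_rfl
  have key : ∀ k ≤ K, |(∑ x ∈ co m b H, (((Hs Q1 Q2 δ (β + num ξ b x.1 x.2)).card.choose k : ℕ) : ℝ)) /
      (co m b H).card - y ^ k / k.factorial| ≤ η := by
    intro k hk
    rcases Nat.eq_zero_or_pos k with h0 | h0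
    · subst h0
      simp only [Nat.choose_zero_right, Nat.cast_one, Finset.sum_const, nsmul_eq_mul, mul_one, pow_zero,
        Nat.factorial_zero, div_one]
      rw [hcard, div_self (by linarith), sub_self, abs_zero]
      exact hη.le
    · obtain ⟨j, rfl⟩ : ∃ j, k = j + 1 := ⟨k - 1, by omega⟩
      have h1 := hKc j _ (co m b H) (fun x => β + num ξ b x.1 x.2) Q1 Q2 δ t hyp hS (C * (N : ℝ) ^ τ)
        (by positivity) (by
          intro r hr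
          have hr' := mem_fr.1 hr
          have hq1 : (1 : ℝ) ≤ r.1 := by exact_mod_cast (by omega : 1 ≤ r.1)
          have hδ0 := hnn r.1 hr'.1.1 hr'.1.2
          have hδ1 := hsmall r.1 hr'.1.1 hr'.1.2
          have hq2 : (1 : ℝ) ≤ (r.1 : ℝ) ^ 2 := one_le_pow₀ hq1
          have h3 : δ r.1 / (r.1 : ℝ) ^ 2 < 1 / 2 := by
            rw [div_lt_iff₀ (by linarith)]
            nlinarith
          have h2 := hdisc b H hb (β - val r) (δ r.1 / (r.1 : ℝ) ^ 2) (by positivity) h3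
          rw [← hNd] at h2
          unfold Cn
          have h4 : (co m b H).filter (fun x => dn (β + num ξ b x.1 x.2 - val r) ≤ δ r.1 / (r.1 : ℝ) ^ 2) =
              (co m b H).filter (fun x => dn (β - val r + num ξ b x.1 x.2) ≤ δ r.1 / (r.1 : ℝ) ^ 2) := by
            refine Finset.filter_congr fun x _ => ?_
            rw [show β + num ξ b x.1 x.2 - val r = β - val r + num ξ b x.1 x.2 by ring]
          rw [h4]
          have h5 : 2 * δ r.1 / (r.1 : ℝ) ^ 2 = 2 * (δ r.1 / (r.1 : ℝ) ^ 2) := by ring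
          rw [h5]
          exact h2)
      have h2 := hN₀ N hN hN1 Q2 hQ2' j (by omega)
      rw [hcard] at h1 ⊢
      have h3 : Kc j * t ≤ η / 4 := by
        refine le_trans ?_ ht2
        apply mul_le_mul_of_nonneg_right _ ht0.le
        exact Finset.single_le_sum (f := Kc) (fun j _ => hKc0 j) (mem_range.2 (by omega))
      have h4 := pow_close (j + 1) L (Mn Q2 δ Q1) y hL hMn0 hmean hy0 hyL
      have h5 : ((j + 1 : ℕ) : ℝ) * (L + 1) ^ (j + 1) * |Mn Q2 δ Q1 - y| ≤ η / 4 := by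
        refine le_trans ?_ ht3
        apply mul_le_mul _ hyM (abs_nonneg _) hG0
        rw [hG]
        apply mul_le_mul _ _ (by positivity) (by positivity)
        · exact_mod_cast hk
        · exact pow_le_pow_right₀ (by linarith) hk
      have h6 := abs_le.1 (h4.trans h5)
      have h7 := abs_le.1 h1
      rw [abs_le]
      constructor <;> linarith [h6.1, h6.2, h7.1, h7.2]
  have h1 := hK _ (co m b H) (fun x => (Hs Q1 Q2 δ (β + num ξ b x.1 x.2)).card) y hS hy0 hyL key A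
  rw [hcard] at h1
  exact h1

end Pool.Agent.D0H53.PL
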