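import Pool.Agent.D0H53.PL.Loc

set_option autoImplicit false

/-!
# Sums over chains of reduced fractions
-/

open Finset Filter Topology

namespace Pool.Agent.D0H53.PL

open Pool.Agent.N965.LN (dn)

/-- sums over chains -/
noncomputable def U (Q1 Q2 : ℕ) (ρ : ℕ → ℝ) (w : (Σ _ : ℕ, ℕ) → ℝ) : ℕ → (Σ _ : ℕ, ℕ) → ℝ
  | 0, r => w r
  | j + 1, r => ∑ r' ∈ nearS Q1 Q2 ρ r, U Q1 Q2 ρ w j r'

theorem U_zero (Q1 Q2 : ℕ) (ρ : ℕ → ℝ) (w : (Σ _ : ℕ, ℕ) → ℝ) (r : Σ _ : ℕ, ℕ) : U Q1 Q2 ρ w 0 r = w r := rfl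

theorem U_succ (Q1 Q2 : ℕ) (ρ : ℕ → ℝ) (w : (Σ _ : ℕ, ℕ) → ℝ) (j : ℕ) (r : Σ _ : ℕ, ℕ) :
    U Q1 Q2 ρ w (j + 1) r = ∑ r' ∈ nearS Q1 Q2 ρ r, U Q1 Q2 ρ w j r' := rfl

theorem nearS_sub (Q1 Q2 : ℕ) (ρ : ℕ → ℝ) (r : Σ _ : ℕ, ℕ) : nearS Q1 Q2 ρ r ⊆ fr Q1 Q2 :=
  Finset.filter_subset _ _

theorem U_mono (Q1 Q2 : ℕ) (ρ : ℕ → ℝ) (w w' : (Σ _ : ℕ, ℕ) → ℝ) (h : ∀ r ∈ fr Q1 Q2, w r ≤ w' r) (j : ℕ) :
    ∀ r ∈ fr Q1 Q2, U Q1 Q2 ρ w j r ≤ U Q1 Q2 ρ w' j r := by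
  induction j with
  | zero => intro r hr; exact h r hr
  | succ n ih =>
    intro r _
    rw [U_succ, U_succ]
    exact Finset.sum_le_sum fun r' hr' => ih r' (nearS_sub _ _ _ _ hr')

theorem U_add (Q1 Q2 : ℕ) (ρ : ℕ → ℝ) (w w' : (Σ _ : ℕ, ℕ) → ℝ) (a b : ℝ) (j : ℕ) : ∀ r,
    U Q1 Q2 ρ (fun r => a * w r + b * w' r) j r = a * U Q1 Q2 ρ w j r + b * U Q1 Q2 ρ w' j r := by
  induction j with
  | zero => intro r; rfl
  | succ n ih =>
    intro r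
    rw [U_succ, U_succ, U_succ, Finset.mul_sum, Finset.mul_sum, ← Finset.sum_add_distrib]
    exact Finset.sum_congr rfl fun r' _ => ih r'

theorem U_nonneg (Q1 Q2 : ℕ) (ρ : ℕ → ℝ) (w : (Σ _ : ℕ, ℕ) → ℝ) (h : ∀ r ∈ fr Q1 Q2, 0 ≤ w r) (j : ℕ) :
    ∀ r ∈ fr Q1 Q2, 0 ≤ U Q1 Q2 ρ w j r := by
  induction j with
  | zero => intro r hr; exact h r hr
  | succ n ih =>
    intro r _
    rw [U_succ]
    exact Finset.sum_nonneg fun r' hr' => ih r' (nearS_sub _ _ _ _ hr')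

/-- the mean of the number of fractions with denominators in `(q, Q2]` -/
noncomputable def Mn (Q2 : ℕ) (δ : ℕ → ℝ) (q : ℕ) : ℝ := 12 / Real.pi ^ 2 * ∑ n ∈ Ioc q Q2, δ n / n

/-- the hypotheses on the threshold -/
structure Hyp (Q1 Q2 : ℕ) (δ : ℕ → ℝ) (t L : ℝ) : Prop where
  anti : ∀ m n, Q1 < m → m ≤ n → n ≤ Q2 → δ n ≤ δ m
  nonneg : ∀ n, Q1 < n → n ≤ Q2 → 0 ≤ δ n
  small : ∀ n, Q1 < n → n ≤ Q2 → δ n ≤ t ^ 2
  mean : Mn Q2 δ Q1 ≤ L
  L0 : 0 ≤ L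
  t0 : 0 ≤ t
  t1 : t ≤ 1 / 2

theorem pi_le : 12 / Real.pi ^ 2 ≤ 2 := by
  rw [div_le_iff₀ (by positivity)]
  nlinarith [Real.pi_gt_three]

theorem Mn_nonneg {Q1 Q2 : ℕ} {δ : ℕ → ℝ} {t L : ℝ} (h : Hyp Q1 Q2 δ t L) (q : ℕ) (hq : Q1 ≤ q) : 0 ≤ Mn Q2 δ q := by
  unfold Mn
  apply mul_nonneg (by positivity)
  apply Finset.sum_nonneg
  intro n hn
  rw [mem_Ioc] at hn
  exact div_nonneg (h.nonneg n (by omega) hn.2) (Nat.cast_nonneg _)

theorem Mn_anti {Q1 Q2 : ℕ} {δ : ℕ → ℝ} {t L : ℝ} (h : Hyp Q1 Q2 δ t L) (q q' : ℕ) (hq : Q1 ≤ q) (hq' : q ≤ q') :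
    Mn Q2 δ q' ≤ Mn Q2 δ q := by
  unfold Mn
  apply mul_le_mul_of_nonneg_left _ (by positivity)
  apply Finset.sum_le_sum_of_subset_of_nonneg (Finset.Ioc_subset_Ioc_left hq')
  intro n hn _
  rw [mem_Ioc] at hn
  exact div_nonneg (h.nonneg n (by omega) hn.2) (Nat.cast_nonneg _)

theorem Mn_le {Q1 Q2 : ℕ} {δ : ℕ → ℝ} {t L : ℝ} (h : Hyp Q1 Q2 δ t L) (q : ℕ) (hq : Q1 ≤ q) : Mn Q2 δ q ≤ L :=
  (Mn_anti h Q1 q le_rfl hq).trans h.mean

theorem Mn_step (Q2 : ℕ) (δ : ℕ → ℝ) (n : ℕ) (hn : n + 1 ≤ Q2) :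
    Mn Q2 δ n = Mn Q2 δ (n + 1) + 12 / Real.pi ^ 2 * (δ (n + 1) / ((n + 1 : ℕ) : ℝ)) := by
  unfold Mn
  have h1 : Ioc n Q2 = insert (n + 1) (Ioc (n + 1) Q2) := by
    ext m
    rw [mem_insert, mem_Ioc, mem_Ioc]
    omega
  rw [h1, Finset.sum_insert (by simp)]
  ring

/-- discrete Taylor expansion of a power -/
theorem pow_taylor (j : ℕ) (L : ℝ) (hL : 0 ≤ L) : ∃ C : ℝ, 0 ≤ C ∧ ∀ a b : ℝ, 0 ≤ b → b ≤ a → a ≤ L →
    0 ≤ a ^ (j + 1) - b ^ (j + 1) - (j + 1) * b ^ j * (a - b) ∧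
      a ^ (j + 1) - b ^ (j + 1) - (j + 1) * b ^ j * (a - b) ≤ C * (a - b) ^ 2 := by
  induction j with
  | zero =>
    refine ⟨0, le_rfl, fun a b _ _ _ => ?_⟩
    simp
  | succ n ih =>
    obtain ⟨C, hC, h⟩ := ih
    refine ⟨(n + 1) * L ^ n + L * C, by positivity, fun a b hb hab ha => ?_⟩
    obtain ⟨h1, h2⟩ := h a b hb hab ha
    have ha0 : 0 ≤ a := hb.trans hab
    have h3 : a ^ (n + 1 + 1) - b ^ (n + 1 + 1) - ((n + 1 : ℕ) + 1) * b ^ (n + 1) * (a - b) =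
        (n + 1) * b ^ n * (a - b) ^ 2 + a * (a ^ (n + 1) - b ^ (n + 1) - (n + 1) * b ^ n * (a - b)) := by
      push_cast
      ring
    rw [h3]
    constructor
    · have : 0 ≤ (n + 1 : ℝ) * b ^ n * (a - b) ^ 2 := by positivity
      have := mul_nonneg ha0 h1
      linarith
    · have h4 : b ^ n ≤ L ^ n := pow_le_pow_left₀ hb (hab.trans ha) n
      have h5 : (n + 1 : ℝ) * b ^ n * (a - b) ^ 2 ≤ (n + 1) * L ^ n * (a - b) ^ 2 :=
        mul_le_mul_of_nonneg_right (mul_le_mul_of_nonneg_left h4 (by positivity)) (by positivity)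
      have h6 : a * (a ^ (n + 1) - b ^ (n + 1) - (n + 1) * b ^ n * (a - b)) ≤ L * (C * (a - b) ^ 2) :=
        mul_le_mul ha h2 h1 hL
      linarith

/-- the discrete integral of a power of the mean -/
theorem sum_pow (j : ℕ) (L : ℝ) (hL : 0 ≤ L) : ∃ C : ℝ, 0 ≤ C ∧ ∀ (Q1 Q2 : ℕ) (δ : ℕ → ℝ) (t : ℝ),
    Hyp Q1 Q2 δ t L → ∀ q, Q1 ≤ q → q ≤ Q2 →
    |∑ n ∈ Ioc q Q2, 12 / Real.pi ^ 2 * (δ n / n) * Mn Q2 δ n ^ j - Mn Q2 δ q ^ (j + 1) / (j + 1)| ≤ C * t := by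
  obtain ⟨C, hC, hT⟩ := pow_taylor j L hL
  refine ⟨2 * C * L, by positivity, fun Q1 Q2 δ t h q hq hqQ => ?_⟩
  have ht0 := h.t0
  have ht1 := h.t1
  -- downward induction
  have key : ∀ k, ∀ q, Q1 ≤ q → q + k = Q2 →
      0 ≤ Mn Q2 δ q ^ (j + 1) / (j + 1) - ∑ n ∈ Ioc q Q2, 12 / Real.pi ^ 2 * (δ n / n) * Mn Q2 δ n ^ j ∧
      Mn Q2 δ q ^ (j + 1) / (j + 1) - ∑ n ∈ Ioc q Q2, 12 / Real.pi ^ 2 * (δ n / n) * Mn Q2 δ n ^ j ≤
        2 * C * t ^ 2 * Mn Q2 δ q := by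
    intro k
    induction k with
    | zero =>
      intro q hq hk
      have : q = Q2 := by omega
      subst this
      have h1 : Mn q δ q = 0 := by unfold Mn; simp
      rw [h1]
      simp
    | succ n ih =>
      intro q hq hk
      obtain ⟨h1, h2⟩ := ih (q + 1) (by omega) (by omega)
      have h3 : Ioc q Q2 = insert (q + 1) (Ioc (q + 1) Q2) := by
        ext m
        rw [mem_insert, mem_Ioc, mem_Ioc]
        omega
      rw [h3, Finset.sum_insert (by simp)]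
      have h4 := Mn_step Q2 δ q (by omega)
      have hδ0 := h.nonneg (q + 1) (by omega) (by omega)
      have hδ1 := h.small (q + 1) (by omega) (by omega)
      have hq1 : (1 : ℝ) ≤ ((q + 1 : ℕ) : ℝ) := by
        push_cast
        have : (0 : ℝ) ≤ q := Nat.cast_nonneg _
        linarith
      set m : ℝ := 12 / Real.pi ^ 2 * (δ (q + 1) / ((q + 1 : ℕ) : ℝ)) with hm
      have hm0 : 0 ≤ m := by positivity
      have hm1 : m ≤ 2 * t ^ 2 := by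
        have h5 : δ (q + 1) / ((q + 1 : ℕ) : ℝ) ≤ t ^ 2 := by
          rw [div_le_iff₀ (by linarith)]
          have : 0 ≤ t ^ 2 := by positivity
          nlinarith
        exact mul_le_mul pi_le h5 (by positivity) (by norm_num)
      have hM1 := Mn_nonneg h (q + 1) (by omega)
      have hM2 := Mn_le h q hq
      obtain ⟨h5, h6⟩ := hT (Mn Q2 δ q) (Mn Q2 δ (q + 1)) hM1 (by rw [h4]; linarith) hM2
      have h7 : Mn Q2 δ q - Mn Q2 δ (q + 1) = m := by rw [h4]; ring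
      rw [h7] at h5 h6
      have hj : (0 : ℝ) < (j : ℝ) + 1 := by positivity
      have h8 : Mn Q2 δ q ^ (j + 1) / (j + 1) - (m * Mn Q2 δ (q + 1) ^ j +
          ∑ n ∈ Ioc (q + 1) Q2, 12 / Real.pi ^ 2 * (δ n / n) * Mn Q2 δ n ^ j) =
          (Mn Q2 δ q ^ (j + 1) - Mn Q2 δ (q + 1) ^ (j + 1) - (j + 1) * Mn Q2 δ (q + 1) ^ j * m) / (j + 1) +
          (Mn Q2 δ (q + 1) ^ (j + 1) / (j + 1) -
            ∑ n ∈ Ioc (q + 1) Q2, 12 / Real.pi ^ 2 * (δ n / n) * Mn Q2 δ n ^ j) := by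
        field_simp
        ring
      rw [h8]
      constructor
      · exact add_nonneg (div_nonneg h5 hj.le) h1
      · have h9 : (Mn Q2 δ q ^ (j + 1) - Mn Q2 δ (q + 1) ^ (j + 1) - (j + 1) * Mn Q2 δ (q + 1) ^ j * m) / (j + 1) ≤
            C * m ^ 2 := by
          rw [div_le_iff₀ hj]
          have h10 : (1 : ℝ) ≤ (j : ℝ) + 1 := by
            have : (0 : ℝ) ≤ j := Nat.cast_nonneg _
            linarith
          have h11 : 0 ≤ C * m ^ 2 := by positivity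
          nlinarith
        have h10 : C * m ^ 2 ≤ 2 * C * t ^ 2 * m := by
          have : m ^ 2 ≤ 2 * t ^ 2 * m := by nlinarith
          calc C * m ^ 2 ≤ C * (2 * t ^ 2 * m) := mul_le_mul_of_nonneg_left this hC
            _ = _ := by ring
        have h11 : 2 * C * t ^ 2 * Mn Q2 δ q = 2 * C * t ^ 2 * m + 2 * C * t ^ 2 * Mn Q2 δ (q + 1) := by
          rw [h4]; ring
        rw [h11]
        linarith
  obtain ⟨k, hk⟩ : ∃ k, q + k = Q2 := ⟨Q2 - q, by omega⟩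
  obtain ⟨h1, h2⟩ := key k q hq hk
  rw [abs_sub_comm, abs_of_nonneg h1]
  refine h2.trans ?_
  have h3 := Mn_le h q hq
  have h4 := Mn_nonneg h q hq
  have h5 : 2 * C * t ^ 2 * Mn Q2 δ q ≤ 2 * C * t ^ 2 * L := mul_le_mul_of_nonneg_left h3 (by positivity)
  have h6 : t ^ 2 ≤ t := by nlinarith
  have h7 : 2 * C * t ^ 2 * L ≤ 2 * C * t * L := by
    apply mul_le_mul_of_nonneg_right _ hL
    exact mul_le_mul_of_nonneg_left h6 (by positivity)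
  linarith

/-- the chain sums -/
theorem U_main (j : ℕ) (L : ℝ) (hL : 0 ≤ L) : ∃ K : ℝ, 0 ≤ K ∧ ∀ (Q1 Q2 : ℕ) (δ : ℕ → ℝ) (t lam : ℝ),
    Hyp Q1 Q2 δ t L → |lam - 1| ≤ t ^ 2 → ∀ r ∈ fr Q1 Q2,
    |U Q1 Q2 (fun n => lam * δ n) (fun r => 2 * δ r.1 / (r.1 : ℝ) ^ 2) j r -
      2 * δ r.1 / (r.1 : ℝ) ^ 2 * (Mn Q2 δ r.1 ^ j / (j.factorial : ℝ))| ≤
      K * t * (2 * δ r.1 / (r.1 : ℝ) ^ 2) := by
  induction j with
  | zero =>
    refine ⟨0, le_rfl, fun Q1 Q2 δ t lam h hlam r hr => ?_⟩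
    rw [U_zero]
    simp
  | succ n ih =>
    obtain ⟨K, hK, hU⟩ := ih
    obtain ⟨C, hC, hS⟩ := sum_pow n L hL
    set F : ℝ := (n.factorial : ℝ) with hF
    have hF1 : 1 ≤ F := by
      rw [hF]
      exact_mod_cast Nat.factorial_pos n
    refine ⟨K * (2 * L + 276) + 276 * L ^ n + 2 * C + L ^ (n + 1), by positivity,
      fun Q1 Q2 δ t lam h hlam r hr => ?_⟩
    have hr' := mem_fr.1 hr
    obtain ⟨⟨h1, h2⟩, h3, h4⟩ := hr'
    have ht0 := h.t0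
    have ht1 := h.t1
    have hq1 : 1 ≤ r.1 := by omega
    have hq0 : (0 : ℝ) < r.1 := by exact_mod_cast hq1
    have hδ0 := h.nonneg r.1 h1 h2
    have hδ1 := h.small r.1 h1 h2
    have hlam1 := abs_le.1 hlam
    have ht2 : t ^ 2 ≤ 1 / 4 := by nlinarith
    have hlam0 : 0 ≤ lam := by linarith [hlam1.1]
    have hlam2 : lam ≤ 5 / 4 := by linarith [hlam1.2]
    set ρ : ℕ → ℝ := fun n => lam * δ n with hρ
    have hρ0 : 0 ≤ ρ r.1 := mul_nonneg hlam0 hδ0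
    have hρδ : ρ r.1 ≤ 5 / 4 * δ r.1 := mul_le_mul_of_nonneg_right hlam2 hδ0
    have hρ1 : ρ r.1 < 1 / 2 := by linarith
    have hsq : Real.sqrt (ρ r.1) ≤ 2 * t := by
      rw [Real.sqrt_le_iff]
      constructor
      · positivity
      · nlinarith
    set q := r.1 with hq
    set D : ℝ := 2 * δ q / (q : ℝ) ^ 2 with hD
    have hD0 : 0 ≤ D := by positivity
    have hdec : ∀ m k, q < m → m ≤ k → k ≤ Q2 → δ k ≤ δ m := fun m k hm hmk hk => h.anti m k (by omega) hmk hk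
    -- first application: g = 2 δ
    have e1 := local_sum (Q1 := Q1) (Q2 := Q2) ρ r hr hρ0 hρ1 (fun n => 2 * δ n) (2 * δ q) (by positivity)
      (fun m k hm hmk hk => by have := hdec m k hm hmk hk; linarith)
      (fun k hk hk' => by have := h.nonneg k (by omega) hk'; positivity)
      (fun k hk hk' => by have := h.anti q k h1 hk.le hk'; linarith)
    -- second application
    have e2 := local_sum (Q1 := Q1) (Q2 := Q2) ρ r hr hρ0 hρ1 (fun k => 2 * δ k * (Mn Q2 δ k ^ n / F))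
      (2 * δ q * L ^ n) (by positivity)
      (fun m k hm hmk hk => by
        have a1 := hdec m k hm hmk hk
        have a2 := Mn_anti h m k (by omega) hmk
        have a3 := Mn_nonneg h k (by omega)
        have a4 := h.nonneg k (by omega) hk
        have a5 : Mn Q2 δ k ^ n / F ≤ Mn Q2 δ m ^ n / F :=
          div_le_div_of_nonneg_right (pow_le_pow_left₀ a3 a2 n) (by linarith)
        exact mul_le_mul (by linarith) a5 (by positivity) (by linarith))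
      (fun k hk hk' => by
        have a3 := Mn_nonneg h k (by omega)
        have a4 := h.nonneg k (by omega) hk'
        positivity)
      (fun k hk hk' => by
        have a1 := h.anti q k h1 hk.le hk'
        have a3 := Mn_nonneg h k (by omega)
        have a4 := h.nonneg k (by omega) hk'
        have a5 : Mn Q2 δ k ^ n / F ≤ L ^ n := by
          have a6 : Mn Q2 δ k ^ n ≤ L ^ n := pow_le_pow_left₀ a3 (Mn_le h k (by omega)) n
          have a7 : Mn Q2 δ k ^ n / F ≤ Mn Q2 δ k ^ n := div_le_self (by positivity) hF1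
          linarith
        exact mul_le_mul (by linarith) a5 (by positivity) (by linarith))
    -- the error of the induction hypothesis
    have e3 : |U Q1 Q2 ρ (fun r => 2 * δ r.1 / (r.1 : ℝ) ^ 2) (n + 1) r -
        ∑ r' ∈ nearS Q1 Q2 ρ r, 2 * δ r'.1 * (Mn Q2 δ r'.1 ^ n / F) / (r'.1 : ℝ) ^ 2| ≤
        K * t * ∑ r' ∈ nearS Q1 Q2 ρ r, 2 * δ r'.1 / (r'.1 : ℝ) ^ 2 := by
      rw [U_succ, ← Finset.sum_sub_distrib, Finset.mul_sum]
      refine (Finset.abs_sum_le_sum_abs _ _).trans (Finset.sum_le_sum fun r' hr' => ?_)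
      have := hU Q1 Q2 δ t lam h hlam r' (nearS_sub _ _ _ _ hr')
      have a1 : 2 * δ r'.1 * (Mn Q2 δ r'.1 ^ n / F) / (r'.1 : ℝ) ^ 2 =
          2 * δ r'.1 / (r'.1 : ℝ) ^ 2 * (Mn Q2 δ r'.1 ^ n / F) := by ring
      rw [a1]
      exact this
    -- main terms
    set S1 : ℝ := ∑ k ∈ Ioc q Q2, 2 * δ k / k with hS1
    have hS1M : 12 / Real.pi ^ 2 * S1 = 2 * Mn Q2 δ q := by
      rw [hS1]
      unfold Mn
      have : ∑ k ∈ Ioc q Q2, 2 * δ k / (k : ℝ) = 2 * ∑ k ∈ Ioc q Q2, δ k / (k : ℝ) := by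
        rw [Finset.mul_sum]
        exact Finset.sum_congr rfl fun k _ => by ring
      rw [this]
      ring
    have hMq0 := Mn_nonneg h q h1.le
    have hMqL := Mn_le h q h1.le
    have e4 : ∑ r' ∈ nearS Q1 Q2 ρ r, 2 * δ r'.1 / (r'.1 : ℝ) ^ 2 ≤ D * (2 * L + 276) := by
      have a1 := (abs_le.1 e1).2
      have a2 : 12 / Real.pi ^ 2 * (ρ q / (q : ℝ) ^ 2) * S1 ≤ D * (2 * L) := by
        have a3 : 12 / Real.pi ^ 2 * (ρ q / (q : ℝ) ^ 2) * S1 = lam * D * Mn Q2 δ q := by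
          have : 12 / Real.pi ^ 2 * (ρ q / (q : ℝ) ^ 2) * S1 = (ρ q / (q : ℝ) ^ 2) * (12 / Real.pi ^ 2 * S1) := by ring
          rw [this, hS1M, hρ, hD]
          ring
        rw [a3]
        have a4 : lam * D * Mn Q2 δ q ≤ (5 / 4) * D * L := by
          apply mul_le_mul _ hMqL hMq0 (by positivity)
          exact mul_le_mul_of_nonneg_right hlam2 hD0
        nlinarith [mul_nonneg hD0 hL]
      have a3 : 138 * (2 * δ q) * Real.sqrt (ρ q) / (q : ℝ) ^ 2 ≤ D * 276 := by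
        have a4 : 138 * (2 * δ q) * Real.sqrt (ρ q) / (q : ℝ) ^ 2 = D * (138 * Real.sqrt (ρ q)) := by
          rw [hD]; ring
        rw [a4]
        apply mul_le_mul_of_nonneg_left _ hD0
        linarith
      linarith
    have e5 : |12 / Real.pi ^ 2 * (ρ q / (q : ℝ) ^ 2) * ∑ k ∈ Ioc q Q2, 2 * δ k * (Mn Q2 δ k ^ n / F) / (k : ℝ) -
        D * (Mn Q2 δ q ^ (n + 1) / ((n + 1).factorial : ℝ))| ≤ D * ((2 * C + L ^ (n + 1)) * t) := by
      have a1 := hS Q1 Q2 δ t h q h1.le h2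
      set X : ℝ := ∑ k ∈ Ioc q Q2, 12 / Real.pi ^ 2 * (δ k / k) * Mn Q2 δ k ^ n with hX
      have a2 : 12 / Real.pi ^ 2 * (ρ q / (q : ℝ) ^ 2) * ∑ k ∈ Ioc q Q2, 2 * δ k * (Mn Q2 δ k ^ n / F) / (k : ℝ) =
          D * (lam * (X / F)) := by
        have a3 : ∑ k ∈ Ioc q Q2, 2 * δ k * (Mn Q2 δ k ^ n / F) / (k : ℝ) =
            2 / F * ∑ k ∈ Ioc q Q2, δ k / k * Mn Q2 δ k ^ n := by
          rw [Finset.mul_sum]
          exact Finset.sum_congr rfl fun k _ => by ring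
        have a4 : X = 12 / Real.pi ^ 2 * ∑ k ∈ Ioc q Q2, δ k / k * Mn Q2 δ k ^ n := by
          rw [hX, Finset.mul_sum]
          exact Finset.sum_congr rfl fun k _ => by ring
        rw [a3, a4, hρ, hD]
        ring
      have a5 : ((n + 1).factorial : ℝ) = ((n : ℝ) + 1) * F := by
        rw [Nat.factorial_succ, hF]
        push_cast
        ring
      rw [a2, a5]
      have hn1 : (0 : ℝ) < (n : ℝ) + 1 := by positivity
      have a6 : D * (lam * (X / F)) - D * (Mn Q2 δ q ^ (n + 1) / (((n : ℝ) + 1) * F)) =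
          D * (lam * ((X - Mn Q2 δ q ^ (n + 1) / (n + 1)) / F) +
            (lam - 1) * (Mn Q2 δ q ^ (n + 1) / (((n : ℝ) + 1) * F))) := by
        field_simp
        ring
      rw [a6, abs_mul, abs_of_nonneg hD0]
      apply mul_le_mul_of_nonneg_left _ hD0
      refine (abs_add_le _ _).trans ?_
      have a7 : |lam * ((X - Mn Q2 δ q ^ (n + 1) / (n + 1)) / F)| ≤ 2 * C * t := by
        rw [abs_mul, abs_of_nonneg hlam0, abs_div, abs_of_pos (by linarith : 0 < F)]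
        have a8 : |X - Mn Q2 δ q ^ (n + 1) / (n + 1)| / F ≤ C * t := (div_le_self (abs_nonneg _) hF1).trans a1
        have a9 : 0 ≤ C * t := by positivity
        calc lam * (|X - Mn Q2 δ q ^ (n + 1) / (n + 1)| / F) ≤ 2 * (C * t) :=
              mul_le_mul (by linarith) a8 (by positivity) (by norm_num)
          _ = _ := by ring
      have a8 : |(lam - 1) * (Mn Q2 δ q ^ (n + 1) / (((n : ℝ) + 1) * F))| ≤ L ^ (n + 1) * t := by
        rw [abs_mul, abs_of_nonneg (by positivity : 0 ≤ Mn Q2 δ q ^ (n + 1) / (((n : ℝ) + 1) * F))]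
        have b1 : Mn Q2 δ q ^ (n + 1) / (((n : ℝ) + 1) * F) ≤ L ^ (n + 1) := by
          have b2 : (1 : ℝ) ≤ ((n : ℝ) + 1) * F := by
            have : (0 : ℝ) ≤ n := Nat.cast_nonneg _
            nlinarith
          exact (div_le_self (by positivity) b2).trans (pow_le_pow_left₀ hMq0 hMqL _)
        have b2 : |lam - 1| ≤ t := by nlinarith
        calc |lam - 1| * (Mn Q2 δ q ^ (n + 1) / (((n : ℝ) + 1) * F)) ≤ t * L ^ (n + 1) :=
              mul_le_mul b2 b1 (by positivity) ht0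
          _ = _ := by ring
      calc _ ≤ 2 * C * t + L ^ (n + 1) * t := add_le_add a7 a8
        _ = _ := by ring
    have e6 : 138 * (2 * δ q * L ^ n) * Real.sqrt (ρ q) / (q : ℝ) ^ 2 ≤ D * (276 * L ^ n * t) := by
      have a4 : 138 * (2 * δ q * L ^ n) * Real.sqrt (ρ q) / (q : ℝ) ^ 2 = D * (138 * L ^ n * Real.sqrt (ρ q)) := by
        rw [hD]; ring
      rw [a4]
      apply mul_le_mul_of_nonneg_left _ hD0
      have : 138 * L ^ n * Real.sqrt (ρ q) ≤ 138 * L ^ n * (2 * t) := mul_le_mul_of_nonneg_left hsq (by positivity)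
      linarith
    -- combine
    have f1 := abs_sub_le (U Q1 Q2 ρ (fun r => 2 * δ r.1 / (r.1 : ℝ) ^ 2) (n + 1) r)
      (∑ r' ∈ nearS Q1 Q2 ρ r, 2 * δ r'.1 * (Mn Q2 δ r'.1 ^ n / F) / (r'.1 : ℝ) ^ 2)
      (D * (Mn Q2 δ q ^ (n + 1) / ((n + 1).factorial : ℝ)))
    have f2 := abs_sub_le (∑ r' ∈ nearS Q1 Q2 ρ r, 2 * δ r'.1 * (Mn Q2 δ r'.1 ^ n / F) / (r'.1 : ℝ) ^ 2)
      (12 / Real.pi ^ 2 * (ρ q / (q : ℝ) ^ 2) * ∑ k ∈ Ioc q Q2, 2 * δ k * (Mn Q2 δ k ^ n / F) / (k : ℝ))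
      (D * (Mn Q2 δ q ^ (n + 1) / ((n + 1).factorial : ℝ)))
    have f3 : K * t * ∑ r' ∈ nearS Q1 Q2 ρ r, 2 * δ r'.1 / (r'.1 : ℝ) ^ 2 ≤ K * t * (D * (2 * L + 276)) :=
      mul_le_mul_of_nonneg_left e4 (by positivity)
    have f4 : (K * (2 * L + 276) + 276 * L ^ n + 2 * C + L ^ (n + 1)) * t * D =
        K * t * (D * (2 * L + 276)) + D * (276 * L ^ n * t) + D * ((2 * C + L ^ (n + 1)) * t) := by ring
    rw [f4]
    linarith

/-- the sum over all chains -/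
theorem T_main (j : ℕ) (L : ℝ) (hL : 0 ≤ L) : ∃ K : ℝ, 0 ≤ K ∧ ∀ (Q1 Q2 : ℕ) (δ : ℕ → ℝ) (t lam : ℝ),
    Hyp Q1 Q2 δ t L → |lam - 1| ≤ t ^ 2 →
    |∑ r ∈ fr Q1 Q2, U Q1 Q2 (fun n => lam * δ n) (fun r => 2 * δ r.1 / (r.1 : ℝ) ^ 2) j r -
      Mn Q2 δ Q1 ^ (j + 1) / ((j + 1).factorial : ℝ)| ≤ K * t := by
  obtain ⟨K, hK, hU⟩ := U_main j L hL
  obtain ⟨C, hC, hS⟩ := sum_pow j L hL
  set F : ℝ := (j.factorial : ℝ) with hF
  have hF1 : 1 ≤ F := by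
    rw [hF]
    exact_mod_cast Nat.factorial_pos j
  refine ⟨K * (L + 150) + 150 * L ^ j + C, by positivity, fun Q1 Q2 δ t lam h hlam => ?_⟩
  have ht0 := h.t0
  have ht1 := h.t1
  rcases lt_or_ge Q2 Q1 with hlt | hle
  · have h1 : fr Q1 Q2 = ∅ := by
      unfold fr
      rw [Finset.Ioc_eq_empty (by omega)]
      simp
    have h2 : Mn Q2 δ Q1 = 0 := by
      unfold Mn
      rw [Finset.Ioc_eq_empty (by omega)]
      simp
    rw [h1, h2]
    simp only [Finset.sum_empty, zero_sub, abs_neg]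
    rw [zero_pow (by omega)]
    simp only [zero_div, abs_zero]
    positivity
  set ρ : ℕ → ℝ := fun n => lam * δ n with hρ
  have hroot : ∀ g : ℕ → ℝ, ∑ r ∈ fr Q1 Q2, g r.1 / (r.1 : ℝ) ^ 2 =
      ∑ n ∈ Icc (Q1 + 1) Q2, (Nat.totient n : ℝ) * (g n / (n : ℝ) ^ 2) := by
    intro g
    unfold fr
    rw [Finset.sum_sigma]
    have h1 : Icc (Q1 + 1) Q2 = Ioc Q1 Q2 := by
      ext m
      rw [mem_Icc, mem_Ioc]
      omega
    rw [h1]
    refine Finset.sum_congr rfl fun n _ => ?_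
    change ∑ _s ∈ (range n).filter (fun p => Nat.Coprime p n), g n / (n : ℝ) ^ 2 = _
    rw [Finset.sum_const, nsmul_eq_mul]
    congr 2
    rw [Nat.totient_eq_card_coprime]
    congr 1
    ext p
    rw [mem_filter, mem_filter, Nat.coprime_comm]
  have hIcc : Icc (Q1 + 1) Q2 = Ioc Q1 Q2 := by
    ext m
    rw [mem_Icc, mem_Ioc]
    omega
  have hpi : 3 / Real.pi ^ 2 ≤ 1 / 2 := by
    have := pi_le
    have h2 : 3 / Real.pi ^ 2 = 12 / Real.pi ^ 2 / 4 := by ring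
    rw [h2]
    linarith
  have hsq1 : 1 ≤ Real.sqrt ((Q1 + 1 : ℕ) : ℝ) := by
    rw [Real.one_le_sqrt]
    push_cast
    have : (0 : ℝ) ≤ Q1 := Nat.cast_nonneg _
    linarith
  -- the root estimate
  have hps : ∀ (g : ℕ → ℝ) (G : ℝ), 0 ≤ G → (∀ m n, Q1 < m → m ≤ n → n ≤ Q2 → g n ≤ g m) →
      (∀ n, Q1 < n → n ≤ Q2 → 0 ≤ g n) → (∀ n, Q1 < n → n ≤ Q2 → g n ≤ G) →
      |∑ r ∈ fr Q1 Q2, g r.1 / (r.1 : ℝ) ^ 2 - 6 / Real.pi ^ 2 * ∑ n ∈ Ioc Q1 Q2, g n / n| ≤ 61 * G := by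
    intro g G hG a1 a2 a3
    have h1 := psum (fun n => (Nat.totient n : ℝ)) g (3 / Real.pi ^ 2) 10 G (Q1 + 1) Q2 (by omega)
      (by norm_num) (by positivity) hG totient_sum (fun m n hm hmn hn => a1 m n (by omega) hmn hn)
      (fun n hn hn' => a2 n (by omega) hn') (fun n hn hn' => a3 n (by omega) hn')
    rw [hroot]
    rw [hIcc] at h1 ⊢
    have h2 : 2 * (3 / Real.pi ^ 2) = 6 / Real.pi ^ 2 := by ring
    rw [h2] at h1
    refine h1.trans ?_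
    have h3 : 6 * 10 * G / Real.sqrt ((Q1 + 1 : ℕ) : ℝ) ≤ 60 * G := by
      have : 6 * 10 * G / Real.sqrt ((Q1 + 1 : ℕ) : ℝ) ≤ 6 * 10 * G := div_le_self (by positivity) hsq1
      linarith
    have h4 : 6 / Real.pi ^ 2 * G ≤ 1 * G := by
      apply mul_le_mul_of_nonneg_right _ hG
      have : 6 / Real.pi ^ 2 = 2 * (3 / Real.pi ^ 2) := by ring
      rw [this]
      linarith
    linarith
  have e1 := hps (fun n => 2 * δ n) (2 * t ^ 2) (by positivity)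
    (fun m k hm hmk hk => by have := h.anti m k hm hmk hk; linarith)
    (fun k hk hk' => by have := h.nonneg k hk hk'; positivity)
    (fun k hk hk' => by have := h.small k hk hk'; linarith)
  have e2 := hps (fun k => 2 * δ k * (Mn Q2 δ k ^ j / F)) (2 * t ^ 2 * L ^ j) (by positivity)
    (fun m k hm hmk hk => by
      have a1 := h.anti m k hm hmk hk
      have a2 := Mn_anti h m k (by omega) hmk
      have a3 := Mn_nonneg h k (by omega)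
      have a4 := h.nonneg k (by omega) hk
      have a5 : Mn Q2 δ k ^ j / F ≤ Mn Q2 δ m ^ j / F :=
        div_le_div_of_nonneg_right (pow_le_pow_left₀ a3 a2 j) (by linarith)
      exact mul_le_mul (by linarith) a5 (by positivity) (by linarith))
    (fun k hk hk' => by
      have a3 := Mn_nonneg h k (by omega)
      have a4 := h.nonneg k (by omega) hk'
      positivity)
    (fun k hk hk' => by
      have a1 := h.small k hk hk'
      have a3 := Mn_nonneg h k (by omega)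
      have a4 := h.nonneg k (by omega) hk'
      have a5 : Mn Q2 δ k ^ j / F ≤ L ^ j := by
        have a6 : Mn Q2 δ k ^ j ≤ L ^ j := pow_le_pow_left₀ a3 (Mn_le h k (by omega)) j
        have a7 : Mn Q2 δ k ^ j / F ≤ Mn Q2 δ k ^ j := div_le_self (by positivity) hF1
        linarith
      exact mul_le_mul (by linarith) a5 (by positivity) (by positivity))
  have e3 : |∑ r ∈ fr Q1 Q2, U Q1 Q2 ρ (fun r => 2 * δ r.1 / (r.1 : ℝ) ^ 2) j r -
      ∑ r ∈ fr Q1 Q2, 2 * δ r.1 * (Mn Q2 δ r.1 ^ j / F) / (r.1 : ℝ) ^ 2| ≤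
      K * t * ∑ r ∈ fr Q1 Q2, 2 * δ r.1 / (r.1 : ℝ) ^ 2 := by
    rw [← Finset.sum_sub_distrib, Finset.mul_sum]
    refine (Finset.abs_sum_le_sum_abs _ _).trans (Finset.sum_le_sum fun r hr => ?_)
    have := hU Q1 Q2 δ t lam h hlam r hr
    have a1 : 2 * δ r.1 * (Mn Q2 δ r.1 ^ j / F) / (r.1 : ℝ) ^ 2 =
        2 * δ r.1 / (r.1 : ℝ) ^ 2 * (Mn Q2 δ r.1 ^ j / F) := by ring
    rw [a1]
    exact this
  have hM0 := Mn_nonneg h Q1 le_rfl
  have ht2 : t ^ 2 ≤ t := by nlinarith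
  have e4 : ∑ r ∈ fr Q1 Q2, 2 * δ r.1 / (r.1 : ℝ) ^ 2 ≤ L + 150 := by
    have a1 := (abs_le.1 e1).2
    have a2 : 6 / Real.pi ^ 2 * ∑ n ∈ Ioc Q1 Q2, 2 * δ n / (n : ℝ) = Mn Q2 δ Q1 := by
      unfold Mn
      have : ∑ k ∈ Ioc Q1 Q2, 2 * δ k / (k : ℝ) = 2 * ∑ k ∈ Ioc Q1 Q2, δ k / (k : ℝ) := by
        rw [Finset.mul_sum]
        exact Finset.sum_congr rfl fun k _ => by ring
      rw [this]
      ring
    rw [a2] at a1
    have a3 := h.mean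
    nlinarith
  have e5 : |6 / Real.pi ^ 2 * ∑ n ∈ Ioc Q1 Q2, 2 * δ n * (Mn Q2 δ n ^ j / F) / (n : ℝ) -
      Mn Q2 δ Q1 ^ (j + 1) / ((j + 1).factorial : ℝ)| ≤ C * t := by
    have a1 := hS Q1 Q2 δ t h Q1 le_rfl hle
    set X : ℝ := ∑ k ∈ Ioc Q1 Q2, 12 / Real.pi ^ 2 * (δ k / k) * Mn Q2 δ k ^ j with hX
    have a2 : 6 / Real.pi ^ 2 * ∑ n ∈ Ioc Q1 Q2, 2 * δ n * (Mn Q2 δ n ^ j / F) / (n : ℝ) = X / F := by
      have a3 : ∑ k ∈ Ioc Q1 Q2, 2 * δ k * (Mn Q2 δ k ^ j / F) / (k : ℝ) =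
          2 / F * ∑ k ∈ Ioc Q1 Q2, δ k / k * Mn Q2 δ k ^ j := by
        rw [Finset.mul_sum]
        exact Finset.sum_congr rfl fun k _ => by ring
      have a4 : X = 12 / Real.pi ^ 2 * ∑ k ∈ Ioc Q1 Q2, δ k / k * Mn Q2 δ k ^ j := by
        rw [hX, Finset.mul_sum]
        exact Finset.sum_congr rfl fun k _ => by ring
      rw [a3, a4]
      ring
    have a5 : ((j + 1).factorial : ℝ) = ((j : ℝ) + 1) * F := by
      rw [Nat.factorial_succ, hF]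
      push_cast
      ring
    rw [a2, a5]
    have hn1 : (0 : ℝ) < (j : ℝ) + 1 := by positivity
    have a6 : X / F - Mn Q2 δ Q1 ^ (j + 1) / (((j : ℝ) + 1) * F) =
        (X - Mn Q2 δ Q1 ^ (j + 1) / (j + 1)) / F := by
      field_simp
    rw [a6, abs_div, abs_of_pos (by linarith : 0 < F)]
    exact (div_le_self (abs_nonneg _) hF1).trans a1
  have f1 := abs_sub_le (∑ r ∈ fr Q1 Q2, U Q1 Q2 ρ (fun r => 2 * δ r.1 / (r.1 : ℝ) ^ 2) j r)
    (∑ r ∈ fr Q1 Q2, 2 * δ r.1 * (Mn Q2 δ r.1 ^ j / F) / (r.1 : ℝ) ^ 2)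
    (Mn Q2 δ Q1 ^ (j + 1) / ((j + 1).factorial : ℝ))
  have f2 := abs_sub_le (∑ r ∈ fr Q1 Q2, 2 * δ r.1 * (Mn Q2 δ r.1 ^ j / F) / (r.1 : ℝ) ^ 2)
    (6 / Real.pi ^ 2 * ∑ n ∈ Ioc Q1 Q2, 2 * δ n * (Mn Q2 δ n ^ j / F) / (n : ℝ))
    (Mn Q2 δ Q1 ^ (j + 1) / ((j + 1).factorial : ℝ))
  have f3 : K * t * ∑ r ∈ fr Q1 Q2, 2 * δ r.1 / (r.1 : ℝ) ^ 2 ≤ K * t * (L + 150) :=
    mul_le_mul_of_nonneg_left e4 (by positivity)
  have f4 : 61 * (2 * t ^ 2 * L ^ j) ≤ 150 * L ^ j * t := by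
    have : t ^ 2 * L ^ j ≤ t * L ^ j := mul_le_mul_of_nonneg_right ht2 (by positivity)
    have h0 : 0 ≤ t * L ^ j := by positivity
    nlinarith
  have f5 : (K * (L + 150) + 150 * L ^ j + C) * t = K * t * (L + 150) + 150 * L ^ j * t + C * t := by ring
  rw [f5]
  linarith

end Pool.Agent.D0H53.PL
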