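import Pool.Agent.D0H53.PL.Mu

set_option autoImplicit false

/-!
# Reduced fractions near a reduced fraction
-/

open Finset Filter Topology

namespace Pool.Agent.D0H53.PL

/-- residue classes in an interval -/
theorem residue_count (a b r v : ℕ) (hr : 0 < r) (hab : a ≤ b) :
    |(((Ioc a b).filter fun x => x ≡ v [MOD r]).card : ℝ) - ((b : ℝ) - a) / r| ≤ 1 := by
  have h := Nat.Ioc_filter_modEq_card a b hr v
  have hrq : (0 : ℚ) < r := by exact_mod_cast hr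
  have h1 : ((a : ℚ) - v) / r ≤ ((b : ℚ) - v) / r := by
    have : (a : ℚ) ≤ b := by exact_mod_cast hab
    exact div_le_div_of_nonneg_right (by linarith) hrq.le
  have h2 : ⌊((a : ℚ) - v) / r⌋ ≤ ⌊((b : ℚ) - v) / r⌋ := Int.floor_le_floor h1
  rw [max_eq_left (by linarith)] at h
  have h3 := Int.floor_le (((a : ℚ) - v) / r)
  have h4 := Int.lt_floor_add_one (((a : ℚ) - v) / r)
  have h5 := Int.floor_le (((b : ℚ) - v) / r)
  have h6 := Int.lt_floor_add_one (((b : ℚ) - v) / r)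
  have h7 : ((((Ioc a b).filter fun x => x ≡ v [MOD r]).card : ℤ) : ℚ) =
      (⌊((b : ℚ) - v) / r⌋ : ℚ) - (⌊((a : ℚ) - v) / r⌋ : ℚ) := by
    rw [h]
    push_cast
    ring
  have h8 : ((b : ℚ) - v) / r - ((a : ℚ) - v) / r = ((b : ℚ) - a) / r := by ring
  have h9 : |((((Ioc a b).filter fun x => x ≡ v [MOD r]).card : ℤ) : ℚ) - ((b : ℚ) - a) / r| ≤ 1 := by
    rw [h7, ← h8, abs_le]
    constructor <;> linarith
  have h10 : ((|((((Ioc a b).filter fun x => x ≡ v [MOD r]).card : ℤ) : ℚ) - ((b : ℚ) - a) / r| : ℚ) : ℝ)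
      ≤ ((1 : ℚ) : ℝ) := by exact_mod_cast h9
  push_cast at h10
  exact h10

/-- the numerators of the fractions with the denominator `m` near `p / q`, without `p / q` -/
noncomputable def Zs (p : ℤ) (q : ℕ) (ρ : ℝ) (m : ℕ) : Finset ℤ :=
  (Icc (-(((p.natAbs + 1) * m : ℕ) : ℤ)) (((p.natAbs + 1) * m : ℕ) : ℤ)).filter fun z =>
    z * q - p * m ≠ 0 ∧ |((z * q - p * m : ℤ) : ℝ)| * q ≤ ρ * m

theorem mem_Zs {p : ℤ} {q : ℕ} {ρ : ℝ} {m : ℕ} (hq : 1 ≤ q) (hρ1 : ρ ≤ 1) (z : ℤ) :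
    z ∈ Zs p q ρ m ↔ z * q - p * m ≠ 0 ∧ |((z * q - p * m : ℤ) : ℝ)| * q ≤ ρ * m := by
  unfold Zs
  rw [mem_filter, and_iff_right_iff_imp]
  rintro ⟨-, h⟩
  have hq' : (1 : ℝ) ≤ q := by exact_mod_cast hq
  have hm : (0 : ℝ) ≤ m := Nat.cast_nonneg m
  have h1 : |((z * q - p * m : ℤ) : ℝ)| ≤ m := by
    have h2 : |((z * q - p * m : ℤ) : ℝ)| ≤ |((z * q - p * m : ℤ) : ℝ)| * q :=
      le_mul_of_one_le_right (abs_nonneg _) hq'
    have h3 : ρ * m ≤ 1 * m := mul_le_mul_of_nonneg_right hρ1 hm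
    linarith
  have h2 : |z * q - p * m| ≤ (m : ℤ) := by
    have : ((|z * q - p * m| : ℤ) : ℝ) ≤ ((m : ℤ) : ℝ) := by
      push_cast
      push_cast at h1
      exact h1
    exact_mod_cast this
  have h3 : |z| ≤ |z * q| := by
    rw [abs_mul]
    have : (1 : ℤ) ≤ |(q : ℤ)| := by rw [abs_of_nonneg (by positivity)]; exact_mod_cast hq
    exact le_mul_of_one_le_right (abs_nonneg _) this
  have h4 : |z * q| ≤ |z * q - p * m| + |p * m| := by
    have := abs_add_le (z * q - p * m) (p * m)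
    rwa [sub_add_cancel] at this
  have h5 : |p * (m : ℤ)| = |p| * m := by
    rw [abs_mul, abs_of_nonneg (by positivity : (0 : ℤ) ≤ (m : ℤ))]
  have h6 : |z| ≤ (((p.natAbs + 1) * m : ℕ) : ℤ) := by
    push_cast
    rw [h5] at h4
    nlinarith
  rw [mem_Icc]
  exact abs_le.1 h6

theorem Zs_pairs {p : ℤ} {q : ℕ} {ρ : ℝ} {m : ℕ} (hq : 1 ≤ q) (hρ : 0 < ρ) (hρ1 : ρ ≤ 1) (Y W : ℕ) (hm : m ≤ Y)
    (hW : W = ⌊ρ * Y / q⌋₊) :
    (Zs p q ρ m).card = ((({1, -1} : Finset ℤ) ×ˢ Icc 1 W).filter fun x =>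
      (x.2 : ℝ) * q ≤ ρ * m ∧ (q : ℤ) ∣ x.1 * (x.2 : ℤ) + p * m).card := by
  have hq0 : (0 : ℝ) < q := by exact_mod_cast hq
  refine Finset.card_bij (fun z _ => (Int.sign (z * q - p * m), (z * q - p * m).natAbs)) ?_ ?_ ?_
  · intro z hz
    rw [mem_Zs hq hρ1] at hz
    obtain ⟨h1, h2⟩ := hz
    have h3 : ((z * q - p * m).natAbs : ℝ) = |((z * q - p * m : ℤ) : ℝ)| := by
      rw [Nat.cast_natAbs, Int.cast_abs]
    rw [mem_filter, mem_product]
    refine ⟨⟨?_, ?_⟩, ?_, ?_⟩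
    · simp only [mem_insert, mem_singleton]
      rcases lt_trichotomy (z * q - p * m) 0 with h | h | h
      · right; exact Int.sign_eq_neg_one_of_neg h
      · exact absurd h h1
      · left; exact Int.sign_eq_one_of_pos h
    · rw [mem_Icc]
      refine ⟨Int.natAbs_pos.2 h1, ?_⟩
      rw [hW]
      apply Nat.le_floor
      rw [h3, le_div_iff₀ hq0]
      refine h2.trans ?_
      have : (m : ℝ) ≤ Y := by exact_mod_cast hm
      exact mul_le_mul_of_nonneg_left this hρ.le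
    · simp only
      rw [h3]
      exact h2
    · simp only
      rw [Int.sign_mul_natAbs]
      exact ⟨z, by ring⟩
  · intro z1 hz1 z2 hz2 h
    rw [Prod.mk.injEq] at h
    have h1 : z1 * q - p * m = z2 * q - p * m := by
      rw [← Int.sign_mul_natAbs (z1 * q - p * m), ← Int.sign_mul_natAbs (z2 * q - p * m), h.1, h.2]
    have h2 : z1 * (q : ℤ) = z2 * q := by linarith
    have hq' : (q : ℤ) ≠ 0 := by exact_mod_cast (by omega : q ≠ 0)
    exact mul_right_cancel₀ hq' h2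
  · rintro ⟨s, k⟩ hx
    rw [mem_filter, mem_product] at hx
    obtain ⟨⟨hs, hk⟩, h1, h2⟩ := hx
    simp only at hs hk h1 h2
    rw [mem_Icc] at hk
    obtain ⟨z, hz⟩ := h2
    have hz' : z * q - p * m = s * (k : ℤ) := by
      have : (q : ℤ) * z = z * q := mul_comm _ _
      linarith
    have hk0 : (k : ℤ) ≠ 0 := by exact_mod_cast (by omega : k ≠ 0)
    have hs1 : s = 1 ∨ s = -1 := by simpa using hs
    have hs0 : |s| = 1 := by rcases hs1 with h | h <;> rw [h] <;> rfl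
    refine ⟨z, ?_, ?_⟩
    · rw [mem_Zs hq hρ1, hz']
      refine ⟨?_, ?_⟩
      · rcases hs1 with h | h <;> rw [h] <;> simp <;> omega
      · have : |((s * (k : ℤ) : ℤ) : ℝ)| = k := by
          rw [← Int.cast_abs, abs_mul, hs0, one_mul]
          simp
        rw [this]
        exact h1
    · rw [hz', Prod.mk.injEq]
      rcases hs1 with h | h
      · rw [h]
        constructor
        · rw [one_mul]; exact Int.sign_eq_one_of_pos (by omega)
        · simp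
      · rw [h]
        constructor
        · rw [neg_one_mul]; exact Int.sign_eq_neg_one_of_neg (by omega)
        · simp

/-- one value of the determinant -/
theorem one_det {p : ℤ} {q : ℕ} {ρ : ℝ} (hq : 1 ≤ q) (hρ : 0 < ρ) (hpq : IsCoprime p (q : ℤ)) (Y k : ℕ)
    (s : ℤ) (hk : 1 ≤ k) (hkY : (k : ℝ) * q ≤ ρ * Y) :
    |(((Icc 1 Y).filter fun m : ℕ => (k : ℝ) * q ≤ ρ * m ∧ (q : ℤ) ∣ s * (k : ℤ) + p * m).card : ℝ) -
      ((Y : ℝ) / q - k / ρ)| ≤ 2 := by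
  have hq0 : (0 : ℝ) < q := by exact_mod_cast hq
  have hq1 : (1 : ℝ) ≤ q := by exact_mod_cast hq
  have hk0 : (0 : ℝ) < k := by exact_mod_cast hk
  obtain ⟨u, w, huw⟩ := hpq
  set t : ℕ := ⌈(k : ℝ) * q / ρ⌉₊ with ht
  have ht0 : (k : ℝ) * q / ρ ≤ t := Nat.le_ceil _
  have ht1 : (t : ℝ) < (k : ℝ) * q / ρ + 1 := Nat.ceil_lt_add_one (by positivity)
  have htpos : 1 ≤ t := by
    have : (0 : ℝ) < t := lt_of_lt_of_le (by positivity) ht0
    exact_mod_cast this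
  have htY : t ≤ Y := by
    rw [ht]
    apply Nat.ceil_le.2
    rw [div_le_iff₀ hρ]
    linarith
  set v : ℕ := ((-(u * (s * k))) % (q : ℤ)).toNat with hv
  have hqz : (0 : ℤ) < q := by exact_mod_cast hq
  have hv' : (v : ℤ) = (-(u * (s * k))) % (q : ℤ) := Int.toNat_of_nonneg (Int.emod_nonneg _ hqz.ne')
  have hset : ((Icc 1 Y).filter fun m : ℕ => (k : ℝ) * q ≤ ρ * m ∧ (q : ℤ) ∣ s * (k : ℤ) + p * m) =
      (Ioc (t - 1) Y).filter fun m => m ≡ v [MOD q] := by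
    ext m
    rw [mem_filter, mem_filter, mem_Icc, mem_Ioc]
    have h1 : (q : ℤ) ∣ s * (k : ℤ) + p * m ↔ m ≡ v [MOD q] := by
      rw [← Int.natCast_modEq_iff, hv']
      have h2 : (m : ℤ) ≡ (-(u * (s * k))) % (q : ℤ) [ZMOD q] ↔ (m : ℤ) ≡ -(u * (s * k)) [ZMOD q] := by
        constructor
        · intro h
          exact h.trans (Int.mod_modEq _ _)
        · intro h
          exact h.trans (Int.mod_modEq _ _).symm
      rw [h2, Int.modEq_iff_dvd]
      constructor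
      · rintro ⟨c, hc⟩
        refine ⟨-(u * c) - m * w, ?_⟩
        have h3 : (m : ℤ) = m * (u * p + w * q) := by rw [huw, mul_one]
        calc -(u * (s * k)) - (m : ℤ) = -(u * (s * k)) - m * (u * p + w * q) := by rw [← h3]
          _ = -u * (s * k + p * m) - m * w * q := by ring
          _ = -u * (q * c) - m * w * q := by rw [hc]
          _ = q * (-(u * c) - m * w) := by ring
      · rintro ⟨c, hc⟩
        -- m = -(u s k) - q c ; s k + p m = s k (1 - p u) - p q c = s k w q - p q c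
        refine ⟨s * k * w - p * c, ?_⟩
        have h3 : (m : ℤ) = -(u * (s * k)) - q * c := by linarith
        rw [h3]
        calc s * (k : ℤ) + p * (-(u * (s * k)) - q * c) = s * k * (1 - u * p) - p * q * c := by ring
          _ = s * k * (w * q) - p * q * c := by rw [← huw]; ring
          _ = q * (s * k * w - p * c) := by ring
    rw [h1]
    constructor
    · rintro ⟨⟨h2, h3⟩, h4, h5⟩
      refine ⟨⟨?_, h3⟩, h5⟩
      have : t ≤ m := by
        rw [ht]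
        apply Nat.ceil_le.2
        rw [div_le_iff₀ hρ]
        linarith
      omega
    · rintro ⟨⟨h2, h3⟩, h4⟩
      have h5 : t ≤ m := by omega
      refine ⟨⟨by omega, h3⟩, ?_, h4⟩
      have h6 : (k : ℝ) * q / ρ ≤ m := ht0.trans (by exact_mod_cast h5)
      rw [div_le_iff₀ hρ] at h6
      linarith
  rw [hset]
  have h1 := residue_count (t - 1) Y q v (by omega) (by omega)
  have h2 : ((t - 1 : ℕ) : ℝ) = t - 1 := by
    rw [Nat.cast_sub htpos]
    simp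
  rw [h2] at h1
  have h3 : |((Y : ℝ) - (t - 1)) / q - ((Y : ℝ) / q - k / ρ)| ≤ 1 := by
    have h4 : ((Y : ℝ) - (t - 1)) / q - ((Y : ℝ) / q - k / ρ) = ((k : ℝ) * q / ρ - (t - 1)) / q := by
      field_simp
      ring
    rw [h4, abs_of_nonneg (div_nonneg (by linarith) hq0.le), div_le_one hq0]
    linarith
  have h4 := abs_sub_le (((((Ioc (t - 1) Y).filter fun m => m ≡ v [MOD q]).card : ℝ)))
    (((Y : ℝ) - (t - 1)) / q) ((Y : ℝ) / q - k / ρ)
  linarith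

theorem sum_V (V : ℝ) (hV : 0 ≤ V) : |2 * ∑ k ∈ Icc 1 ⌊V⌋₊, (V - k) - V ^ 2| ≤ V + 1 := by
  have h1 : ∀ W : ℕ, ∑ k ∈ Icc 1 W, (V - (k : ℝ)) = V * W - W * (W + 1) / 2 := by
    intro W
    induction W with
    | zero => simp
    | succ n ih =>
      rw [Finset.sum_Icc_succ_top (by omega), ih]
      push_cast
      ring
  rw [h1]
  have h2 := Nat.floor_le hV
  have h3 := Nat.lt_floor_add_one V
  set W : ℝ := (⌊V⌋₊ : ℝ)
  have hW : 0 ≤ W := Nat.cast_nonneg _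
  have h4 : 2 * (V * W - W * (W + 1) / 2) - V ^ 2 = -(V - W) ^ 2 - W := by ring
  rw [h4, abs_le]
  constructor <;> nlinarith

/-- the number of the points -/
theorem count_B {p : ℤ} {q : ℕ} {ρ : ℝ} (hq : 1 ≤ q) (hρ : 0 < ρ) (hρ1 : ρ ≤ 1) (hpq : IsCoprime p (q : ℤ))
    (Y : ℕ) : |(∑ m ∈ Icc 1 Y, ((Zs p q ρ m).card : ℝ)) - ρ * ((Y : ℝ) / q) ^ 2| ≤ 6 * ((Y : ℝ) / q) := by
  have hq0 : (0 : ℝ) < q := by exact_mod_cast hq
  have hY0 : (0 : ℝ) ≤ Y := Nat.cast_nonneg Y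
  set W : ℕ := ⌊ρ * Y / q⌋₊ with hW
  set V : ℝ := ρ * Y / q with hV
  have hV0 : 0 ≤ V := by positivity
  have h1 : ∑ m ∈ Icc 1 Y, ((Zs p q ρ m).card : ℝ) = ∑ x ∈ ({1, -1} : Finset ℤ) ×ˢ Icc 1 W,
      (((Icc 1 Y).filter fun m : ℕ => (x.2 : ℝ) * q ≤ ρ * m ∧ (q : ℤ) ∣ x.1 * (x.2 : ℤ) + p * m).card : ℝ) := by
    have h2 : ∀ m ∈ Icc 1 Y, ((Zs p q ρ m).card : ℝ) = ∑ x ∈ ({1, -1} : Finset ℤ) ×ˢ Icc 1 W,
        if (x.2 : ℝ) * q ≤ ρ * m ∧ (q : ℤ) ∣ x.1 * (x.2 : ℤ) + p * m then (1 : ℝ) else 0 := by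
      intro m hm
      rw [Zs_pairs hq hρ hρ1 Y W (mem_Icc.1 hm).2 hW, Finset.card_filter]
      push_cast
      rfl
    rw [Finset.sum_congr rfl h2, Finset.sum_comm]
    refine Finset.sum_congr rfl fun x _ => ?_
    rw [Finset.card_filter]
    push_cast
    rfl
  rw [h1]
  have h3 : ∀ x ∈ ({1, -1} : Finset ℤ) ×ˢ Icc 1 W,
      |(((Icc 1 Y).filter fun m : ℕ => (x.2 : ℝ) * q ≤ ρ * m ∧ (q : ℤ) ∣ x.1 * (x.2 : ℤ) + p * m).card : ℝ) -
        ((Y : ℝ) / q - x.2 / ρ)| ≤ 2 := by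
    intro x hx
    rw [mem_product, mem_Icc] at hx
    refine one_det hq hρ hpq Y x.2 x.1 hx.2.1 ?_
    have h4 : (x.2 : ℝ) ≤ W := by exact_mod_cast hx.2.2
    have h5 : (W : ℝ) ≤ V := Nat.floor_le hV0
    have h6 : (x.2 : ℝ) ≤ ρ * Y / q := h4.trans h5
    rwa [le_div_iff₀ hq0] at h6
  have h4 : |∑ x ∈ ({1, -1} : Finset ℤ) ×ˢ Icc 1 W,
      (((Icc 1 Y).filter fun m : ℕ => (x.2 : ℝ) * q ≤ ρ * m ∧ (q : ℤ) ∣ x.1 * (x.2 : ℤ) + p * m).card : ℝ) -
      ∑ x ∈ ({1, -1} : Finset ℤ) ×ˢ Icc 1 W, ((Y : ℝ) / q - x.2 / ρ)| ≤ 4 * W := by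
    rw [← Finset.sum_sub_distrib]
    refine (Finset.abs_sum_le_sum_abs _ _).trans ((Finset.sum_le_sum h3).trans ?_)
    rw [Finset.sum_const, Finset.card_product, Nat.card_Icc, nsmul_eq_mul]
    have : (({1, -1} : Finset ℤ)).card = 2 := by decide
    rw [this, Nat.add_sub_cancel]
    push_cast
    linarith
  have h5 : ∑ x ∈ ({1, -1} : Finset ℤ) ×ˢ Icc 1 W, ((Y : ℝ) / q - x.2 / ρ) =
      1 / ρ * (2 * ∑ k ∈ Icc 1 W, (V - k)) := by
    rw [Finset.sum_product]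
    have h6 : ∀ k : ℕ, (Y : ℝ) / q - k / ρ = 1 / ρ * (V - k) := by
      intro k
      rw [hV]
      field_simp
    simp only [h6]
    rw [Finset.sum_const, ← Finset.mul_sum]
    have : (({1, -1} : Finset ℤ)).card = 2 := by decide
    rw [this, nsmul_eq_mul]
    push_cast
    ring
  rw [h5] at h4
  have h6 := sum_V V hV0
  have h7 : ρ * ((Y : ℝ) / q) ^ 2 = 1 / ρ * V ^ 2 := by
    rw [hV]
    field_simp
  rw [h7]
  have hW1 : (W : ℝ) ≤ V := Nat.floor_le hV0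
  have h8 : V ≤ (Y : ℝ) / q := by
    rw [hV, mul_div_assoc]
    exact mul_le_of_le_one_left (by positivity) hρ1
  have h88 : V / ρ = (Y : ℝ) / q := by
    rw [hV]
    field_simp
  by_cases hV1 : V < 1
  · -- everything is zero
    have hW0 : W = 0 := Nat.floor_eq_zero.2 hV1
    have h9 : (∑ x ∈ ({1, -1} : Finset ℤ) ×ˢ Icc 1 W,
      (((Icc 1 Y).filter fun m : ℕ => (x.2 : ℝ) * q ≤ ρ * m ∧ (q : ℤ) ∣ x.1 * (x.2 : ℤ) + p * m).card : ℝ)) = 0 := by
      rw [hW0]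
      simp
    rw [h9, zero_sub, abs_neg, abs_of_nonneg (by positivity)]
    have h10 : 1 / ρ * V ^ 2 ≤ 1 / ρ * V := by
      apply mul_le_mul_of_nonneg_left _ (by positivity)
      nlinarith
    have h11 : 1 / ρ * V = (Y : ℝ) / q := by rw [← h88]; ring
    have : 0 ≤ (Y : ℝ) / q := by positivity
    linarith
  · push Not at hV1
    have h9 : |1 / ρ * (2 * ∑ k ∈ Icc 1 W, (V - (k : ℝ))) - 1 / ρ * V ^ 2| ≤ 1 / ρ * (V + 1) := by
      rw [← mul_sub, abs_mul, abs_of_nonneg (by positivity : 0 ≤ 1 / ρ)]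
      exact mul_le_mul_of_nonneg_left h6 (by positivity)
    have h10 : 1 / ρ * (V + 1) ≤ 2 * ((Y : ℝ) / q) := by
      rw [← h88]
      have : 1 / ρ * (V + 1) ≤ 1 / ρ * (2 * V) := mul_le_mul_of_nonneg_left (by linarith) (by positivity)
      refine this.trans (le_of_eq (by ring))
    have h11 := abs_sub_le (∑ x ∈ ({1, -1} : Finset ℤ) ×ˢ Icc 1 W,
      (((Icc 1 Y).filter fun m : ℕ => (x.2 : ℝ) * q ≤ ρ * m ∧ (q : ℤ) ∣ x.1 * (x.2 : ℤ) + p * m).card : ℝ))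
      (1 / ρ * (2 * ∑ k ∈ Icc 1 W, (V - (k : ℝ)))) (1 / ρ * V ^ 2)
    linarith

theorem B_zero {p : ℤ} {q : ℕ} {ρ : ℝ} (hq : 1 ≤ q) (hρ1 : ρ ≤ 1) (m : ℕ) (h : ρ * m < q) :
    Zs p q ρ m = ∅ := by
  rw [Finset.eq_empty_iff_forall_notMem]
  intro z hz
  rw [mem_Zs hq hρ1] at hz
  have hq0 : (0 : ℝ) < q := by exact_mod_cast hq
  have h1 : (1 : ℝ) ≤ |((z * q - p * m : ℤ) : ℝ)| := by
    have : (1 : ℤ) ≤ |z * q - p * m| := Int.one_le_abs hz.1
    rw [← Int.cast_abs]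
    exact_mod_cast this
  have h2 : (q : ℝ) ≤ |((z * q - p * m : ℤ) : ℝ)| * q := le_mul_of_one_le_left hq0.le h1
  linarith [hz.2]

theorem sum_moebius (k : ℕ) (hk : k ≠ 0) : ∑ d ∈ k.divisors, mu d = if k = 1 then 1 else 0 := by
  have h := DFunLike.congr_fun ArithmeticFunction.moebius_mul_coe_zeta k
  rw [ArithmeticFunction.coe_mul_zeta_apply, ArithmeticFunction.one_apply] at h
  unfold mu
  rw [← Int.cast_sum, h]
  split_ifs <;> simp

/-- the number of reduced fractions with the denominator `n` near `p / q`, without `p / q` -/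
noncomputable def fz (p : ℤ) (q : ℕ) (ρ : ℝ) (n : ℕ) : ℕ :=
  ((Zs p q ρ n).filter fun z => Int.gcd z n = 1).card

theorem Zs_div {p : ℤ} {q : ℕ} {ρ : ℝ} (hq : 1 ≤ q) (hρ1 : ρ ≤ 1) (n d : ℕ) (hn : 1 ≤ n) (hd : d ∣ n) :
    ((Zs p q ρ n).filter fun z => (d : ℤ) ∣ z).card = (Zs p q ρ (n / d)).card := by
  obtain ⟨m, rfl⟩ := hd
  have hd0 : 0 < d := Nat.pos_of_ne_zero (by rintro rfl; omega)
  have hdr : (0 : ℝ) < d := by exact_mod_cast hd0
  rw [Nat.mul_div_cancel_left m hd0]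
  symm
  refine Finset.card_bij (fun z _ => (d : ℤ) * z) ?_ ?_ ?_
  · intro z hz
    rw [mem_Zs hq hρ1] at hz
    rw [mem_filter, mem_Zs hq hρ1]
    have h1 : (d : ℤ) * z * q - p * ((d * m : ℕ) : ℤ) = d * (z * q - p * m) := by push_cast; ring
    rw [h1]
    refine ⟨⟨mul_ne_zero (by exact_mod_cast hd0.ne') hz.1, ?_⟩, dvd_mul_right _ _⟩
    have h2 : |(((d : ℤ) * (z * q - p * m) : ℤ) : ℝ)| = d * |((z * q - p * m : ℤ) : ℝ)| := by
      push_cast
      rw [abs_mul, abs_of_pos hdr]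
    rw [h2]
    push_cast
    have := mul_le_mul_of_nonneg_left hz.2 hdr.le
    push_cast at this
    linarith
  · intro z1 _ z2 _ h
    exact mul_left_cancel₀ (by exact_mod_cast hd0.ne' : (d : ℤ) ≠ 0) h
  · intro z hz
    rw [mem_filter, mem_Zs hq hρ1] at hz
    obtain ⟨⟨h1, h2⟩, y, rfl⟩ := hz
    refine ⟨y, ?_, rfl⟩
    rw [mem_Zs hq hρ1]
    have h3 : (d : ℤ) * y * q - p * ((d * m : ℕ) : ℤ) = d * (y * q - p * m) := by push_cast; ring
    rw [h3] at h1 h2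
    refine ⟨right_ne_zero_of_mul h1, ?_⟩
    have h4 : |(((d : ℤ) * (y * q - p * m) : ℤ) : ℝ)| = d * |((y * q - p * m : ℤ) : ℝ)| := by
      push_cast
      rw [abs_mul, abs_of_pos hdr]
    rw [h4] at h2
    push_cast at h2
    have h5 : (d : ℝ) * (|((y * q - p * m : ℤ) : ℝ)| * q) ≤ d * (ρ * m) := by
      push_cast
      linarith
    exact le_of_mul_le_mul_left h5 hdr

theorem fz_eq {p : ℤ} {q : ℕ} {ρ : ℝ} (hq : 1 ≤ q) (hρ1 : ρ ≤ 1) (n : ℕ) (hn : 1 ≤ n) :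
    (fz p q ρ n : ℝ) = ∑ d ∈ n.divisors, mu d * ((Zs p q ρ (n / d)).card : ℝ) := by
  unfold fz
  rw [Finset.card_filter]
  push_cast
  have h1 : ∀ z : ℤ, (if Int.gcd z n = 1 then (1 : ℝ) else 0) =
      ∑ d ∈ n.divisors, if (d : ℤ) ∣ z then mu d else 0 := by
    intro z
    have hg : Int.gcd z n ≠ 0 := by
      rw [Ne, Int.gcd_eq_zero_iff]
      rintro ⟨-, h⟩
      have : n = 0 := by exact_mod_cast h
      omega
    rw [← sum_moebius _ hg, ← Finset.sum_filter]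
    refine Finset.sum_congr ?_ fun _ _ => rfl
    ext d
    rw [Nat.mem_divisors, mem_filter, Nat.mem_divisors]
    constructor
    · rintro ⟨h, -⟩
      have h2 : (d : ℤ) ∣ (Int.gcd z n : ℤ) := by exact_mod_cast h
      refine ⟨⟨?_, by omega⟩, h2.trans (Int.gcd_dvd_left _ _)⟩
      exact_mod_cast h2.trans (Int.gcd_dvd_right _ _)
    · rintro ⟨⟨h2, -⟩, h3⟩
      refine ⟨?_, hg⟩
      have : (d : ℤ) ∣ (Int.gcd z n : ℤ) := Int.dvd_coe_gcd h3 (by exact_mod_cast h2)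
      exact_mod_cast this
  simp only [h1]
  rw [Finset.sum_comm]
  refine Finset.sum_congr rfl fun d hd => ?_
  rw [Nat.mem_divisors] at hd
  rw [← Finset.sum_filter, Finset.sum_const, Zs_div hq hρ1 n d hn hd.1, nsmul_eq_mul]
  ring

theorem sum_divisors (X : ℕ) (F : ℕ → ℕ → ℝ) :
    ∑ n ∈ Icc 1 X, ∑ d ∈ n.divisors, F d (n / d) = ∑ d ∈ Icc 1 X, ∑ m ∈ Icc 1 (X / d), F d m := by
  rw [Finset.sum_sigma', Finset.sum_sigma']
  refine Finset.sum_bij' (fun x _ => ⟨x.2, x.1 / x.2⟩) (fun x _ => ⟨x.1 * x.2, x.1⟩) ?_ ?_ ?_ ?_ ?_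
  · rintro ⟨n, d⟩ h
    simp only [mem_sigma, mem_Icc, Nat.mem_divisors] at h ⊢
    obtain ⟨⟨h1, h2⟩, h3, -⟩ := h
    have h4 := Nat.le_of_dvd h1 h3
    have h5 : 0 < d := Nat.pos_of_dvd_of_pos h3 h1
    exact ⟨⟨h5, h4.trans h2⟩, Nat.div_pos h4 h5, Nat.div_le_div_right h2⟩
  · rintro ⟨d, m⟩ h
    simp only [mem_sigma, mem_Icc, Nat.mem_divisors] at h ⊢
    obtain ⟨⟨h1, h2⟩, h3, h4⟩ := h
    have h5 := Nat.mul_le_of_le_div _ _ _ h4
    refine ⟨⟨Nat.mul_pos h1 h3, by rw [mul_comm]; exact h5⟩, dvd_mul_right _ _, (Nat.mul_pos h1 h3).ne'⟩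
  · rintro ⟨n, d⟩ h
    simp only [mem_sigma, mem_Icc, Nat.mem_divisors] at h
    simp [Nat.mul_div_cancel' h.2.1]
  · rintro ⟨d, m⟩ h
    simp only [mem_sigma, mem_Icc] at h
    simp [Nat.mul_div_cancel_left m (by omega : 0 < d)]
  · rintro ⟨n, d⟩ h
    rfl

/-- the number of the reduced fractions near `p / q` -/
theorem count_A {p : ℤ} {q : ℕ} {ρ : ℝ} (hq : 1 ≤ q) (hρ : 0 < ρ) (hρ1 : ρ < 1) (hpq : IsCoprime p (q : ℤ))
    (X : ℕ) : |(∑ n ∈ Icc 1 X, (fz p q ρ n : ℝ)) - 6 / Real.pi ^ 2 * (ρ / (q : ℝ) ^ 2) * (X : ℝ) ^ 2| ≤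
      22 / ((q : ℝ) * Real.sqrt q) * (X * Real.sqrt X) := by
  have hq0 : (0 : ℝ) < q := by exact_mod_cast hq
  have hsq : 0 < Real.sqrt q := Real.sqrt_pos.2 hq0
  have hX0 : (0 : ℝ) ≤ X := Nat.cast_nonneg X
  have hpi : 6 / Real.pi ^ 2 ≤ 1 := by
    rw [div_le_one (by positivity)]
    nlinarith [Real.pi_gt_three]
  have hpi0 : 0 ≤ 6 / Real.pi ^ 2 := by positivity
  set y : ℝ := (X : ℝ) / q with hy
  have hy0 : 0 ≤ y := by positivity
  have hmain : 6 / Real.pi ^ 2 * (ρ / (q : ℝ) ^ 2) * (X : ℝ) ^ 2 = 6 / Real.pi ^ 2 * ρ * y ^ 2 := by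
    rw [hy]
    field_simp
  have herr : 22 / ((q : ℝ) * Real.sqrt q) * (X * Real.sqrt X) = 22 * (y * Real.sqrt y) := by
    rw [hy, Real.sqrt_div hX0]
    field_simp
  rw [hmain, herr]
  have h1 : ∑ n ∈ Icc 1 X, (fz p q ρ n : ℝ) = ∑ d ∈ Icc 1 X, mu d *
      ∑ m ∈ Icc 1 (X / d), ((Zs p q ρ m).card : ℝ) := by
    rw [Finset.sum_congr rfl fun n hn => fz_eq hq hρ1.le n (mem_Icc.1 hn).1,
      sum_divisors X fun d m => mu d * ((Zs p q ρ m).card : ℝ)]
    refine Finset.sum_congr rfl fun d _ => ?_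
    rw [Finset.mul_sum]
  rw [h1]
  set D : ℕ := X / q with hD
  have hDy : (D : ℝ) ≤ y := by
    rw [hy, hD]
    exact Nat.cast_div_le
  have hyD : y < D + 1 := by
    rw [hy, div_lt_iff₀ hq0]
    have : X < (X / q + 1) * q := by
      have := Nat.lt_mul_div_succ X (by omega : 0 < q)
      linarith
    have h2 : (X : ℝ) < (((X / q + 1) * q : ℕ) : ℝ) := by exact_mod_cast this
    push_cast at h2
    exact h2
  have hDX : D ≤ X := Nat.div_le_self _ _
  -- the large divisors contribute nothing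
  have h2 : ∑ d ∈ Icc 1 X, mu d * ∑ m ∈ Icc 1 (X / d), ((Zs p q ρ m).card : ℝ) =
      ∑ d ∈ Icc 1 D, mu d * ∑ m ∈ Icc 1 (X / d), ((Zs p q ρ m).card : ℝ) := by
    symm
    apply Finset.sum_subset (Finset.Icc_subset_Icc_right hDX)
    intro d hd hd'
    rw [mem_Icc] at hd hd'
    have h3 : D < d := by omega
    have h4 : ∑ m ∈ Icc 1 (X / d), ((Zs p q ρ m).card : ℝ) = 0 := by
      apply Finset.sum_eq_zero
      intro m hm
      rw [mem_Icc] at hm
      rw [B_zero hq hρ1.le m]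
      · simp
      · have h5 : m < q := by
          have h6 : X / d < q := by
            rw [Nat.div_lt_iff_lt_mul (by omega)]
            have h7 := Nat.lt_mul_div_succ X (by omega : 0 < q)
            have h8 : X / q + 1 ≤ d := h3
            calc X < q * (X / q + 1) := h7
              _ ≤ q * d := Nat.mul_le_mul_left _ h8
          omega
        have h6 : (m : ℝ) < q := by exact_mod_cast h5
        have h7 : (0 : ℝ) ≤ m := Nat.cast_nonneg m
        nlinarith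
    rw [h4, mul_zero]
  rw [h2]
  rcases Nat.eq_zero_or_pos D with h0 | hD1
  · rw [h0]
    simp only [Finset.Icc_eq_empty (by norm_num : ¬ (1 ≤ 0)), Finset.sum_empty, zero_sub, abs_neg]
    have hy1 : y < 1 := by
      rw [h0] at hyD
      simpa using hyD
    rw [abs_of_nonneg (by positivity)]
    have h3 : y ≤ Real.sqrt y := by
      rcases eq_or_lt_of_le hy0 with h | h
      · rw [← h]; simp
      · rw [Real.le_sqrt' h]
        nlinarith
    have h4 : y ^ 2 ≤ y * Real.sqrt y := by nlinarith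
    have h5 : 6 / Real.pi ^ 2 * ρ ≤ 1 := by nlinarith
    have h6 : 6 / Real.pi ^ 2 * ρ * y ^ 2 ≤ 1 * y ^ 2 := mul_le_mul_of_nonneg_right h5 (by positivity)
    have h7 : 0 ≤ y * Real.sqrt y := by positivity
    linarith
  · have h3 := mobius_sum (fun d => ∑ m ∈ Icc 1 (X / d), ((Zs p q ρ m).card : ℝ)) D hD1 y ρ 10 hDy hyD
      hρ.le hρ1.le (by norm_num) (by
        intro d hd
        rw [mem_Icc] at hd
        have hd0 : (0 : ℝ) < d := by exact_mod_cast hd.1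
        have h4 := count_B hq hρ hρ1.le hpq (X / d)
        -- compare (X/d : ℕ)/q with y/d
        have h5 : ((X / d : ℕ) : ℝ) ≤ (X : ℝ) / d := Nat.cast_div_le
        have h6 : (X : ℝ) / d < ((X / d : ℕ) : ℝ) + 1 := by
          rw [div_lt_iff₀ hd0]
          have : X < (X / d + 1) * d := by
            have := Nat.lt_mul_div_succ X (by omega : 0 < d)
            linarith
          have h2 : (X : ℝ) < (((X / d + 1) * d : ℕ) : ℝ) := by exact_mod_cast this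
          push_cast at h2
          exact h2
        set a : ℝ := ((X / d : ℕ) : ℝ) / q with ha
        have ha0 : 0 ≤ a := by positivity
        have h7 : y / d = (X : ℝ) / d / q := by rw [hy]; field_simp
        have h8 : a ≤ y / d := by
          rw [h7, ha]
          exact div_le_div_of_nonneg_right h5 hq0.le
        have hq1 : (1 : ℝ) ≤ q := by exact_mod_cast hq
        have h9 : y / d ≤ a + 1 := by
          rw [h7, ha]
          have h10 : (X : ℝ) / d / q ≤ (((X / d : ℕ) : ℝ) + 1) / q := div_le_div_of_nonneg_right h6.le hq0.le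
          have h11 : (((X / d : ℕ) : ℝ) + 1) / q = ((X / d : ℕ) : ℝ) / q + 1 / q := by ring
          have h12 : 1 / (q : ℝ) ≤ 1 := by rw [div_le_one hq0]; exact hq1
          linarith
        have h10 : |ρ * a ^ 2 - ρ * (y / d) ^ 2| ≤ 2 * (y / d) := by
          rw [← mul_sub, abs_mul, abs_of_pos hρ]
          have h11 : |a ^ 2 - (y / d) ^ 2| ≤ 2 * (y / d) := by
            rw [abs_le]
            constructor <;> nlinarith
          calc ρ * |a ^ 2 - (y / d) ^ 2| ≤ 1 * (2 * (y / d)) := mul_le_mul hρ1.le h11 (abs_nonneg _) zero_le_one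
            _ = 2 * (y / d) := one_mul _
        have h11 := abs_sub_le (∑ m ∈ Icc 1 (X / d), ((Zs p q ρ m).card : ℝ)) (ρ * a ^ 2) (ρ * (y / d) ^ 2)
        linarith)
    have h4 : (2 * 10 + 2 : ℝ) * (y * Real.sqrt y) = 22 * (y * Real.sqrt y) := by norm_num
    rw [h4] at h3
    exact h3

end Pool.Agent.D0H53.PL
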