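import Pool.Agent.D0H53.PL.Saw
import Pool.Agent.D0H53.PL.Loc
import Pool.Agent.N965.LN.Cnt

set_option autoImplicit false

/-!
# Equidistribution of the family at the scale `N ^ (-1 + τ)`
-/

open Finset hiding box
open Filter Topology

namespace Pool.Agent.D0H53.PL

open Pool.Agent.N965.LN (dn box num Cnt)
open Pool.Agent.H469R2.NK (e norm_e e_add)

/-- `min M (1 / (2 dn x))` -/
noncomputable def K1 (M : ℕ) (x : ℝ) : ℝ := if dn x = 0 then (M : ℝ) else min (M : ℝ) (1 / (2 * dn x))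

theorem K1_nonneg (M : ℕ) (x : ℝ) : 0 ≤ K1 M x := by
  unfold K1
  split_ifs
  · positivity
  · have := dn_nonneg x
    apply le_min <;> positivity

theorem K1_le (M : ℕ) (hM : 1 ≤ M) (x : ℝ) :
    K1 M x ≤ ∑ j ∈ range (Nat.log 2 M + 1), ((M : ℝ) / 2 ^ j) * (if dn x ≤ 2 ^ j / (M : ℝ) then 1 else 0) := by
  have hM0 : (0 : ℝ) < M := by exact_mod_cast hM
  have hex : ∃ j : ℕ, dn x ≤ 2 ^ j / (M : ℝ) := by
    refine ⟨Nat.log 2 M, ?_⟩
    have h1 : M < 2 ^ (Nat.log 2 M + 1) := Nat.lt_pow_succ_log_self (by norm_num) M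
    have h2 : (M : ℝ) < 2 ^ (Nat.log 2 M + 1) := by exact_mod_cast h1
    rw [le_div_iff₀ hM0]
    rw [pow_succ] at h2
    have h3 := dn_le_half x
    nlinarith
  classical
  have hJ : Nat.find hex ≤ Nat.log 2 M := by
    apply Nat.find_le
    have h1 : M < 2 ^ (Nat.log 2 M + 1) := Nat.lt_pow_succ_log_self (by norm_num) M
    have h2 : (M : ℝ) < 2 ^ (Nat.log 2 M + 1) := by exact_mod_cast h1
    rw [le_div_iff₀ hM0]
    rw [pow_succ] at h2
    have h3 := dn_le_half x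
    nlinarith
  have hspec := Nat.find_spec hex
  have hmin : ∀ k < Nat.find hex, ¬ dn x ≤ 2 ^ k / (M : ℝ) := fun k hk => Nat.find_min hex hk
  revert hJ hspec hmin
  generalize Nat.find hex = j
  intro hJ hspec hmin
  have h1 : K1 M x ≤ (M : ℝ) / 2 ^ j := by
    cases j with
    | zero =>
      rw [pow_zero, div_one]
      unfold K1
      split_ifs
      · exact le_rfl
      · exact min_le_left _ _
    | succ k =>
      have h2 := not_le.1 (hmin k (Nat.lt_succ_self k))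
      have h3 : (0 : ℝ) < 2 ^ k / (M : ℝ) := by positivity
      have h4 : dn x ≠ 0 := by
        intro h; rw [h] at h2; linarith
      have h5 : 0 < dn x := lt_trans h3 h2
      unfold K1
      rw [if_neg h4]
      refine (min_le_right _ _).trans ?_
      have h7 : 1 / (2 * dn x) ≤ 1 / (2 * (2 ^ k / (M : ℝ))) := by
        apply one_div_le_one_div_of_le
        · positivity
        · exact mul_le_mul_of_nonneg_left h2.le (by positivity)
      refine h7.trans (le_of_eq ?_)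
      rw [pow_succ]
      field_simp
  have h2 := Finset.single_le_sum (f := fun j : ℕ =>
    ((M : ℝ) / 2 ^ j) * (if dn x ≤ 2 ^ j / (M : ℝ) then (1 : ℝ) else 0))
    (s := range (Nat.log 2 M + 1)) (fun i _ => by split_ifs <;> positivity)
    (Finset.mem_range.2 (Nat.lt_succ_of_le hJ))
  refine le_trans ?_ h2
  rw [if_pos hspec, mul_one]
  exact h1

/-- the sum of the products of kernels -/
theorem sum_K1 {m : ℕ} (ξ : Fin m → ℝ) (hcnt : Cnt ξ) (τ : ℝ) (hτ : 0 < τ) : ∃ C : ℝ, 0 < C ∧ ∀ M : ℕ, 1 ≤ M →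
    ∀ N : ℕ, ∑ n ∈ Icc 1 N, ∏ i, K1 M ((n : ℝ) * ξ i) ≤ C * N * (M : ℝ) ^ τ * ((Nat.log 2 M : ℝ) + 1) ^ m := by
  classical
  obtain ⟨C, hC, hcnt⟩ := hcnt τ hτ
  refine ⟨C, hC, fun H hH N => ?_⟩
  have hH0 : (0 : ℝ) < H := by exact_mod_cast hH
  set J := Nat.log 2 H with hJ
  have hH2 : (2 : ℝ) ^ J ≤ H := by
    have : 2 ^ J ≤ H := Nat.pow_log_le_self 2 (by omega)
    exact_mod_cast this
  -- expansion of the product
  have h1 : ∀ n : ℕ, ∏ i, K1 H ((n : ℝ) * ξ i) ≤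
      ∑ p ∈ Fintype.piFinset (fun _ : Fin m => range (J + 1)),
        (∏ i, ((H : ℝ) / 2 ^ (p i))) *
          (if ∀ i, dn ((n : ℝ) * ξ i) ≤ 2 ^ (p i) / (H : ℝ) then 1 else 0) := by
    intro n
    refine (Finset.prod_le_prod (fun i _ => K1_nonneg _ _) fun i _ => K1_le H hH _).trans ?_
    rw [Finset.prod_univ_sum]
    refine Finset.sum_le_sum fun p _ => ?_
    rw [Finset.prod_mul_distrib, Finset.prod_boole]
    simp
  have h2 : ∀ p ∈ Fintype.piFinset (fun _ : Fin m => range (J + 1)),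
      ∑ n ∈ Icc 1 N, (∏ i, ((H : ℝ) / 2 ^ (p i))) *
        (if ∀ i, dn ((n : ℝ) * ξ i) ≤ 2 ^ (p i) / (H : ℝ) then 1 else 0) ≤
      C * N * (H : ℝ) ^ τ := by
    intro p hp
    rw [Fintype.mem_piFinset] at hp
    rw [← Finset.mul_sum, Finset.sum_boole]
    have h3 := hcnt H hH N (fun i => 2 ^ (p i) / (H : ℝ)) (fun i => by
      apply div_le_div_of_nonneg_right _ hH0.le
      exact one_le_pow₀ (by norm_num)) (fun i => by
      rw [div_le_one hH0]
      refine le_trans ?_ hH2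
      exact pow_le_pow_right₀ (by norm_num) (Nat.lt_succ_iff.1 (Finset.mem_range.1 (hp i))))
    have h4 : (0 : ℝ) ≤ ∏ i, ((H : ℝ) / 2 ^ (p i)) := by positivity
    refine (mul_le_mul_of_nonneg_left h3 h4).trans (le_of_eq ?_)
    have h5 : (∏ i, ((H : ℝ) / 2 ^ (p i))) * ∏ i, (2 ^ (p i) / (H : ℝ)) = 1 := by
      rw [← Finset.prod_mul_distrib]
      apply Finset.prod_eq_one
      intro i _
      field_simp
    calc _ = C * N * (H : ℝ) ^ τ * ((∏ i, ((H : ℝ) / 2 ^ (p i))) * ∏ i, (2 ^ (p i) / (H : ℝ))) := by ring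
      _ = _ := by rw [h5, mul_one]
  calc ∑ n ∈ Icc 1 N, ∏ i, K1 H ((n : ℝ) * ξ i)
      ≤ ∑ n ∈ Icc 1 N, ∑ p ∈ Fintype.piFinset (fun _ : Fin m => range (J + 1)),
        (∏ i, ((H : ℝ) / 2 ^ (p i))) *
          (if ∀ i, dn ((n : ℝ) * ξ i) ≤ 2 ^ (p i) / (H : ℝ) then 1 else 0) :=
        Finset.sum_le_sum fun n _ => h1 n
    _ = ∑ p ∈ Fintype.piFinset (fun _ : Fin m => range (J + 1)), ∑ n ∈ Icc 1 N,
        (∏ i, ((H : ℝ) / 2 ^ (p i))) *
          (if ∀ i, dn ((n : ℝ) * ξ i) ≤ 2 ^ (p i) / (H : ℝ) then 1 else 0) :=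
        Finset.sum_comm
    _ ≤ ∑ p ∈ Fintype.piFinset (fun _ : Fin m => range (J + 1)), C * N * (H : ℝ) ^ τ := Finset.sum_le_sum h2
    _ = C * N * (H : ℝ) ^ τ * ((J : ℝ) + 1) ^ m := by
        rw [Finset.sum_const, nsmul_eq_mul, Fintype.card_piFinset_const, Finset.card_range]
        push_cast
        ring

/-- partial summation -/
theorem part_sum (f : ℕ → ℝ) (N : ℕ) : ∑ n ∈ Icc 1 N, f n / n =
    (∑ n ∈ Icc 1 N, f n) / ((N : ℝ) + 1) + ∑ s ∈ Icc 1 N, (∑ n ∈ Icc 1 s, f n) / ((s : ℝ) * (s + 1)) := by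
  induction N with
  | zero => simp
  | succ N ih =>
    rw [Finset.sum_Icc_succ_top (by omega), ih, Finset.sum_Icc_succ_top (by omega : 1 ≤ N + 1) (fun s : ℕ =>
      (∑ n ∈ Icc 1 s, f n) / ((s : ℝ) * (s + 1))), Finset.sum_Icc_succ_top (by omega : 1 ≤ N + 1) f]
    push_cast
    have h1 : (N : ℝ) + 1 ≠ 0 := by positivity
    have h2 : (N : ℝ) + 1 + 1 ≠ 0 := by positivity
    field_simp
    ring

theorem part_le (f : ℕ → ℝ) (A : ℝ) (hA : 0 ≤ A) (N : ℕ) (h : ∀ s ≤ N, ∑ n ∈ Icc 1 s, f n ≤ A * s) :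
    ∑ n ∈ Icc 1 N, f n / n ≤ A * (2 + Real.log N) := by
  rw [part_sum]
  have h1 : (∑ n ∈ Icc 1 N, f n) / ((N : ℝ) + 1) ≤ A := by
    rw [div_le_iff₀ (by positivity)]
    have := h N le_rfl
    nlinarith
  have h2 : ∑ s ∈ Icc 1 N, (∑ n ∈ Icc 1 s, f n) / ((s : ℝ) * (s + 1)) ≤ ∑ s ∈ Icc 1 N, A * (1 / (s : ℝ)) := by
    refine Finset.sum_le_sum fun s hs => ?_
    rw [mem_Icc] at hs
    have hs0 : (0 : ℝ) < s := by exact_mod_cast (by omega : 0 < s)
    rw [div_le_iff₀ (by positivity)]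
    have h3 := h s hs.2
    calc ∑ n ∈ Icc 1 s, f n ≤ A * s := h3
      _ ≤ A * (s + 1) := by nlinarith
      _ = A * (1 / (s : ℝ)) * ((s : ℝ) * (s + 1)) := by field_simp
  have h3 : ∑ s ∈ Icc 1 N, A * (1 / (s : ℝ)) ≤ A * (1 + Real.log N) := by
    rw [← Finset.mul_sum]
    apply mul_le_mul_of_nonneg_left _ hA
    have h4 := harmonic_le_one_add_log N
    have h5 : ((harmonic N : ℚ) : ℝ) = ∑ n ∈ Icc 1 N, 1 / (n : ℝ) := by
      rw [harmonic_eq_sum_Icc]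
      push_cast
      exact Finset.sum_congr rfl fun n _ => by rw [one_div]
    rw [← h5]
    exact h4
  linarith

/-! ## the exponential sums -/

theorem e_eq (x : ℝ) : e x = Pool.Agent.N965.LN.Fej.e x := by
  unfold e Pool.Agent.N965.LN.Fej.e
  rw [mul_comm]

theorem e_int (n : ℤ) : e n = 1 := by rw [e_eq]; exact Pool.Agent.N965.LN.Fej.e_int n

theorem sym_sum (H : ℕ) (x : ℝ) : ‖∑ a ∈ Icc (-(H : ℤ)) H, e (a * x)‖ ≤ K1 (2 * H + 1) x := by
  have h1 : ∑ a ∈ Icc (-(H : ℤ)) H, e (a * x) = e (-(H : ℝ) * x) * Pool.Agent.N965.LN.Fej.D (2 * H + 1) x := by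
    unfold Pool.Agent.N965.LN.Fej.D
    rw [mul_sum]
    symm
    refine Finset.sum_bij (fun (k : ℕ) _ => (k : ℤ) - H) ?_ ?_ ?_ ?_
    · intro k hk
      rw [mem_range] at hk
      rw [mem_Icc]
      constructor <;> omega
    · intro k _ k' _ h
      omega
    · intro a ha
      rw [mem_Icc] at ha
      refine ⟨(a + H).toNat, ?_, ?_⟩
      · rw [mem_range]; omega
      · omega
    · intro k _
      rw [← e_eq, ← e_add]
      congr 1
      push_cast
      ring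
  rw [h1, norm_mul, norm_e, one_mul]
  unfold K1
  have h2 := Pool.Agent.N965.LN.Fej.D_le (2 * H + 1) x
  split_ifs with h
  · exact h2
  · exact le_min h2 (Pool.Agent.N965.LN.Fej.D_le' (2 * H + 1) h)

theorem zero_sum (b h : ℕ) (hb : 1 ≤ b) (hbh : ¬ b ∣ h) : ∑ a ∈ Ico (0 : ℤ) b, e (h * ((a : ℝ) / b)) = 0 := by
  have hb0 : (b : ℝ) ≠ 0 := by
    have : (0 : ℝ) < b := by exact_mod_cast hb
    exact this.ne'
  have h1 : ∑ a ∈ Ico (0 : ℤ) b, e (h * ((a : ℝ) / b)) = Pool.Agent.N965.LN.Fej.D b ((h : ℝ) / b) := by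
    unfold Pool.Agent.N965.LN.Fej.D
    symm
    refine Finset.sum_bij (fun (k : ℕ) _ => (k : ℤ)) ?_ ?_ ?_ ?_
    · intro k hk
      rw [mem_range] at hk
      rw [mem_Ico]
      constructor <;> omega
    · intro k _ k' _ h
      omega
    · intro a ha
      rw [mem_Ico] at ha
      refine ⟨a.toNat, ?_, ?_⟩
      · rw [mem_range]; omega
      · omega
    · intro k _
      rw [← e_eq]
      congr 1
      push_cast
      ring
  rw [h1]
  have h2 := Pool.Agent.N965.LN.Fej.D_mul b ((h : ℝ) / b)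
  have h3 : (b : ℝ) * ((h : ℝ) / b) = ((h : ℤ) : ℝ) := by
    push_cast
    field_simp
  rw [h3, Pool.Agent.N965.LN.Fej.e_int, sub_self] at h2
  rcases mul_eq_zero.1 h2 with h4 | h4
  · exfalso
    apply hbh
    have h5 : Pool.Agent.N965.LN.Fej.e ((h : ℝ) / b) = 1 := sub_eq_zero.1 h4
    unfold Pool.Agent.N965.LN.Fej.e at h5
    rw [Complex.exp_eq_one_iff] at h5
    obtain ⟨n, hn⟩ := h5
    have h6 : ((h : ℝ) / b : ℝ) = n := by
      have h7 : Complex.I * ((2 * Real.pi * ((h : ℝ) / b) : ℝ) : ℂ) = Complex.I * ((2 * Real.pi * (n : ℝ) : ℝ) : ℂ) := by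
        rw [hn]
        push_cast
        ring
      have h8 := mul_left_cancel₀ Complex.I_ne_zero h7
      have h9 : 2 * Real.pi * ((h : ℝ) / b) = 2 * Real.pi * (n : ℝ) := by exact_mod_cast h8
      exact mul_left_cancel₀ (by positivity) h9
    rw [div_eq_iff hb0] at h6
    have h7 : (h : ℤ) = n * b := by exact_mod_cast h6
    have h8 : (b : ℤ) ∣ (h : ℤ) := ⟨n, by rw [h7]; ring⟩
    exact_mod_cast h8
  · exact h4

/-- the coefficient vectors -/
noncomputable def co (m b H : ℕ) : Finset (ℤ × (Fin m → ℤ)) := (Ico (0 : ℤ) b) ×ˢ box m H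

theorem card_box (m H : ℕ) : (box m H).card = (2 * H + 1) ^ m := by
  unfold Pool.Agent.N965.LN.box
  rw [Fintype.card_piFinset_const, Int.card_Icc]
  congr 1
  omega

theorem card_co (m b H : ℕ) : (co m b H).card = b * (2 * H + 1) ^ m := by
  unfold co
  rw [Finset.card_product, card_box, Int.card_Ico]
  simp

theorem fam_sum {m : ℕ} (ξ : Fin m → ℝ) (b H h : ℕ) (β : ℝ) :
    ‖∑ x ∈ co m b H, e (h * (β + num ξ b x.1 x.2))‖ =
      ‖∑ a ∈ Ico (0 : ℤ) b, e (h * ((a : ℝ) / b))‖ *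
        ‖∑ a ∈ box m H, e (h * ((∑ i, (a i : ℝ) * ξ i) / b))‖ := by
  have h1 : ∑ x ∈ co m b H, e (h * (β + num ξ b x.1 x.2)) =
      e (h * β) * ((∑ a ∈ Ico (0 : ℤ) b, e (h * ((a : ℝ) / b))) *
        ∑ a ∈ box m H, e (h * ((∑ i, (a i : ℝ) * ξ i) / b))) := by
    rw [Finset.sum_mul_sum, ← Finset.sum_product', mul_sum]
    unfold co
    refine Finset.sum_congr rfl fun x _ => ?_
    rw [← e_add, ← e_add]
    congr 1
    unfold Pool.Agent.N965.LN.num
    ring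
  rw [h1, norm_mul, norm_mul, norm_e, one_mul]

theorem box_sum {m : ℕ} (ξ : Fin m → ℝ) (H : ℕ) (y : ℝ) :
    ‖∑ a ∈ box m H, e (y * ∑ i, (a i : ℝ) * ξ i)‖ ≤ ∏ i, K1 (2 * H + 1) (y * ξ i) := by
  have h1 : ∑ a ∈ box m H, e (y * ∑ i, (a i : ℝ) * ξ i) = ∏ i : Fin m, ∑ a ∈ Icc (-(H : ℤ)) H, e (a * (y * ξ i)) := by
    rw [Finset.prod_univ_sum]
    unfold Pool.Agent.N965.LN.box
    refine Finset.sum_congr rfl fun a _ => ?_
    rw [e_eq, Finset.mul_sum, Pool.Agent.N965.LN.Fej.e_sum]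
    refine Finset.prod_congr rfl fun i _ => ?_
    rw [← e_eq]
    congr 1
    ring
  rw [h1, norm_prod]
  exact Finset.prod_le_prod (fun i _ => norm_nonneg _) fun i _ => sym_sum H _

/-- the sum over the frequencies -/
theorem freq_sum {m : ℕ} (ξ : Fin m → ℝ) (b H : ℕ) (hb : 1 ≤ b) (β : ℝ) (K : ℕ) :
    ∑ h ∈ Icc 1 K, ‖∑ x ∈ co m b H, e (h * (β + num ξ b x.1 x.2))‖ / h ≤
      ∑ t ∈ Icc 1 (K / b), (∏ i, K1 (2 * H + 1) ((t : ℝ) * ξ i)) / t := by
  have hb0 : (0 : ℝ) < b := by exact_mod_cast hb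
  have h1 : ∑ h ∈ Icc 1 K, ‖∑ x ∈ co m b H, e (h * (β + num ξ b x.1 x.2))‖ / h =
      ∑ h ∈ (Icc 1 K).filter (fun h => b ∣ h), ‖∑ x ∈ co m b H, e (h * (β + num ξ b x.1 x.2))‖ / h := by
    rw [Finset.sum_filter]
    refine Finset.sum_congr rfl fun h _ => ?_
    split_ifs with hbh
    · rfl
    · rw [fam_sum, zero_sum b h hb hbh]
      simp
  have h2 : (Icc 1 K).filter (fun h => b ∣ h) = (Icc 1 (K / b)).image (fun t => b * t) := by
    ext h
    rw [mem_filter, mem_image, mem_Icc]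
    constructor
    · rintro ⟨⟨h3, h4⟩, t, rfl⟩
      refine ⟨t, ?_, rfl⟩
      rw [mem_Icc]
      refine ⟨?_, ?_⟩
      · rcases Nat.eq_zero_or_pos t with h5 | h5
        · rw [h5] at h3; omega
        · exact h5
      · rw [Nat.le_div_iff_mul_le (by omega)]
        rw [mul_comm]
        exact h4
    · rintro ⟨t, ht, rfl⟩
      rw [mem_Icc, Nat.le_div_iff_mul_le (by omega)] at ht
      refine ⟨⟨?_, ?_⟩, Dvd.intro t rfl⟩
      · exact Nat.mul_pos (by omega) (by omega)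
      · rw [mul_comm]; exact ht.2
  rw [h1, h2, Finset.sum_image (by
    intro t _ t' _ h
    exact Nat.eq_of_mul_eq_mul_left (by omega) h)]
  refine Finset.sum_le_sum fun t ht => ?_
  rw [mem_Icc] at ht
  have ht0 : (0 : ℝ) < t := by exact_mod_cast (by omega : 0 < t)
  rw [fam_sum]
  have h3 : ‖∑ a ∈ Ico (0 : ℤ) b, e (((b * t : ℕ) : ℝ) * ((a : ℝ) / b))‖ ≤ b := by
    refine (norm_sum_le _ _).trans ?_
    simp [norm_e]
  have h4 : ‖∑ a ∈ box m H, e (((b * t : ℕ) : ℝ) * ((∑ i, (a i : ℝ) * ξ i) / b))‖ ≤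
      ∏ i, K1 (2 * H + 1) ((t : ℝ) * ξ i) := by
    have h5 : ∀ y : ℝ, ((b * t : ℕ) : ℝ) * (y / b) = (t : ℝ) * y := by
      intro y
      push_cast
      field_simp
    simp only [h5]
    exact box_sum ξ H t
  have h5 : 0 ≤ ∏ i, K1 (2 * H + 1) ((t : ℝ) * ξ i) := Finset.prod_nonneg fun i _ => K1_nonneg _ _
  rw [div_le_div_iff₀ (by push_cast; positivity) ht0]
  calc ‖∑ a ∈ Ico (0 : ℤ) b, e (((b * t : ℕ) : ℝ) * ((a : ℝ) / b))‖ *
      ‖∑ a ∈ box m H, e (((b * t : ℕ) : ℝ) * ((∑ i, (a i : ℝ) * ξ i) / b))‖ * t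
      ≤ (b * ∏ i, K1 (2 * H + 1) ((t : ℝ) * ξ i)) * t := by
        apply mul_le_mul_of_nonneg_right _ ht0.le
        exact mul_le_mul h3 h4 (norm_nonneg _) hb0.le
    _ = (∏ i, K1 (2 * H + 1) ((t : ℝ) * ξ i)) * ((b * t : ℕ) : ℝ) := by push_cast; ring

end Pool.Agent.D0H53.PL
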