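import Pool.Agent.D0H53.PL.Dis

set_option autoImplicit false

/-!
# The number of the reduced fractions; the threshold `z / log q`; divergence
-/

open Finset hiding box
open Filter Topology

namespace Pool.Agent.D0H53.PL

open Pool.Agent.N965.LN (dn box num Cnt)

/-- the pairs -/
def Pr (Q1 Q2 : ℕ) (δ : ℕ → ℝ) (α : ℝ) : Set (ℤ × ℕ) :=
  {x | Q1 < x.2 ∧ x.2 ≤ Q2 ∧ IsCoprime x.1 (x.2 : ℤ) ∧ |α - (x.1 : ℝ) / x.2| ≤ δ x.2 / (x.2 : ℝ) ^ 2}

theorem pr_card (Q1 Q2 : ℕ) (δ : ℕ → ℝ) (α : ℝ) (h0 : ∀ q, Q1 < q → q ≤ Q2 → δ q ≤ 1 / 4) :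
    (Pr Q1 Q2 δ α).ncard = (Hs Q1 Q2 δ α).card := by
  classical
  set f : ℤ × ℕ → (Σ _ : ℕ, ℕ) := fun x => ⟨x.2, (x.1 % x.2).toNat⟩ with hf
  have hinj : Set.InjOn f (Pr Q1 Q2 δ α) := by
    rintro ⟨p, q⟩ ⟨h1, h2, -, h3⟩ ⟨p', q'⟩ ⟨-, -, -, h4⟩ h
    simp only [hf, Sigma.mk.injEq, heq_eq_eq] at h
    simp only at h1 h2 h3 h4
    obtain ⟨rfl, h5⟩ := h
    have hq : 0 < q := by omega
    have hqZ : (0 : ℤ) < q := by exact_mod_cast hq
    have hq0 : (0 : ℝ) < q := by exact_mod_cast hq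
    have hq1 : (1 : ℝ) ≤ q := by exact_mod_cast hq
    have h6 : p % q = p' % q := by
      have e1 := Int.emod_nonneg p hqZ.ne'
      have e2 := Int.emod_nonneg p' hqZ.ne'
      omega
    have h7 : (q : ℤ) ∣ p - p' := (Int.emod_eq_emod_iff_emod_sub_eq_zero.1 h6 |> Int.dvd_of_emod_eq_zero)
    have h8 : |(p : ℝ) / q - (p' : ℝ) / q| ≤ δ q / (q : ℝ) ^ 2 + δ q / (q : ℝ) ^ 2 := by
      have e1 : (p : ℝ) / q - (p' : ℝ) / q = (α - (p' : ℝ) / q) - (α - (p : ℝ) / q) := by ring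
      rw [e1]
      exact (abs_sub _ _).trans (add_le_add h4 h3)
    have h9 : |(p : ℝ) - p'| < q := by
      have e1 : (p : ℝ) / q - (p' : ℝ) / q = ((p : ℝ) - p') / q := by ring
      rw [e1, abs_div, abs_of_pos hq0, div_le_iff₀ hq0] at h8
      have e2 := h0 q h1 h2
      have e3 : (δ q / (q : ℝ) ^ 2 + δ q / (q : ℝ) ^ 2) * q = 2 * δ q / q := by
        field_simp
        ring
      rw [e3] at h8
      refine h8.trans_lt ?_
      rw [div_lt_iff₀ hq0]
      nlinarith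
    have h10 : |p - p'| < q := by
      have : ((|p - p'| : ℤ) : ℝ) < ((q : ℤ) : ℝ) := by push_cast; exact h9
      exact_mod_cast this
    have h11 := Int.eq_zero_of_abs_lt_dvd h7 h10
    rw [Prod.mk.injEq]
    exact ⟨by omega, rfl⟩
  have himg : f '' (Pr Q1 Q2 δ α) = ((Hs Q1 Q2 δ α : Finset _) : Set (Σ _ : ℕ, ℕ)) := by
    ext ⟨q, s⟩
    rw [Finset.mem_coe]
    unfold Hs
    rw [mem_filter, mem_fr]
    simp only [val]
    constructor
    · rintro ⟨⟨p, q'⟩, ⟨h1, h2, h3, h4⟩, h5⟩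
      simp only [hf, Sigma.mk.injEq, heq_eq_eq] at h5
      simp only at h1 h2 h3 h4
      obtain ⟨rfl, rfl⟩ := h5
      have hq : 0 < q' := by omega
      have hqZ : (0 : ℤ) < q' := by exact_mod_cast hq
      have hq0 : (0 : ℝ) < q' := by exact_mod_cast hq
      have e1 := Int.emod_nonneg p hqZ.ne'
      have e2 := Int.emod_lt_of_pos p hqZ
      have e3 : (((p % q').toNat : ℕ) : ℤ) = p % q' := Int.toNat_of_nonneg e1
      have e4 : p % q' + q' * (p / q') = p := Int.emod_add_mul_ediv p q'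
      refine ⟨⟨⟨h1, h2⟩, by omega, ?_⟩, ?_⟩
      · rw [← Nat.isCoprime_iff_coprime, e3]
        have e5 : IsCoprime (p % (q' : ℤ) + q' * (p / q')) (q' : ℤ) := by rw [e4]; exact h3
        exact (IsCoprime.add_mul_left_left_iff).1 e5
      · refine (dn_le _ (p / q')).trans ?_
        have e5 : α - ((((p % q').toNat : ℕ)) : ℝ) / q' - ((p / q' : ℤ) : ℝ) = α - (p : ℝ) / q' := by
          have e6 : ((((p % q').toNat : ℕ)) : ℝ) = ((p % q' : ℤ) : ℝ) := by exact_mod_cast congrArg (fun z : ℤ => (z : ℝ)) e3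
          have e7 : (p : ℝ) = ((p % q' : ℤ) : ℝ) + q' * ((p / q' : ℤ) : ℝ) := by exact_mod_cast e4.symm
          rw [e6]
          rw [e7]
          field_simp
          ring
        rw [e5]
        exact h4
    · rintro ⟨⟨⟨h1, h2⟩, h3, h4⟩, h5⟩
      have hq : 0 < q := by omega
      have hqZ : (0 : ℤ) < q := by exact_mod_cast hq
      have hq0 : (0 : ℝ) < q := by exact_mod_cast hq
      refine ⟨((s : ℤ) + round (α - (s : ℝ) / q) * q, q), ⟨h1, h2, ?_, ?_⟩, ?_⟩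
      · simp only
        rw [IsCoprime.add_mul_right_left_iff, Nat.isCoprime_iff_coprime]
        exact h4
      · simp only
        have e1 : α - ((((s : ℤ) + round (α - (s : ℝ) / q) * q : ℤ)) : ℝ) / q =
            (α - (s : ℝ) / q) - round (α - (s : ℝ) / q) := by
          push_cast
          field_simp
          ring
        rw [e1]
        exact h5
      · simp only [hf]
        have e1 : ((s : ℤ) + round (α - (s : ℝ) / q) * q) % q = s := by
          rw [Int.add_mul_emod_self_right]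
          exact Int.emod_eq_of_lt (by omega) (by omega)
        rw [e1]
        simp
  rw [← hinj.ncard_image, himg, Set.ncard_coe_finset]

/-! ## sums of `1 / (n log n)` -/

theorem ll_lower (n : ℕ) (hn : 2 ≤ n) :
    Real.log (Real.log ((n : ℝ) + 1)) - Real.log (Real.log n) ≤ 1 / ((n : ℝ) * Real.log n) := by
  have hn2 : (2 : ℝ) ≤ n := by exact_mod_cast hn
  have hl : 0 < Real.log n := Real.log_pos (by linarith)
  have hl' : 0 < Real.log ((n : ℝ) + 1) := Real.log_pos (by linarith)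
  rw [← Real.log_div hl'.ne' hl.ne']
  refine (Real.log_le_sub_one_of_pos (by positivity)).trans ?_
  have h1 : Real.log ((n : ℝ) + 1) - Real.log n ≤ 1 / n := by
    rw [← Real.log_div (by linarith) (by linarith)]
    refine (Real.log_le_sub_one_of_pos (by positivity)).trans (le_of_eq ?_)
    field_simp
    ring
  have h2 : Real.log ((n : ℝ) + 1) / Real.log n - 1 = (Real.log ((n : ℝ) + 1) - Real.log n) / Real.log n := by
    field_simp
  rw [h2, div_le_iff₀ hl]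
  refine h1.trans (le_of_eq ?_)
  field_simp

theorem ll_upper (n : ℕ) (hn : 2 ≤ n) :
    1 / (((n : ℝ) + 1) * Real.log ((n : ℝ) + 1)) ≤ Real.log (Real.log ((n : ℝ) + 1)) - Real.log (Real.log n) := by
  have hn2 : (2 : ℝ) ≤ n := by exact_mod_cast hn
  have hl : 0 < Real.log n := Real.log_pos (by linarith)
  have hl' : 0 < Real.log ((n : ℝ) + 1) := Real.log_pos (by linarith)
  have h0 : Real.log (Real.log n) - Real.log (Real.log ((n : ℝ) + 1)) ≤
      -(1 / (((n : ℝ) + 1) * Real.log ((n : ℝ) + 1))) := by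
    rw [← Real.log_div hl.ne' hl'.ne']
    refine (Real.log_le_sub_one_of_pos (by positivity)).trans ?_
    have h1 : Real.log n - Real.log ((n : ℝ) + 1) ≤ -(1 / ((n : ℝ) + 1)) := by
      rw [← Real.log_div (by linarith) (by linarith)]
      refine (Real.log_le_sub_one_of_pos (by positivity)).trans (le_of_eq ?_)
      field_simp
      ring
    have h2 : Real.log n / Real.log ((n : ℝ) + 1) - 1 = (Real.log n - Real.log ((n : ℝ) + 1)) / Real.log ((n : ℝ) + 1) := by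
      field_simp
    rw [h2, div_le_iff₀ hl']
    refine h1.trans (le_of_eq ?_)
    field_simp
  linarith

theorem ll_sum (Q1 Q2 : ℕ) (h1 : 2 ≤ Q1) (h2 : Q1 ≤ Q2) :
    Real.log (Real.log ((Q2 : ℝ) + 1)) - Real.log (Real.log ((Q1 : ℝ) + 1)) ≤
      ∑ n ∈ Ioc Q1 Q2, 1 / ((n : ℝ) * Real.log n) ∧
    ∑ n ∈ Ioc Q1 Q2, 1 / ((n : ℝ) * Real.log n) ≤ Real.log (Real.log Q2) - Real.log (Real.log Q1) := by
  induction Q2, h2 using Nat.le_induction with
  | base => simp
  | succ n hn ih =>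
    rw [Finset.sum_Ioc_succ_top (by omega)]
    have h3 := ll_lower (n + 1) (by omega)
    have h4 := ll_upper n (by omega)
    push_cast at h3 h4 ⊢
    constructor
    · linarith [ih.1]
    · linarith [ih.2]

theorem ratio_tendsto (a : ℝ) (u : ℕ → ℝ)
    (h : ∀ᶠ N : ℕ in atTop, |u N - a * Real.log N| ≤ Real.log 2) :
    Tendsto (fun N : ℕ => u N / Real.log N) atTop (𝓝 a) := by
  have hlog : Tendsto (fun N : ℕ => Real.log (N : ℝ)) atTop atTop :=
    Real.tendsto_log_atTop.comp tendsto_natCast_atTop_atTop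
  rw [tendsto_iff_norm_sub_tendsto_zero]
  have h1 : Tendsto (fun N : ℕ => Real.log 2 / Real.log (N : ℝ)) atTop (𝓝 0) := hlog.const_div_atTop _
  refine squeeze_zero' (Eventually.of_forall fun N => norm_nonneg _) ?_ h1
  filter_upwards [h, hlog.eventually_gt_atTop 0] with N hN hN0
  have h2 : u N / Real.log N - a = (u N - a * Real.log N) / Real.log N := by
    field_simp
  rw [h2, Real.norm_eq_abs, abs_div, abs_of_pos hN0]
  exact div_le_div_of_nonneg_right hN hN0.le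

theorem pow_tendsto (a : ℝ) (ha : 0 < a) : Tendsto (fun N : ℕ => (N : ℝ) ^ a) atTop atTop :=
  (tendsto_rpow_atTop ha).comp tendsto_natCast_atTop_atTop

theorem floor_log (a : ℝ) (ha : 0 < a) :
    Tendsto (fun N : ℕ => Real.log (⌊(N : ℝ) ^ a⌋₊ : ℝ) / Real.log N) atTop (𝓝 a) ∧
    Tendsto (fun N : ℕ => Real.log ((⌊(N : ℝ) ^ a⌋₊ : ℝ) + 1) / Real.log N) atTop (𝓝 a) := by
  constructor
  · apply ratio_tendsto
    filter_upwards [(pow_tendsto a ha).eventually_ge_atTop 2, eventually_ge_atTop 1] with N hN hN1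
    have hNp : (0 : ℝ) < N := by exact_mod_cast hN1
    have h1 : ((⌊(N : ℝ) ^ a⌋₊ : ℕ) : ℝ) ≤ (N : ℝ) ^ a := Nat.floor_le (by positivity)
    have h2 : (N : ℝ) ^ a < ((⌊(N : ℝ) ^ a⌋₊ : ℕ) : ℝ) + 1 := Nat.lt_floor_add_one _
    have h3 : (N : ℝ) ^ a / 2 ≤ ((⌊(N : ℝ) ^ a⌋₊ : ℕ) : ℝ) := by linarith
    have h4 : 0 < (N : ℝ) ^ a / 2 := by positivity
    have h5 := Real.log_le_log (by linarith) h1
    have h6 := Real.log_le_log h4 h3
    rw [Real.log_div (by positivity) (by norm_num), Real.log_rpow hNp] at h6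
    rw [Real.log_rpow hNp] at h5
    have h7 : 0 < Real.log 2 := Real.log_pos (by norm_num)
    rw [abs_le]
    constructor <;> linarith
  · apply ratio_tendsto
    filter_upwards [(pow_tendsto a ha).eventually_ge_atTop 2, eventually_ge_atTop 1] with N hN hN1
    have hNp : (0 : ℝ) < N := by exact_mod_cast hN1
    have h1 : ((⌊(N : ℝ) ^ a⌋₊ : ℕ) : ℝ) ≤ (N : ℝ) ^ a := Nat.floor_le (by positivity)
    have h2 : (N : ℝ) ^ a < ((⌊(N : ℝ) ^ a⌋₊ : ℕ) : ℝ) + 1 := Nat.lt_floor_add_one _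
    have h3 : ((⌊(N : ℝ) ^ a⌋₊ : ℕ) : ℝ) + 1 ≤ 2 * (N : ℝ) ^ a := by linarith
    have h5 := Real.log_le_log (by linarith) h3
    have h6 := Real.log_le_log (by positivity) h2.le
    rw [Real.log_mul (by norm_num) (by positivity), Real.log_rpow hNp] at h5
    rw [Real.log_rpow hNp] at h6
    have h7 : 0 < Real.log 2 := Real.log_pos (by norm_num)
    rw [abs_le]
    constructor <;> linarith

theorem floor_atTop (a : ℝ) (ha : 0 < a) : Tendsto (fun N : ℕ => ⌊(N : ℝ) ^ a⌋₊) atTop atTop :=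
  tendsto_nat_floor_atTop.comp (pow_tendsto a ha)

theorem lang_mean (a c : ℝ) (ha : 0 < a) (hac : a < c) :
    Tendsto (fun N : ℕ => ∑ n ∈ Ioc ⌊(N : ℝ) ^ a⌋₊ ⌊(N : ℝ) ^ c⌋₊, 1 / ((n : ℝ) * Real.log n)) atTop
      (𝓝 (Real.log (c / a))) := by
  have hc : 0 < c := ha.trans hac
  obtain ⟨a1, a2⟩ := floor_log a ha
  obtain ⟨c1, c2⟩ := floor_log c hc
  have hlog : Tendsto (fun N : ℕ => Real.log (N : ℝ)) atTop atTop :=
    Real.tendsto_log_atTop.comp tendsto_natCast_atTop_atTop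
  have hlim : Real.log (c / a) = Real.log c - Real.log a := Real.log_div hc.ne' ha.ne'
  have hup := (c1.log hc.ne').sub (a1.log ha.ne')
  have hlo := (c2.log hc.ne').sub (a2.log ha.ne')
  rw [← hlim] at hup hlo
  have hev : ∀ᶠ N : ℕ in atTop, 2 ≤ ⌊(N : ℝ) ^ a⌋₊ ∧ ⌊(N : ℝ) ^ a⌋₊ ≤ ⌊(N : ℝ) ^ c⌋₊ ∧ 0 < Real.log (N : ℝ) := by
    filter_upwards [(floor_atTop a ha).eventually_ge_atTop 2, eventually_ge_atTop 1,
      hlog.eventually_gt_atTop 0] with N h1 h2 h3
    refine ⟨h1, ?_, h3⟩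
    apply Nat.floor_le_floor
    exact Real.rpow_le_rpow_of_exponent_le (by exact_mod_cast h2) hac.le
  have hdiv : ∀ (x y l : ℝ), 0 < x → 0 < y → 0 < l →
      Real.log (x / l) - Real.log (y / l) = Real.log x - Real.log y := by
    intro x y l hx hy hl
    rw [Real.log_div hx.ne' hl.ne', Real.log_div hy.ne' hl.ne']
    ring
  refine tendsto_of_tendsto_of_tendsto_of_le_of_le' hlo hup ?_ ?_
  · filter_upwards [hev] with N ⟨h1, h2, h3⟩
    have h4 : (2 : ℝ) ≤ (⌊(N : ℝ) ^ a⌋₊ : ℝ) := by exact_mod_cast h1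
    have h5 : (2 : ℝ) ≤ (⌊(N : ℝ) ^ c⌋₊ : ℝ) := by exact_mod_cast h1.trans h2
    rw [hdiv _ _ _ (Real.log_pos (by linarith)) (Real.log_pos (by linarith)) h3]
    exact (ll_sum _ _ h1 h2).1
  · filter_upwards [hev] with N ⟨h1, h2, h3⟩
    have h4 : (2 : ℝ) ≤ (⌊(N : ℝ) ^ a⌋₊ : ℝ) := by exact_mod_cast h1
    have h5 : (2 : ℝ) ≤ (⌊(N : ℝ) ^ c⌋₊ : ℝ) := by exact_mod_cast h1.trans h2
    rw [hdiv _ _ _ (Real.log_pos (by linarith)) (Real.log_pos (by linarith)) h3]
    exact (ll_sum _ _ h1 h2).2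

end Pool.Agent.D0H53.PL
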