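import Mathlib

set_option autoImplicit false

/-!
# Möbius sums and partial summation
-/

open Finset Filter Topology

namespace Pool.Agent.D0H53.PL

/-- the Moebius function as a real number -/
noncomputable def mu (n : ℕ) : ℝ := ((ArithmeticFunction.moebius n : ℤ) : ℝ)

theorem abs_mu_le (n : ℕ) : |mu n| ≤ 1 := by
  unfold mu
  have h := ArithmeticFunction.abs_moebius_le_one (n := n)
  have h2 : |((ArithmeticFunction.moebius n : ℤ) : ℝ)| = ((|ArithmeticFunction.moebius n| : ℤ) : ℝ) := by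
    push_cast
    rfl
  rw [h2]
  exact_mod_cast h

theorem mu_hasSum : HasSum (fun d : ℕ => mu d * (1 / (d : ℝ) ^ 2)) (6 / Real.pi ^ 2) := by
  have h2 : (1 : ℝ) < (2 : ℂ).re := by norm_num
  have hs : LSeriesSummable (fun n => ((ArithmeticFunction.moebius n : ℤ) : ℂ)) 2 :=
    ArithmeticFunction.LSeriesSummable_moebius_iff.mpr h2
  have hL := ArithmeticFunction.LSeries_zeta_mul_Lseries_moebius h2
  rw [ArithmeticFunction.LSeries_zeta_eq_riemannZeta h2, riemannZeta_two] at hL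
  have hpi : (Real.pi : ℂ) ≠ 0 := by exact_mod_cast Real.pi_ne_zero
  have hval : LSeries (fun n => ((ArithmeticFunction.moebius n : ℤ) : ℂ)) 2 = 6 / (Real.pi : ℂ) ^ 2 := by
    field_simp
    field_simp at hL
    linear_combination hL
  have hsum := hs.LSeriesHasSum
  rw [hval] at hsum
  have h3 : HasSum (fun d : ℕ => ((mu d * (1 / (d : ℝ) ^ 2) : ℝ) : ℂ)) (((6 / Real.pi ^ 2 : ℝ)) : ℂ) := by
    have e : (((6 / Real.pi ^ 2 : ℝ)) : ℂ) = 6 / (Real.pi : ℂ) ^ 2 := by push_cast; ring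
    rw [e]
    unfold LSeriesHasSum at hsum
    refine hsum.congr_fun ?_
    intro d
    rcases eq_or_ne d 0 with rfl | hd
    · simp [mu]
    · rw [LSeries.term_of_ne_zero hd]
      unfold mu
      push_cast
      rw [show ((d : ℂ) ^ (2 : ℂ)) = (d : ℂ) ^ (2 : ℕ) by norm_cast]
      ring
  exact Complex.hasSum_ofReal.mp h3

theorem inv_sq_le (n : ℕ) (hn : 1 ≤ n) : 1 / ((n : ℝ) + 1) ^ 2 ≤ 1 / (n : ℝ) - 1 / ((n : ℝ) + 1) := by
  have h0 : (0 : ℝ) < n := by exact_mod_cast hn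
  rw [div_sub_div _ _ h0.ne' (by positivity), div_le_div_iff₀ (by positivity) (by positivity)]
  nlinarith

theorem mu_tail (D : ℕ) (hD : 1 ≤ D) :
    |∑ d ∈ Icc 1 D, mu d * (1 / (d : ℝ) ^ 2) - 6 / Real.pi ^ 2| ≤ 1 / (D : ℝ) := by
  have h0 : ∀ n, ∑ d ∈ Icc 1 n, mu d * (1 / (d : ℝ) ^ 2) = ∑ d ∈ range (n + 1), mu d * (1 / (d : ℝ) ^ 2) := by
    intro n
    rw [Finset.sum_range_succ', Finset.range_eq_Ico, Finset.sum_Ico_add' (fun d : ℕ => mu d * (1 / (d : ℝ) ^ 2)) 0 n 1]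
    have : mu 0 = 0 := by simp [mu]
    rw [this]
    simp only [zero_add, zero_mul, add_zero]
    rfl
  have h1 : ∀ n, D ≤ n → |∑ d ∈ Icc 1 D, mu d * (1 / (d : ℝ) ^ 2) -
      ∑ d ∈ Icc 1 n, mu d * (1 / (d : ℝ) ^ 2)| ≤ 1 / (D : ℝ) - 1 / (n : ℝ) := by
    intro n hn
    induction n, hn using Nat.le_induction with
    | base => simp
    | succ n hn ih =>
      rw [Finset.sum_Icc_succ_top (by omega)]
      have h2 : |mu (n + 1) * (1 / ((n + 1 : ℕ) : ℝ) ^ 2)| ≤ 1 / (n : ℝ) - 1 / ((n : ℝ) + 1) := by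
        rw [abs_mul, abs_of_nonneg (by positivity : (0 : ℝ) ≤ 1 / ((n + 1 : ℕ) : ℝ) ^ 2)]
        calc |mu (n + 1)| * (1 / ((n + 1 : ℕ) : ℝ) ^ 2) ≤ 1 * (1 / ((n + 1 : ℕ) : ℝ) ^ 2) :=
              mul_le_mul_of_nonneg_right (abs_mu_le _) (by positivity)
          _ = 1 / ((n : ℝ) + 1) ^ 2 := by push_cast; ring
          _ ≤ _ := inv_sq_le n (by omega)
      have h3 := abs_sub_le_iff.1 ih
      have h4 := abs_le.1 h2
      push_cast at *
      rw [abs_le]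
      constructor <;> linarith [h3.1, h3.2, h4.1, h4.2]
  have h2 : Tendsto (fun n : ℕ => |∑ d ∈ Icc 1 D, mu d * (1 / (d : ℝ) ^ 2) -
      ∑ d ∈ Icc 1 n, mu d * (1 / (d : ℝ) ^ 2)|) atTop
      (𝓝 |∑ d ∈ Icc 1 D, mu d * (1 / (d : ℝ) ^ 2) - 6 / Real.pi ^ 2|) := by
    refine (tendsto_const_nhds.sub ?_).abs
    have h3 := mu_hasSum.tendsto_sum_nat
    have h4 := h3.comp (tendsto_add_atTop_nat 1)
    refine h4.congr fun n => ?_
    simp only [Function.comp]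
    rw [h0 n]
  refine le_of_tendsto h2 ?_
  filter_upwards [eventually_ge_atTop D] with n hn
  refine (h1 n hn).trans ?_
  have : (0 : ℝ) ≤ 1 / (n : ℝ) := by positivity
  linarith

theorem sqrt_step (n : ℕ) : 1 / ((n : ℝ) + 1) ≤ 2 * (Real.sqrt ((n : ℝ) + 1) - Real.sqrt n) := by
  have h0 : (0 : ℝ) ≤ n := Nat.cast_nonneg n
  have h1 : 0 ≤ Real.sqrt n := Real.sqrt_nonneg _
  have h2 : 1 ≤ Real.sqrt ((n : ℝ) + 1) := by
    rw [Real.one_le_sqrt]
    linarith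
  have h3 := Real.sq_sqrt h0
  have h4 := Real.sq_sqrt (by linarith : (0 : ℝ) ≤ (n : ℝ) + 1)
  have h5 : Real.sqrt n ≤ Real.sqrt ((n : ℝ) + 1) := Real.sqrt_le_sqrt (by linarith)
  set a := Real.sqrt n
  set b := Real.sqrt ((n : ℝ) + 1)
  have h6 : (b - a) * (b + a) = 1 := by nlinarith
  rw [← h4, div_le_iff₀ (by positivity)]
  have h7 : 1 ≤ (b - a) * (2 * b) := by nlinarith
  nlinarith

theorem harm_le (D : ℕ) : ∑ d ∈ Icc 1 D, 1 / (d : ℝ) ≤ 2 * Real.sqrt D := by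
  induction D with
  | zero => simp
  | succ n ih =>
    rw [Finset.sum_Icc_succ_top (by omega)]
    have := sqrt_step n
    push_cast
    linarith

/-- Moebius sums over truncated quadratic counting functions -/
theorem mobius_sum (B : ℕ → ℝ) (D : ℕ) (hD : 1 ≤ D) (y ρ K : ℝ) (hy : (D : ℝ) ≤ y) (hy' : y < D + 1)
    (hρ : 0 ≤ ρ) (hρ1 : ρ ≤ 1) (hK : 0 ≤ K)
    (hB : ∀ d ∈ Icc 1 D, |B d - ρ * (y / d) ^ 2| ≤ K * (y / d)) :
    |∑ d ∈ Icc 1 D, mu d * B d - 6 / Real.pi ^ 2 * ρ * y ^ 2| ≤ (2 * K + 2) * (y * Real.sqrt y) := by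
  have hD0 : (1 : ℝ) ≤ D := by exact_mod_cast hD
  have hy0 : 1 ≤ y := hD0.trans hy
  have hy1 : 1 ≤ Real.sqrt y := by rwa [Real.one_le_sqrt]
  have h1 : |∑ d ∈ Icc 1 D, mu d * B d - ∑ d ∈ Icc 1 D, mu d * (ρ * (y / d) ^ 2)| ≤
      K * y * (2 * Real.sqrt D) := by
    rw [← Finset.sum_sub_distrib]
    refine (Finset.abs_sum_le_sum_abs _ _).trans ?_
    have h2 : ∀ d ∈ Icc 1 D, |mu d * B d - mu d * (ρ * (y / d) ^ 2)| ≤ K * y * (1 / (d : ℝ)) := by
      intro d hd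
      rw [← mul_sub, abs_mul]
      calc |mu d| * |B d - ρ * (y / d) ^ 2| ≤ 1 * (K * (y / d)) :=
            mul_le_mul (abs_mu_le d) (hB d hd) (abs_nonneg _) zero_le_one
        _ = K * y * (1 / (d : ℝ)) := by ring
    refine (Finset.sum_le_sum h2).trans ?_
    rw [← Finset.mul_sum]
    exact mul_le_mul_of_nonneg_left (harm_le D) (by positivity)
  have h2 : ∑ d ∈ Icc 1 D, mu d * (ρ * (y / d) ^ 2) = ρ * y ^ 2 * ∑ d ∈ Icc 1 D, mu d * (1 / (d : ℝ) ^ 2) := by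
    rw [Finset.mul_sum]
    refine Finset.sum_congr rfl fun d hd => ?_
    rw [div_pow]
    ring
  rw [h2] at h1
  have h3 := mu_tail D hD
  have h4 : |ρ * y ^ 2 * ∑ d ∈ Icc 1 D, mu d * (1 / (d : ℝ) ^ 2) - 6 / Real.pi ^ 2 * ρ * y ^ 2| ≤
      ρ * y ^ 2 * (1 / D) := by
    rw [show ρ * y ^ 2 * ∑ d ∈ Icc 1 D, mu d * (1 / (d : ℝ) ^ 2) - 6 / Real.pi ^ 2 * ρ * y ^ 2 =
      ρ * y ^ 2 * (∑ d ∈ Icc 1 D, mu d * (1 / (d : ℝ) ^ 2) - 6 / Real.pi ^ 2) by ring, abs_mul,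
      abs_of_nonneg (by positivity : 0 ≤ ρ * y ^ 2)]
    exact mul_le_mul_of_nonneg_left h3 (by positivity)
  have h5 : Real.sqrt D ≤ Real.sqrt y := Real.sqrt_le_sqrt hy
  have h6 : ρ * y ^ 2 * (1 / D) ≤ 2 * (y * Real.sqrt y) := by
    have h7 : y ^ 2 * (1 / D) ≤ 2 * y := by
      rw [mul_one_div, div_le_iff₀ (by positivity)]
      nlinarith
    calc ρ * y ^ 2 * (1 / D) = ρ * (y ^ 2 * (1 / D)) := by ring
      _ ≤ 1 * (2 * y) := mul_le_mul hρ1 h7 (by positivity) zero_le_one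
      _ ≤ 2 * (y * Real.sqrt y) := by nlinarith
  have h8 : K * y * (2 * Real.sqrt D) ≤ 2 * K * (y * Real.sqrt y) := by
    have : K * y * (2 * Real.sqrt D) ≤ K * y * (2 * Real.sqrt y) :=
      mul_le_mul_of_nonneg_left (by linarith) (by positivity)
    linarith
  calc |∑ d ∈ Icc 1 D, mu d * B d - 6 / Real.pi ^ 2 * ρ * y ^ 2|
      ≤ |∑ d ∈ Icc 1 D, mu d * B d - ρ * y ^ 2 * ∑ d ∈ Icc 1 D, mu d * (1 / (d : ℝ) ^ 2)| +
        |ρ * y ^ 2 * ∑ d ∈ Icc 1 D, mu d * (1 / (d : ℝ) ^ 2) - 6 / Real.pi ^ 2 * ρ * y ^ 2| :=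
        abs_sub_le _ _ _
    _ ≤ _ := by linarith

/-- partial summation: the error term -/
theorem psum_err (e g : ℕ → ℝ) (K G : ℝ) (n0 Q : ℕ) (hn0 : 1 ≤ n0) (hQ : n0 ≤ Q) (hK : 0 ≤ K)
    (he : ∀ n, |e n| ≤ K * (n * Real.sqrt n)) (hg : ∀ m n, n0 ≤ m → m ≤ n → n ≤ Q → g n ≤ g m)
    (hg0 : ∀ n, n0 ≤ n → n ≤ Q → 0 ≤ g n) (hgG : ∀ n, n0 ≤ n → n ≤ Q → g n ≤ G) :
    |∑ i ∈ Icc n0 Q, (e i - e (i - 1)) * (g i / (i : ℝ) ^ 2)| ≤ 6 * K * G / Real.sqrt n0 := by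
  set w : ℕ → ℝ := fun i => g i / (i : ℝ) ^ 2 with hw
  have hn00 : (0 : ℝ) < n0 := by exact_mod_cast hn0
  have hsn : 0 < Real.sqrt n0 := Real.sqrt_pos.2 hn00
  have hG : 0 ≤ G := (hg0 n0 le_rfl hQ).trans (hgG n0 le_rfl hQ)
  have hwG : ∀ n, n0 ≤ n → n ≤ Q → (n : ℝ) * Real.sqrt n * w n ≤ G / Real.sqrt n := by
    intro n hn hnQ
    have h0 : (0 : ℝ) < n := by exact_mod_cast (by omega : 0 < n)
    have h1 : 0 < Real.sqrt n := Real.sqrt_pos.2 h0
    have h2 := Real.sq_sqrt h0.le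
    rw [hw]
    simp only
    rw [le_div_iff₀ h1]
    calc (n : ℝ) * Real.sqrt n * (g n / (n : ℝ) ^ 2) * Real.sqrt n = n * (Real.sqrt n) ^ 2 * (g n / (n : ℝ) ^ 2) := by
          ring
      _ = g n := by rw [h2]; field_simp
      _ ≤ G := hgG n hn hnQ
  have hw0 : ∀ n, n0 ≤ n → n ≤ Q → 0 ≤ w n := fun n hn hnQ => div_nonneg (hg0 n hn hnQ) (by positivity)
  have hwm : ∀ n, n0 ≤ n → n + 1 ≤ Q → w (n + 1) ≤ w n := by
    intro n hn hnQ
    have h0 : (0 : ℝ) < n := by exact_mod_cast (by omega : 0 < n)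
    simp only [hw]
    apply div_le_div₀ (hg0 n hn (by omega)) (hg n (n + 1) hn (by omega) hnQ) (by positivity)
    push_cast
    nlinarith
  have key : ∀ n, n0 ≤ n → n ≤ Q →
      |∑ i ∈ Icc n0 n, (e i - e (i - 1)) * w i - e n * w n| + K * (n * Real.sqrt n) * w n ≤
        K * (6 * G / Real.sqrt n0 - 4 * G / Real.sqrt n) := by
    intro n hn
    induction n, hn using Nat.le_induction with
    | base =>
      intro _
      rw [Finset.Icc_self, Finset.sum_singleton]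
      have h1 : (e n0 - e (n0 - 1)) * w n0 - e n0 * w n0 = -(e (n0 - 1) * w n0) := by ring
      rw [h1, abs_neg, abs_mul, abs_of_nonneg (hw0 n0 le_rfl hQ)]
      have h2 := he (n0 - 1)
      have h3 : ((n0 - 1 : ℕ) : ℝ) * Real.sqrt ((n0 - 1 : ℕ) : ℝ) ≤ n0 * Real.sqrt n0 := by
        have h4 : ((n0 - 1 : ℕ) : ℝ) ≤ n0 := by exact_mod_cast Nat.sub_le n0 1
        exact mul_le_mul h4 (Real.sqrt_le_sqrt h4) (Real.sqrt_nonneg _) hn00.le
      have h5 : |e (n0 - 1)| * w n0 ≤ K * (n0 * Real.sqrt n0) * w n0 :=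
        mul_le_mul_of_nonneg_right (h2.trans (mul_le_mul_of_nonneg_left h3 hK)) (hw0 n0 le_rfl hQ)
      have h6 := mul_le_mul_of_nonneg_left (hwG n0 le_rfl hQ) hK
      have h7 : K * (6 * G / Real.sqrt n0 - 4 * G / Real.sqrt n0) = 2 * (K * (G / Real.sqrt n0)) := by ring
      rw [h7]
      have h8 : K * (n0 * Real.sqrt n0) * w n0 = K * ((n0 : ℝ) * Real.sqrt n0 * w n0) := by ring
      rw [h8] at h5 ⊢
      linarith
    | succ n hn ih =>
      intro hnQ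
      have ih' := ih (by omega)
      have h0 : (0 : ℝ) < n := by exact_mod_cast (by omega : 0 < n)
      rw [Finset.sum_Icc_succ_top (by omega), Nat.add_sub_cancel]
      have h1 : ∑ i ∈ Icc n0 n, (e i - e (i - 1)) * w i + (e (n + 1) - e n) * w (n + 1) - e (n + 1) * w (n + 1) =
          (∑ i ∈ Icc n0 n, (e i - e (i - 1)) * w i - e n * w n) + e n * (w n - w (n + 1)) := by ring
      rw [h1]
      have h2 : |e n * (w n - w (n + 1))| ≤ K * (n * Real.sqrt n) * (w n - w (n + 1)) := by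
        rw [abs_mul, abs_of_nonneg (sub_nonneg.2 (hwm n hn hnQ))]
        exact mul_le_mul_of_nonneg_right (he n) (sub_nonneg.2 (hwm n hn hnQ))
      have h3 := abs_add_le (∑ i ∈ Icc n0 n, (e i - e (i - 1)) * w i - e n * w n) (e n * (w n - w (n + 1)))
      -- the increment
      have h4 : (((n + 1 : ℕ) : ℝ) * Real.sqrt ((n + 1 : ℕ) : ℝ) - n * Real.sqrt n) * w (n + 1) ≤
          4 * G / Real.sqrt n - 4 * G / Real.sqrt ((n + 1 : ℕ) : ℝ) := by
        push_cast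
        have ha : 0 < Real.sqrt n := Real.sqrt_pos.2 h0
        have hb : 0 < Real.sqrt ((n : ℝ) + 1) := Real.sqrt_pos.2 (by positivity)
        have ha2 := Real.sq_sqrt h0.le
        have hb2 := Real.sq_sqrt (by positivity : (0 : ℝ) ≤ (n : ℝ) + 1)
        have hab : Real.sqrt n ≤ Real.sqrt ((n : ℝ) + 1) := Real.sqrt_le_sqrt (by linarith)
        have hwn : w (n + 1) ≤ G / ((n : ℝ) + 1) ^ 2 := by
          simp only [hw]
          push_cast
          exact div_le_div_of_nonneg_right (hgG (n + 1) (by omega) hnQ) (by positivity)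
        set a := Real.sqrt n with hadef
        set b := Real.sqrt ((n : ℝ) + 1) with hbdef
        have h66 : b ^ 2 = a ^ 2 + 1 := by linarith
        rw [← hb2] at hwn
        rw [show (n : ℝ) + 1 = b ^ 2 from hb2.symm, show (n : ℝ) = a ^ 2 from ha2.symm]
        have h5 : b ^ 2 * b - a ^ 2 * a ≤ 2 * b := by
          have h6 : b ^ 2 = a ^ 2 + 1 := h66
          have h7 : (b - a) * (b + a) = 1 := by nlinarith
          have h8 : a ^ 2 * (b - a) ≤ b := by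
            have h9 : a * (b - a) ≤ 1 := by nlinarith
            nlinarith
          nlinarith
        have h6 : (b ^ 2 * b - a ^ 2 * a) * w (n + 1) ≤ 2 * b * (G / (b ^ 2) ^ 2) := by
          have h7 : 0 ≤ w (n + 1) := hw0 (n + 1) (by omega) hnQ
          calc (b ^ 2 * b - a ^ 2 * a) * w (n + 1) ≤ 2 * b * w (n + 1) := mul_le_mul_of_nonneg_right h5 h7
            _ ≤ 2 * b * (G / (b ^ 2) ^ 2) := mul_le_mul_of_nonneg_left hwn (by positivity)
        refine h6.trans ?_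
        have h7 : (b - a) * (b + a) = 1 := by nlinarith
        have h8 : 4 * G / a - 4 * G / b = 4 * G * ((b - a) / (a * b)) := by
          field_simp
        rw [h8]
        have h9 : 2 * b * (G / (b ^ 2) ^ 2) = 4 * G * (1 / (2 * b ^ 3)) := by
          field_simp
          ring
        rw [h9]
        apply mul_le_mul_of_nonneg_left _ (by linarith)
        rw [div_le_div_iff₀ (by positivity) (by positivity)]
        -- a * b ≤ (b - a) * (2 b^3)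
        have h10 : 1 ≤ (b - a) * (2 * b) := by nlinarith
        have h11 : a * b ≤ b * b := mul_le_mul_of_nonneg_right hab hb.le
        calc 1 * (a * b) ≤ 1 * (b * b) := by linarith
          _ ≤ ((b - a) * (2 * b)) * (b * b) := mul_le_mul_of_nonneg_right h10 (by positivity)
          _ = (b - a) * (2 * b ^ 3) := by ring
      have h5 := mul_le_mul_of_nonneg_left h4 hK
      have h6 : K * (6 * G / Real.sqrt n0 - 4 * G / Real.sqrt ((n + 1 : ℕ) : ℝ)) =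
          K * (6 * G / Real.sqrt n0 - 4 * G / Real.sqrt n) +
            K * (4 * G / Real.sqrt n - 4 * G / Real.sqrt ((n + 1 : ℕ) : ℝ)) := by ring
      rw [h6]
      have h7 : K * ((((n + 1 : ℕ) : ℝ) * Real.sqrt ((n + 1 : ℕ) : ℝ) - n * Real.sqrt n) * w (n + 1)) =
          K * (((n + 1 : ℕ) : ℝ) * Real.sqrt ((n + 1 : ℕ) : ℝ)) * w (n + 1) -
            K * (n * Real.sqrt n) * w (n + 1) := by ring
      rw [h7] at h5
      have h8 : K * (n * Real.sqrt n) * (w n - w (n + 1)) = K * (n * Real.sqrt n) * w n -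
          K * (n * Real.sqrt n) * w (n + 1) := by ring
      rw [h8] at h2
      linarith
  have h1 := key Q hQ le_rfl
  have h2 : |e Q * w Q| ≤ K * (Q * Real.sqrt Q) * w Q := by
    rw [abs_mul, abs_of_nonneg (hw0 Q hQ le_rfl)]
    exact mul_le_mul_of_nonneg_right (he Q) (hw0 Q hQ le_rfl)
  have h3 : |∑ i ∈ Icc n0 Q, (e i - e (i - 1)) * w i| ≤
      |∑ i ∈ Icc n0 Q, (e i - e (i - 1)) * w i - e Q * w Q| + |e Q * w Q| := by
    have := abs_add_le (∑ i ∈ Icc n0 Q, (e i - e (i - 1)) * w i - e Q * w Q) (e Q * w Q)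
    rwa [sub_add_cancel] at this
  have h4 : K * (6 * G / Real.sqrt n0 - 4 * G / Real.sqrt Q) ≤ 6 * K * G / Real.sqrt n0 := by
    have h5 : 0 ≤ 4 * G / Real.sqrt Q := by positivity
    have h6 : 6 * K * G / Real.sqrt n0 = K * (6 * G / Real.sqrt n0) := by ring
    rw [h6]
    exact mul_le_mul_of_nonneg_left (by linarith) hK
  linarith

theorem sum_inv_sq (n0 Q : ℕ) (hn0 : 1 ≤ n0) : ∑ i ∈ Icc n0 Q, 1 / (i : ℝ) ^ 2 ≤ 2 := by
  rcases lt_or_ge Q n0 with h | h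
  · rw [Finset.Icc_eq_empty (by omega)]
    simp
  have key : ∀ n, n0 ≤ n → ∑ i ∈ Icc n0 n, 1 / (i : ℝ) ^ 2 ≤ 2 - 1 / (n : ℝ) := by
    intro n hn
    induction n, hn using Nat.le_induction with
    | base =>
      rw [Finset.Icc_self, Finset.sum_singleton]
      have h1 : (1 : ℝ) ≤ n0 := by exact_mod_cast hn0
      have h2 : 1 / (n0 : ℝ) ≤ 1 := by rw [div_le_one (by linarith)]; exact h1
      have h3 : 1 / (n0 : ℝ) ^ 2 ≤ 1 / (n0 : ℝ) := by
        apply one_div_le_one_div_of_le (by linarith)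
        nlinarith
      linarith
    | succ n hn ih =>
      rw [Finset.sum_Icc_succ_top (by omega)]
      have := inv_sq_le n (by omega)
      push_cast
      linarith
  refine (key Q h).trans ?_
  have : 0 ≤ 1 / (Q : ℝ) := by positivity
  linarith

/-- partial summation -/
theorem psum (a g : ℕ → ℝ) (β K G : ℝ) (n0 Q : ℕ) (hn0 : 1 ≤ n0) (hK : 0 ≤ K) (hβ : 0 ≤ β) (hG : 0 ≤ G)
    (hA : ∀ n : ℕ, |∑ i ∈ Icc 1 n, a i - β * (n : ℝ) ^ 2| ≤ K * (n * Real.sqrt n))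
    (hg : ∀ m n, n0 ≤ m → m ≤ n → n ≤ Q → g n ≤ g m)
    (hg0 : ∀ n, n0 ≤ n → n ≤ Q → 0 ≤ g n) (hgG : ∀ n, n0 ≤ n → n ≤ Q → g n ≤ G) :
    |∑ i ∈ Icc n0 Q, a i * (g i / (i : ℝ) ^ 2) - 2 * β * ∑ i ∈ Icc n0 Q, g i / i| ≤
      6 * K * G / Real.sqrt n0 + 2 * β * G := by
  have hn00 : (0 : ℝ) < n0 := by exact_mod_cast hn0
  rcases lt_or_ge Q n0 with h | hQ
  · rw [Finset.Icc_eq_empty (by omega)]
    simp only [Finset.sum_empty, mul_zero, sub_zero, abs_zero]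
    positivity
  set e : ℕ → ℝ := fun n => ∑ i ∈ Icc 1 n, a i - β * (n : ℝ) ^ 2 with he
  have h1 := psum_err e g K G n0 Q hn0 hQ hK hA hg hg0 hgG
  have h2 : ∀ i ∈ Icc n0 Q, (e i - e (i - 1)) * (g i / (i : ℝ) ^ 2) =
      a i * (g i / (i : ℝ) ^ 2) - 2 * β * (g i / i) + β * (g i / (i : ℝ) ^ 2) := by
    intro i hi
    have hi1 : 1 ≤ i := hn0.trans (mem_Icc.1 hi).1
    obtain ⟨j, rfl⟩ : ∃ j, i = j + 1 := ⟨i - 1, by omega⟩
    have h0 : (0 : ℝ) < ((j + 1 : ℕ) : ℝ) := by positivity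
    simp only [he, Nat.add_sub_cancel]
    rw [Finset.sum_Icc_succ_top (by omega)]
    push_cast
    have h0' : ((j : ℝ) + 1) ≠ 0 := by positivity
    field_simp
    ring
  rw [Finset.sum_congr rfl h2, Finset.sum_add_distrib, Finset.sum_sub_distrib, ← Finset.mul_sum,
    ← Finset.mul_sum] at h1
  have h3 : |β * ∑ i ∈ Icc n0 Q, g i / (i : ℝ) ^ 2| ≤ 2 * β * G := by
    have h4 : 0 ≤ ∑ i ∈ Icc n0 Q, g i / (i : ℝ) ^ 2 := Finset.sum_nonneg fun i hi =>
      div_nonneg (hg0 i (mem_Icc.1 hi).1 (mem_Icc.1 hi).2) (by positivity)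
    rw [abs_of_nonneg (by positivity)]
    have h5 : ∑ i ∈ Icc n0 Q, g i / (i : ℝ) ^ 2 ≤ ∑ i ∈ Icc n0 Q, G * (1 / (i : ℝ) ^ 2) := by
      refine Finset.sum_le_sum fun i hi => ?_
      rw [mul_one_div]
      exact div_le_div_of_nonneg_right (hgG i (mem_Icc.1 hi).1 (mem_Icc.1 hi).2) (by positivity)
    rw [← Finset.mul_sum] at h5
    have h6 := mul_le_mul_of_nonneg_left (sum_inv_sq n0 Q hn0) hG
    nlinarith
  have h4 := abs_le.1 h1
  have h5 := abs_le.1 h3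
  rw [abs_le]
  constructor <;> linarith [h4.1, h4.2, h5.1, h5.2]

end Pool.Agent.D0H53.PL
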