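import Pool.Agent.W565.MOFS
import Pool.Agent.N965.LN.Fej

set_option autoImplicit false

/-!
# The number of points of a finite family close to an integer: Erdős–Turán
-/

open Finset Filter Topology

namespace Pool.Agent.D0H53.PL

open Pool.Agent.N965.LN (dn)
open Pool.Agent.H469R2.NK (e norm_e e_add)
open Pool.Agent.W565.MOFS (P2 saw_upper saw_lower diff_bound)

theorem saw_bound {ι : Type} (S : Finset ι) (x : ι → ℝ) (δ : ℝ) (hδ0 : 0 < δ) (hδ1 : δ ≤ 1) (K : ℕ) (hK : 1 ≤ K) :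
    |∑ n ∈ S, (Int.fract (x n) - 1 / 2)| ≤
      ∑ h ∈ Icc 1 K, ‖∑ n ∈ S, e (h * x n)‖ / h + S.card / (K * δ) + S.card * δ := by
  have hW0 : (0 : ℝ) ≤ S.card := Nat.cast_nonneg _
  have hK0 : (0 : ℝ) < K := by exact_mod_cast hK
  set W : ℝ := (S.card : ℝ) with hWd
  set D : ℝ := 1 / Real.pi ^ 2 * (∑ h ∈ Icc 1 K, 2 * Real.pi * δ / h *
    ‖∑ n ∈ S, e (h * x n)‖ + 2 * W / K) with hD
  have hu : |∑ n ∈ S, (P2 (Int.fract (x n + δ)) - P2 (Int.fract (x n)))| ≤ D := by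
    have := diff_bound S x δ K hK
    rwa [abs_of_pos hδ0] at this
  have hl : |∑ n ∈ S, (P2 (Int.fract (x n + -δ)) - P2 (Int.fract (x n)))| ≤ D := by
    have := diff_bound S x (-δ) K hK
    rwa [abs_neg, abs_of_pos hδ0] at this
  have h1 : ∑ n ∈ S, (Int.fract (x n) - 1 / 2) ≤ D / (2 * δ) + W * (δ / 2) := by
    have h2 : ∑ n ∈ S, (Int.fract (x n) - 1 / 2) ≤
        ∑ n ∈ S, ((P2 (Int.fract (x n)) - P2 (Int.fract (x n - δ))) / (2 * δ) + δ / 2) :=
      sum_le_sum fun n _ => saw_upper (x n) δ hδ0 hδ1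
    have h7 : ∑ n ∈ S, ((P2 (Int.fract (x n)) - P2 (Int.fract (x n - δ))) / (2 * δ) + δ / 2) =
        (∑ n ∈ S, (P2 (Int.fract (x n)) - P2 (Int.fract (x n - δ)))) / (2 * δ) + W * (δ / 2) := by
      rw [sum_add_distrib, sum_div, sum_const, nsmul_eq_mul]
    rw [h7] at h2
    have h3 : ∑ n ∈ S, (P2 (Int.fract (x n)) - P2 (Int.fract (x n - δ))) ≤ D := by
      have h4 := (abs_le.1 hl).1
      have h5 : ∑ n ∈ S, (P2 (Int.fract (x n)) - P2 (Int.fract (x n - δ))) =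
          -∑ n ∈ S, (P2 (Int.fract (x n + -δ)) - P2 (Int.fract (x n))) := by
        rw [← sum_neg_distrib]
        refine sum_congr rfl fun n _ => ?_
        rw [sub_eq_add_neg (x n) δ]; ring
      rw [h5]; linarith
    have h6 : (∑ n ∈ S, (P2 (Int.fract (x n)) - P2 (Int.fract (x n - δ)))) / (2 * δ) ≤
        D / (2 * δ) := by gcongr
    linarith
  have h2 : -(D / (2 * δ) + W * (δ / 2)) ≤ ∑ n ∈ S, (Int.fract (x n) - 1 / 2) := by
    have h2 : ∑ n ∈ S, ((P2 (Int.fract (x n + δ)) - P2 (Int.fract (x n))) / (2 * δ) - δ / 2) ≤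
        ∑ n ∈ S, (Int.fract (x n) - 1 / 2) :=
      sum_le_sum fun n _ => saw_lower (x n) δ hδ0 hδ1
    have h8 : ∑ n ∈ S, ((P2 (Int.fract (x n + δ)) - P2 (Int.fract (x n))) / (2 * δ) - δ / 2) =
        (∑ n ∈ S, (P2 (Int.fract (x n + δ)) - P2 (Int.fract (x n)))) / (2 * δ) - W * (δ / 2) := by
      rw [sum_sub_distrib, ← sum_div, sum_const, nsmul_eq_mul]
    rw [h8] at h2
    have h6 : -D / (2 * δ) ≤
        (∑ n ∈ S, (P2 (Int.fract (x n + δ)) - P2 (Int.fract (x n)))) / (2 * δ) := by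
      have := (abs_le.1 hu).1
      gcongr
    have h7 : -D / (2 * δ) = -(D / (2 * δ)) := neg_div _ _
    linarith
  have h3 : D / (2 * δ) ≤ ∑ h ∈ Icc 1 K, ‖∑ n ∈ S, e (h * x n)‖ / h + W / (K * δ) := by
    have hpi : 3 < Real.pi := Real.pi_gt_three
    have e1 : D / (2 * δ) = 1 / Real.pi * ∑ h ∈ Icc 1 K, ‖∑ n ∈ S, e (h * x n)‖ / h +
        1 / Real.pi ^ 2 * (W / (K * δ)) := by
      rw [hD, mul_add, add_div]
      congr 1
      · rw [mul_sum, sum_div, mul_sum]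
        refine sum_congr rfl fun h hh => ?_
        have : (h : ℝ) ≠ 0 := by
          have := (mem_Icc.1 hh).1
          positivity
        field_simp
      · field_simp
    rw [e1]
    have e2 : 1 / Real.pi ≤ 1 := by rw [div_le_one (by positivity)]; linarith
    have e3 : 1 / Real.pi ^ 2 ≤ 1 := by rw [div_le_one (by positivity)]; nlinarith
    have e4 : 0 ≤ ∑ h ∈ Icc 1 K, ‖∑ n ∈ S, e (h * x n)‖ / h :=
      sum_nonneg fun h _ => by positivity
    have e5 : 0 ≤ W / (K * δ) := by positivity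
    nlinarith
  have h4 : W * (δ / 2) ≤ W * δ :=
    mul_le_mul_of_nonneg_left (by linarith) hW0
  rw [abs_le]
  constructor <;> linarith

/-- the indicator of `dn x ≤ ε` -/
theorem ind_eq (x ε : ℝ) (h0 : 0 ≤ ε) (h1 : ε < 1 / 2) : (if dn x ≤ ε then (1 : ℝ) else 0) =
    2 * ε - (Int.fract (x + ε) - 1 / 2) - (Int.fract (-x + ε) - 1 / 2) := by
  obtain ⟨t, ht⟩ : ∃ t, t = x - round x := ⟨_, rfl⟩
  have h3 : dn x = |t| := by rw [dn, ht]
  have h4 : |t| ≤ 1 / 2 := by rw [ht]; exact abs_sub_round x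
  have h5 : Int.fract (x + ε) = Int.fract (t + ε) := by
    have : x + ε = (t + ε) + (round x : ℤ) := by rw [ht]; ring
    rw [this, Int.fract_add_intCast]
  have h6 : Int.fract (-x + ε) = Int.fract (-t + ε) := by
    have : -x + ε = (-t + ε) + ((-round x : ℤ) : ℝ) := by rw [ht]; push_cast; ring
    rw [this, Int.fract_add_intCast]
  rw [h3, h5, h6]
  have h7 := abs_le.1 h4
  by_cases h : |t| ≤ ε
  · rw [if_pos h]
    have h8 := abs_le.1 h
    rw [Int.fract_eq_self.2 ⟨by linarith, by linarith⟩, Int.fract_eq_self.2 ⟨by linarith, by linarith⟩]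
    ring
  · rw [if_neg h]
    push Not at h
    rcases lt_abs.1 h with h8 | h8
    · have h9 : Int.fract (-t + ε) = -t + ε + 1 := by
        have : -t + ε = (-t + ε + 1) + ((-1 : ℤ) : ℝ) := by push_cast; ring
        rw [this, Int.fract_add_intCast, Int.fract_eq_self.2 ⟨by linarith, by linarith⟩]
        push_cast; ring
      rw [h9, Int.fract_eq_self.2 ⟨by linarith, by linarith⟩]
      ring
    · have h9 : Int.fract (t + ε) = t + ε + 1 := by
        have : t + ε = (t + ε + 1) + ((-1 : ℤ) : ℝ) := by push_cast; ring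
        rw [this, Int.fract_add_intCast, Int.fract_eq_self.2 ⟨by linarith, by linarith⟩]
        push_cast; ring
      rw [h9, Int.fract_eq_self.2 ⟨by linarith, by linarith⟩]
      ring

theorem norm_shift {ι : Type} (S : Finset ι) (x : ι → ℝ) (h : ℕ) (c : ℝ) :
    ‖∑ n ∈ S, e (h * (x n + c))‖ = ‖∑ n ∈ S, e (h * x n)‖ := by
  have : ∑ n ∈ S, e (h * (x n + c)) = e (h * c) * ∑ n ∈ S, e (h * x n) := by
    rw [mul_sum]
    refine sum_congr rfl fun n _ => ?_
    rw [← e_add]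
    congr 1
    ring
  rw [this, norm_mul, norm_e, one_mul]

theorem norm_neg' {ι : Type} (S : Finset ι) (x : ι → ℝ) (h : ℕ) :
    ‖∑ n ∈ S, e (h * (-x n))‖ = ‖∑ n ∈ S, e (h * x n)‖ := by
  have : ∑ n ∈ S, e (h * (-x n)) = (starRingEnd ℂ) (∑ n ∈ S, e (h * x n)) := by
    rw [map_sum]
    refine sum_congr rfl fun n _ => ?_
    unfold e
    rw [← Complex.exp_conj]
    congr 1
    rw [map_mul, Complex.conj_I, Complex.conj_ofReal]
    push_cast
    ring
  rw [this, Complex.norm_conj]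

/-- Erdős–Turán -/
theorem count_close {ι : Type} (S : Finset ι) (x : ι → ℝ) (ε : ℝ) (h0 : 0 ≤ ε) (h1 : ε < 1 / 2) :
    |((S.filter fun i => dn (x i) ≤ ε).card : ℝ) - S.card * (2 * ε)| ≤
      2 * ∑ h ∈ Icc 1 (S.card ^ 2), ‖∑ n ∈ S, e (h * x n)‖ / h + 4 := by
  classical
  rcases Finset.eq_empty_or_nonempty S with hS | hS
  · subst hS
    simp
  have hc : 1 ≤ S.card := hS.card_pos
  have hc0 : (1 : ℝ) ≤ S.card := by exact_mod_cast hc
  set δ : ℝ := 1 / S.card with hδ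
  have hδ0 : 0 < δ := by positivity
  have hδ1 : δ ≤ 1 := by rw [hδ, div_le_one (by linarith)]; exact hc0
  have hK : 1 ≤ S.card ^ 2 := Nat.one_le_pow _ _ hc
  have h2 := saw_bound S (fun i => x i + ε) δ hδ0 hδ1 (S.card ^ 2) hK
  have h3 := saw_bound S (fun i => -x i + ε) δ hδ0 hδ1 (S.card ^ 2) hK
  simp only [norm_shift] at h2
  have h4 : ∀ h : ℕ, ‖∑ n ∈ S, e (h * (-x n + ε))‖ = ‖∑ n ∈ S, e (h * x n)‖ := by
    intro h
    rw [norm_shift S (fun n => -x n) h ε, norm_neg']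
  simp only [h4] at h3
  have h5 : (S.card : ℝ) / (((S.card ^ 2 : ℕ) : ℝ) * δ) = 1 := by
    rw [hδ]; push_cast; field_simp
  have h6 : (S.card : ℝ) * δ = 1 := by rw [hδ]; field_simp
  rw [h5, h6] at h2 h3
  have h7 : ((S.filter fun i => dn (x i) ≤ ε).card : ℝ) - S.card * (2 * ε) =
      -(∑ n ∈ S, (Int.fract (x n + ε) - 1 / 2)) - ∑ n ∈ S, (Int.fract (-x n + ε) - 1 / 2) := by
    have h8 : ((S.filter fun i => dn (x i) ≤ ε).card : ℝ) = ∑ i ∈ S, if dn (x i) ≤ ε then (1 : ℝ) else 0 := by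
      rw [Finset.sum_boole]
    rw [h8, Finset.sum_congr rfl fun i _ => ind_eq (x i) ε h0 h1, sum_sub_distrib, sum_sub_distrib, sum_const,
      nsmul_eq_mul]
    ring
  rw [h7]
  have h8 := abs_le.1 h2
  have h9 := abs_le.1 h3
  rw [abs_le]
  constructor <;> linarith [h8.1, h8.2, h9.1, h9.2]

end Pool.Agent.D0H53.PL
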